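import Mathlib

/-!
# Project MC: cube complexes with labelled edges, universal covers, `ℓ²`-chains

Definitions used in the statement of the main theorem.
-/

set_option autoImplicit false

open Finset

namespace Pool.Agent.H19.Cub

/-- A cube complex with labelled edges: `X` is the set of vertices, the edges at the vertex `x` are
labelled by the elements of `lab x`, and `nb v x` is the other end of the edge at `x` with the label
`v`.  The edges with the labels `v ∈ σ ⊆ lab x` span a cube at `x` if and only if the labels in `σ` are
pairwise adjacent in `graph`; opposite edges of a square have the same label. -/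
structure CubeComplex (V X : Type) [DecidableEq V] where
  graph : SimpleGraph V
  lab : X → Finset V
  nb : V → X → X
  lab_nb : ∀ v x, v ∈ lab x → v ∈ lab (nb v x)
  nb_nb : ∀ v x, v ∈ lab x → nb v (nb v x) = x
  lab_adj : ∀ u v x, graph.Adj u v → u ∈ lab x → v ∈ lab x → u ∈ lab (nb v x)
  nb_comm : ∀ u v x, graph.Adj u v → u ∈ lab x → v ∈ lab x → nb u (nb v x) = nb v (nb u x)

variable {V X : Type} [DecidableEq V]

namespace CubeComplex

/-- the list `l` of labels is an edge path which starts at `x` -/
def IsPath (C : CubeComplex V X) : X → List V → Prop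
  | _, [] => True
  | x, v :: l => v ∈ C.lab x ∧ C.IsPath (C.nb v x) l

/-- the end of the path `l` which starts at `x` -/
def fin (C : CubeComplex V X) : X → List V → X
  | x, [] => x
  | x, v :: l => C.fin (C.nb v x) l

end CubeComplex

/-- elementary homotopies: an edge which is traversed back and forth is removed, or a path along two
sides of a square is replaced by the path along the other two sides -/
inductive Step (G : SimpleGraph V) : List V → List V → Prop
  | back (a b : List V) (v : V) : Step G (a ++ v :: v :: b) (a ++ b)
  | square (a b : List V) (u v : V) (h : G.Adj u v) : Step G (a ++ u :: v :: b) (a ++ v :: u :: b)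

namespace CubeComplex

/-- the vertices of the universal cover: homotopy classes of edge paths which start at `x` -/
def Cover (C : CubeComplex V X) (x : X) : Type :=
  Quot fun l l' : {l : List V // C.IsPath x l} => Step C.graph l.1 l'.1

theorem fin_append (C : CubeComplex V X) (x : X) (a b : List V) :
    C.fin x (a ++ b) = C.fin (C.fin x a) b := by
  induction a generalizing x with
  | nil => rfl
  | cons v a ih => exact ih (C.nb v x)

theorem isPath_append (C : CubeComplex V X) (x : X) (a b : List V) :
    C.IsPath x (a ++ b) ↔ C.IsPath x a ∧ C.IsPath (C.fin x a) b := by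
  induction a generalizing x with
  | nil => simp [IsPath, fin]
  | cons v a ih =>
    show (v ∈ C.lab x ∧ C.IsPath (C.nb v x) (a ++ b)) ↔
      (v ∈ C.lab x ∧ C.IsPath (C.nb v x) a) ∧ C.IsPath (C.fin (C.nb v x) a) b
    rw [ih, and_assoc]

theorem fin_step (C : CubeComplex V X) (x : X) {l l' : List V} (h : Step C.graph l l')
    (hl : C.IsPath x l) (hl' : C.IsPath x l') : C.fin x l = C.fin x l' := by
  cases h with
  | back a b v =>
    rw [isPath_append] at hl
    rw [fin_append, fin_append]
    obtain ⟨-, h1, -⟩ := hl
    show C.fin (C.nb v (C.nb v (C.fin x a))) b = _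
    rw [C.nb_nb v _ h1]
  | square a b u v h =>
    rw [isPath_append] at hl hl'
    rw [fin_append, fin_append]
    obtain ⟨-, h1, -, -⟩ := hl
    obtain ⟨-, h2, -, -⟩ := hl'
    show C.fin (C.nb v (C.nb u (C.fin x a))) b = C.fin (C.nb u (C.nb v (C.fin x a))) b
    rw [C.nb_comm u v _ h h1 h2]

/-- the covering projection -/
def proj (C : CubeComplex V X) (x : X) : C.Cover x → X :=
  Quot.lift (fun l => C.fin x l.1) fun l l' h => C.fin_step x h l.2 l'.2

omit [DecidableEq V] in
theorem step_append {G : SimpleGraph V} {l l' : List V} (h : Step G l l') (m : List V) :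
    Step G (l ++ m) (l' ++ m) := by
  cases h with
  | back a b v =>
    have h1 := Step.back (G := G) a (b ++ m) v
    simpa using h1
  | square a b u v h =>
    have h1 := Step.square (G := G) a (b ++ m) u v h
    simpa using h1

open Classical in
/-- the path `l` followed by the edge with the label `v` (if there is such an edge) -/
noncomputable def ext (C : CubeComplex V X) (x : X) (v : V) (l : {l : List V // C.IsPath x l}) :
    {l : List V // C.IsPath x l} :=
  if h : v ∈ C.lab (C.fin x l.1) then
    ⟨l.1 ++ [v], (C.isPath_append x l.1 [v]).2 ⟨l.2, h, trivial⟩⟩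
  else l

/-- the neighbour in the universal cover -/
noncomputable def nbc (C : CubeComplex V X) (x : X) (v : V) : C.Cover x → C.Cover x :=
  Quot.map (C.ext x v) fun l l' h => by
    have h1 := C.fin_step x h l.2 l'.2
    unfold ext
    by_cases h2 : v ∈ C.lab (C.fin x l.1)
    · rw [dif_pos h2, dif_pos (h1 ▸ h2)]
      exact step_append h [v]
    · rw [dif_neg h2, dif_neg (h1 ▸ h2)]
      exact h

theorem nbc_mk (C : CubeComplex V X) (x : X) (v : V) (l : {l : List V // C.IsPath x l})
    (h : v ∈ C.lab (C.fin x l.1)) :
    C.nbc x v (Quot.mk _ l) =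
      Quot.mk _ ⟨l.1 ++ [v], (C.isPath_append x l.1 [v]).2 ⟨l.2, h, trivial⟩⟩ := by
  show Quot.mk _ (C.ext x v l) = _
  unfold ext
  rw [dif_pos h]

/-- the universal cover, a cube complex with labelled edges -/
noncomputable def cover (C : CubeComplex V X) (x : X) : CubeComplex V (C.Cover x) where
  graph := C.graph
  lab c := C.lab (C.proj x c)
  nb := C.nbc x
  lab_nb v c h := by
    induction c using Quot.ind with
    | mk l =>
      have h' : v ∈ C.lab (C.fin x l.1) := h
      rw [C.nbc_mk x v l h']
      show v ∈ C.lab (C.fin x (l.1 ++ [v]))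
      rw [fin_append]
      exact C.lab_nb v _ h'
  nb_nb v c h := by
    induction c using Quot.ind with
    | mk l =>
      have h' : v ∈ C.lab (C.fin x l.1) := h
      rw [C.nbc_mk x v l h', C.nbc_mk x v _ (by
        show v ∈ C.lab (C.fin x (l.1 ++ [v]))
        rw [fin_append]
        exact C.lab_nb v _ h')]
      apply Quot.sound
      have h1 := Step.back (G := C.graph) l.1 [] v
      simpa using h1
  lab_adj u v c huv hu hv := by
    induction c using Quot.ind with
    | mk l =>
      have hu' : u ∈ C.lab (C.fin x l.1) := hu
      have hv' : v ∈ C.lab (C.fin x l.1) := hv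
      rw [C.nbc_mk x v l hv']
      show u ∈ C.lab (C.fin x (l.1 ++ [v]))
      rw [fin_append]
      exact C.lab_adj u v _ huv hu' hv'
  nb_comm u v c huv hu hv := by
    induction c using Quot.ind with
    | mk l =>
      have hu' : u ∈ C.lab (C.fin x l.1) := hu
      have hv' : v ∈ C.lab (C.fin x l.1) := hv
      rw [C.nbc_mk x v l hv', C.nbc_mk x u l hu', C.nbc_mk x u _ (by
        show u ∈ C.lab (C.fin x (l.1 ++ [v]))
        rw [fin_append]
        exact C.lab_adj u v _ huv hu' hv'), C.nbc_mk x v _ (by
        show v ∈ C.lab (C.fin x (l.1 ++ [u]))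
        rw [fin_append]
        exact C.lab_adj v u _ huv.symm hv' hu')]
      apply Quot.sound
      have h1 := Step.square (G := C.graph) l.1 [] v u huv.symm
      simpa using h1

end CubeComplex

/-! ### `ℓ²`-chains -/

/-- `ℓ²`-chains of degree `i`: a cube is given by a vertex `x` and a set `σ` of `i` pairwise adjacent
labels at `x`; `f σ x` is the coefficient of this cube with the orientation determined by `x`; it
changes its sign if `x` is replaced by a neighbour in the cube. -/
structure IsL2Chain (C : CubeComplex V X) (i : ℕ) (f : Finset V → X → ℂ) : Prop where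
  supp : ∀ σ x, f σ x ≠ 0 → σ ⊆ C.lab x ∧ C.graph.IsClique (σ : Set V) ∧ σ.card = i
  anti : ∀ σ x, σ ⊆ C.lab x → ∀ v ∈ σ, f σ (C.nb v x) = - f σ x
  l2 : ∀ σ, Summable fun x => ‖f σ x‖ ^ 2

/-- the cellular boundary; the signs come from the order of the labels by `ν` -/
def bdry [Fintype V] (ν : V → ℕ) (f : Finset V → X → ℂ) (τ : Finset V) (x : X) : ℂ :=
  ∑ v ∈ τᶜ, (-1) ^ (τ.filter fun u => ν u < ν v).card * f (insert v τ) x

/-- The reduced `ℓ²`-homology of the cube complex vanishes in degree `i`: every `ℓ²`-cycle of degree
`i` is a limit of boundaries of `ℓ²`-chains. -/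
def L2HomologyZero [Fintype V] (C : CubeComplex V X) (i : ℕ) : Prop :=
  ∀ ν : V → ℕ, Function.Injective ν → ∀ z, IsL2Chain C i z → bdry ν z = 0 → ∀ ε : ℝ, 0 < ε →
    ∃ y, IsL2Chain C (i + 1) y ∧ ∑ σ, ∑' x, ‖z σ x - bdry ν y σ x‖ ^ 2 < ε

end Pool.Agent.H19.Cub
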