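import Pool.Agent.H85.Fold2.Defs
import Pool.Agent.H19.Cub.Stmt

/-!
# Project MC: definitions

Sets with commuting involutions and labels, twisted chains, folded sets of labels.
-/

set_option autoImplicit false

open Finset

namespace Pool.Agent.H19.Cub

open Pool.Agent.H85.Fold Pool.Agent.H85.Fold2

/-- A set `X` with involutions `s v` and labels `Y x`: the vertices of a cube complex with labelled
edges; only the edges with `v ∈ Y x` count. -/
structure IsSpec {V : Type} (G : SimpleGraph V) {X : Type} (Y : X → Finset V) (s : V → X → X) :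
    Prop where
  inv : ∀ v x, s v (s v x) = x
  comm : ∀ u v, G.Adj u v → ∀ x, s u (s v x) = s v (s u x)
  mem : ∀ v x, v ∈ Y x → v ∈ Y (s v x)
  adj : ∀ u v x, G.Adj u v → u ∈ Y x → v ∈ Y x → u ∈ Y (s v x)

theorem IsSpec.isAct {V : Type} {G : SimpleGraph V} {X : Type} {Y : X → Finset V}
    {s : V → X → X} (h : IsSpec G Y s) : IsAct G s := ⟨h.inv, h.comm⟩

theorem IsSpec.sub {V : Type} {G : SimpleGraph V} {X : Type} {Y : X → Finset V}
    {s : V → X → X} (h : IsSpec G Y s) {σ : Finset V} (hσ : Cl G σ) {v : V} (hv : v ∈ σ) {x : X}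
    (hx : σ ⊆ Y x) : σ ⊆ Y (s v x) := by
  intro u hu
  by_cases huv : u = v
  · subst huv
    exact h.mem u x (hx hu)
  · exact h.adj u v x (hσ u hu v hv huv) (hx hu) (hx hv)

theorem IsSpec.sub_iff {V : Type} {G : SimpleGraph V} {X : Type} {Y : X → Finset V}
    {s : V → X → X} (h : IsSpec G Y s) {σ : Finset V} (hσ : Cl G σ) {v : V} (hv : v ∈ σ) {x : X} :
    σ ⊆ Y (s v x) ↔ σ ⊆ Y x := by
  refine ⟨fun hx => ?_, h.sub hσ hv⟩
  have h1 := h.sub hσ hv hx
  rwa [h.inv] at h1

section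

variable (K : Type) [Field K] {V D X : Type} [DecidableEq V] [Fintype V] [Fintype D]
  [DecidableEq D]

/-- twisted chains of degree `i` over the field `K` -/
def SCh (G : SimpleGraph V) (Y : X → Finset V) (B : V → Matrix D D K) (s : V → X → X) (i : ℕ) :
    Submodule K (Finset V → X → D → K) where
  carrier := {f | (∀ σ x, f σ x ≠ 0 → σ ⊆ Y x ∧ Cl G σ ∧ σ.card = i) ∧
    ∀ σ, ∀ v ∈ σ, ∀ x, f σ (s v x) = -(B v).mulVec (f σ x)}
  zero_mem' := by
    refine ⟨fun σ x h => absurd rfl h, fun σ v _ x => by simp⟩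
  add_mem' := by
    rintro f g ⟨h1, h2⟩ ⟨h3, h4⟩
    refine ⟨fun σ x h => ?_, fun σ v hv x => ?_⟩
    · by_cases hf : f σ x = 0
      · by_cases hg : g σ x = 0
        · exact absurd (by simp [hf, hg]) h
        · exact h3 σ x hg
      · exact h1 σ x hf
    · simp only [Pi.add_apply]
      rw [h2 σ v hv x, h4 σ v hv x]
      simp only [Matrix.mulVec_add]
      abel
  smul_mem' := by
    rintro c f ⟨h1, h2⟩
    refine ⟨fun σ x h => h1 σ x ?_, fun σ v hv x => ?_⟩
    · intro h0
      exact h (by simp [h0])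
    · simp only [Pi.smul_apply]
      rw [h2 σ v hv x]
      simp only [Matrix.mulVec_smul, smul_neg]

/-- twisted cycles -/
def SZ (G : SimpleGraph V) (Y : X → Finset V) (B : V → Matrix D D K) (s : V → X → X)
    (ν : V → ℕ) (i : ℕ) : Submodule K (Finset V → X → D → K) :=
  SCh K G Y B s i ⊓ LinearMap.ker (tdl K ν)

/-- twisted boundaries -/
def SB (G : SimpleGraph V) (Y : X → Finset V) (B : V → Matrix D D K) (s : V → X → X)
    (ν : V → ℕ) (i : ℕ) : Submodule K (Finset V → X → D → K) :=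
  (SCh K G Y B s (i + 1)).map (tdl K ν)

/-- twisted Betti numbers -/
noncomputable def bS (G : SimpleGraph V) (Y : X → Finset V) (B : V → Matrix D D K)
    (s : V → X → X) (ν : V → ℕ) (i : ℕ) : ℕ :=
  Module.finrank K (SZ K G Y B s ν i) - Module.finrank K (SB K G Y B s ν i)

/-- untwisted Betti numbers -/
noncomputable def bT (G : SimpleGraph V) (Y : X → Finset V) (s : V → X → X) (ν : V → ℕ)
    (i : ℕ) : ℕ := bS K G Y (fun _ => (1 : Matrix Unit Unit K)) s ν i

end

/-! ### Products with a group -/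

/-- the labels of the product with a set -/
def prY {V Ω : Type} (Y : Ω → Finset V) (P : Type) (x : Ω × P) : Finset V := Y x.1

/-- the involutions of the product with a group -/
def prS {V Ω P : Type} [Group P] (s : V → Ω → Ω) (g : V → P) (v : V) (x : Ω × P) : Ω × P :=
  (s v x.1, x.2 * g v)

theorem isSpec_pr {V Ω P : Type} [Group P] {G : SimpleGraph V} {Y : Ω → Finset V}
    {s : V → Ω → Ω} (h : IsSpec G Y s) (g : V → P) (hg : ∀ v, g v * g v = 1)
    (hgc : ∀ u v, G.Adj u v → g u * g v = g v * g u) : IsSpec G (prY Y P) (prS s g) where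
  inv v x := by
    unfold prS
    simp only [h.inv, mul_assoc, hg, mul_one]
  comm u v huv x := by
    unfold prS
    simp only [h.comm u v huv, mul_assoc, hgc u v huv]
  mem v x hv := h.mem v x.1 hv
  adj u v x huv hu hv := h.adj u v x.1 huv hu hv

/-! ### Folded sets of labels -/

section

variable {V : Type} [DecidableEq V] [Fintype V]

/-- the matrix `T` is symmetric and vanishes on the diagonal and on the edges -/
structure IsT (G : SimpleGraph V) (T : V → V → ℤ) : Prop where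
  symm : ∀ u v, T u v = T v u
  zero : ∀ u v, u = v ∨ G.Adj u v → T u v = 0

/-- The set `U` of labels is a homology sphere of dimension `n - 1` folded by `T`. -/
structure IsFoldOn (G : SimpleGraph V) (T : V → V → ℤ) (n : ℕ) (U : Finset V) : Prop where
  sphere : IsHomologySphere (G.comap (Subtype.val : {v // v ∈ U} → V)) n
  neg : ∀ u ∈ U, ∀ v ∈ U, u ≠ v → ¬ G.Adj u v → T u v < 0
  ndef : ∃ φ : Fin n → V → ℝ, ∀ f : V → ℝ, (∀ v, f v ≠ 0 → v ∈ U) → f ≠ 0 →
    (∀ k, ∑ v, φ k v * f v = 0) → ∑ u, ∑ v, f u * f v * (T u v : ℝ) < 0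

/-- the local condition in degree `i` -/
def GoodAt (G : SimpleGraph V) (T : V → V → ℤ) (i : ℕ) (Y : Finset V) : Prop :=
  ∃ (n : ℕ) (U : Finset V), IsFoldOn G T n U ∧
    ((Y ⊆ U ∧ n < 2 * i) ∨ (Y = U ∧ 2 * i ≠ n))

end

/-! ### Harmonic chains -/

section

variable {V X : Type} [DecidableEq V]

/-- `ℓ²`-chains on a set with involutions -/
structure IsL2S (G : SimpleGraph V) (Y : X → Finset V) (s : V → X → X) (i : ℕ)
    (f : Finset V → X → ℂ) : Prop where
  supp : ∀ σ x, f σ x ≠ 0 → σ ⊆ Y x ∧ G.IsClique (σ : Set V) ∧ σ.card = i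
  anti : ∀ σ, ∀ v ∈ σ, ∀ x, f σ (s v x) = - f σ x
  l2 : ∀ σ, Summable fun x => ‖f σ x‖ ^ 2

/-- harmonic `ℓ²`-chains -/
structure IsHarmS [Fintype V] (G : SimpleGraph V) (Y : X → Finset V) (s : V → X → X) (ν : V → ℕ)
    (i : ℕ) (f : Finset V → X → ℂ) : Prop where
  chain : IsL2S G Y s i f
  cyc : bdry ν f = 0
  cocyc : ∀ (ρ : Finset V) (x : X), ρ ⊆ Y x → G.IsClique (ρ : Set V) → ρ.card = i + 1 →
    ∑ v ∈ ρ, (-1) ^ ((ρ.erase v).filter fun u => ν u < ν v).card *
      (f (ρ.erase v) x - f (ρ.erase v) (s v x)) = 0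

end

end Pool.Agent.H19.Cub
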