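import Pool.Agent.H19.Cub.Fermi
import Pool.Agent.H19.Cub.Defs

/-!
# Project MC: the integer representation

`w`, `a` fermions with the index set `V × Fin 3`. Everything follows from the relations `IsFermi`
(compare `Pool.Agent.H4.FC.BRel`, delivered file h4_fc_BRel.lean).

* `eM u * eM v + eM v * eM u = (T v u + T u v) • 1`: the `w (u,0)` anticommute among themselves and have
  square zero, also the `a (x,0)`; `{w (u,0), a (x,0)} = δ`. In particular `eM v * eM v = T v v • 1`
  (for the square: `w² = 0`, `(∑ T v x a x)² = 0` by antisymmetry of the double sum, use that the matrices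
  are over `ℤ`, where `2 x = 0` implies `x = 0`).
* `gM v * gM v = 1`, `cM v * cM v = -1`; all of `eM u`, `gM v`, `cM w` with different kinds anticommute,
  also `gM u`, `gM v` and `cM u`, `cM v` for `u ≠ v`.
* `bM_sq`: `x = N • eM v + gM v` has square `N² e² + N (e g + g e) + g² = 1` and anticommutes with `c = cM v`, so
  `(x c)(x c) = -x x c c = 1`.
* `bM_comm`: for `u ≠ v`, `T u v = 0`: `x_u x_v = - x_v x_u`, and `x_u c_u x_v c_v = -x_u x_v c_u c_v`.
* `isPert_M`: the fields of `IsPert`; `lift`: take `m = opM (a (v,0)) x`: `e_v a_v x = x - a_v e_v x = x` and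
  `e_u a_v x = - a_v e_u x = 0` for `u ∈ σ` (`{e_u, a (v,0)} = δ_{uv}`).
-/

set_option autoImplicit false
set_option linter.unusedSectionVars false

open Finset

namespace Pool.Agent.H19.Cub

open Pool.Agent.H85.Fold Pool.Agent.H85.Fold2

variable {V D : Type} [DecidableEq V] [Fintype V] [Fintype D] [DecidableEq D]

/-- isotropic operators with the anticommutators `2 T` -/
def eM (w a : V × Fin 3 → Matrix D D ℤ) (T : V → V → ℤ) (v : V) : Matrix D D ℤ :=
  w (v, 0) + ∑ u, T v u • a (u, 0)

/-- operators of square `1` -/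
def gM (w a : V × Fin 3 → Matrix D D ℤ) (v : V) : Matrix D D ℤ := w (v, 1) + a (v, 1)

/-- operators of square `-1` -/
def cM (w a : V × Fin 3 → Matrix D D ℤ) (v : V) : Matrix D D ℤ := w (v, 2) - a (v, 2)

/-- the involutions -/
def bM (w a : V × Fin 3 → Matrix D D ℤ) (T : V → V → ℤ) (N : ℤ) (v : V) : Matrix D D ℤ :=
  (N • eM w a T v + gM w a v) * cM w a v

/-- the real operator of an integer matrix -/
noncomputable def opM (M : Matrix D D ℤ) : (D → ℝ) →ₗ[ℝ] (D → ℝ) :=
  Matrix.toLin' (M.map (Int.cast : ℤ → ℝ))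

variable {w a : V × Fin 3 → Matrix D D ℤ} {G : SimpleGraph V} {T : V → V → ℤ}


/-! ### linear combinations of fermions -/

section lin

variable {I : Type} [Fintype I] [DecidableEq I] {w' a' : I → Matrix D D ℤ}

private def bmX (w' a' : I → Matrix D D ℤ) (α β : I → ℤ) : Matrix D D ℤ :=
  ∑ i, (α i • w' i + β i • a' i)

private theorem bm_pair (hw : IsFermi w' a') (i j : I) (p q p' q' : ℤ) :
    (p • w' i + q • a' i) * (p' • w' j + q' • a' j) +
      (p' • w' j + q' • a' j) * (p • w' i + q • a' i) =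
      (if i = j then p * q' + q * p' else 0) • (1 : Matrix D D ℤ) := by
  have h1 := hw.ww i j
  have h2 := hw.aa i j
  have e1 : (p • w' i + q • a' i) * (p' • w' j + q' • a' j) +
      (p' • w' j + q' • a' j) * (p • w' i + q • a' i) =
      (p * p') • (w' i * w' j + w' j * w' i) + (q * q') • (a' i * a' j + a' j * a' i) +
        (p * q') • (w' i * a' j + a' j * w' i) + (q * p') • (a' i * w' j + w' j * a' i) := by
    simp only [add_mul, mul_add, smul_mul_assoc, mul_smul_comm, smul_add, smul_smul]
    have c1 : p' * p = p * p' := mul_comm _ _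
    have c2 : q' * q = q * q' := mul_comm _ _
    have c3 : q' * p = p * q' := mul_comm _ _
    have c4 : p' * q = q * p' := mul_comm _ _
    rw [c1, c2, c3, c4]
    abel
  rw [e1, h1, h2, neg_add_cancel, neg_add_cancel, smul_zero, smul_zero, zero_add, zero_add]
  by_cases hij : i = j
  · subst hij
    rw [if_pos rfl, hw.one i, add_comm (a' i * w' i), hw.one i, add_smul]
  · rw [if_neg hij, zero_smul, hw.wa i j hij, hw.wa j i (Ne.symm hij), neg_add_cancel,
      add_neg_cancel, smul_zero, smul_zero, add_zero]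

private theorem bmX_anti (hw : IsFermi w' a') (α β α' β' : I → ℤ) :
    bmX w' a' α β * bmX w' a' α' β' + bmX w' a' α' β' * bmX w' a' α β =
      (∑ i, (α i * β' i + β i * α' i)) • (1 : Matrix D D ℤ) := by
  unfold bmX
  rw [sum_mul_sum, sum_mul_sum, sum_comm (s := univ) (t := univ)
    (f := fun i j => (α' i • w' i + β' i • a' i) * (α j • w' j + β j • a' j)), ← sum_add_distrib,
    sum_smul]
  refine sum_congr rfl fun i _ => ?_
  rw [← sum_add_distrib, sum_eq_single i]
  · rw [bm_pair hw, if_pos rfl]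
  · intro j _ hj
    rw [bm_pair hw, if_neg (Ne.symm hj), zero_smul]
  · intro h
    exact absurd (mem_univ i) h

end lin

private theorem bm_eM (T : V → V → ℤ) (v : V) :
    eM w a T v = bmX w a (fun p => if p = (v, 0) then 1 else 0)
      (fun p => if p.2 = 0 then T v p.1 else 0) := by
  unfold eM bmX
  rw [sum_add_distrib]
  congr 1
  · simp [ite_smul]
  · rw [Fintype.sum_prod_type]
    refine sum_congr rfl fun u _ => ?_
    simp only [ite_smul, zero_smul]
    rw [sum_ite_eq' univ (0 : Fin 3), if_pos (mem_univ _)]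

private theorem bm_gM (v : V) :
    gM w a v = bmX w a (fun p => if p = (v, 1) then 1 else 0)
      (fun p => if p = (v, 1) then 1 else 0) := by
  unfold gM bmX
  rw [sum_add_distrib]
  simp [ite_smul]

private theorem bm_cM (v : V) :
    cM w a v = bmX w a (fun p => if p = (v, 2) then 1 else 0)
      (fun p => if p = (v, 2) then -1 else 0) := by
  unfold cM bmX
  rw [sum_add_distrib, sub_eq_add_neg]
  simp [ite_smul]

theorem eM_anti (hw : IsFermi w a) (T : V → V → ℤ) (u v : V) :
    eM w a T u * eM w a T v + eM w a T v * eM w a T u = (T v u + T u v) • 1 := by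
  rw [bm_eM, bm_eM, bmX_anti hw]
  congr 1
  rw [sum_add_distrib]
  have key : ∀ x y : V, ∑ p : V × Fin 3, (if p = (x, 0) then (1 : ℤ) else 0) *
      (if p.2 = 0 then T y p.1 else 0) = T y x := by
    intro x y
    rw [sum_eq_single (x, (0 : Fin 3))]
    · simp
    · intro p _ hp
      rw [if_neg hp, zero_mul]
    · intro h
      exact absurd (mem_univ _) h
  have e1 := key u v
  have e2 := key v u
  rw [e1]
  congr 1
  rw [← e2]
  exact sum_congr rfl fun p _ => mul_comm _ _

private theorem bm_eg (hw : IsFermi w a) (T : V → V → ℤ) (u v : V) :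
    eM w a T u * gM w a v + gM w a v * eM w a T u = 0 := by
  rw [bm_eM, bm_gM, bmX_anti hw, sum_eq_zero, zero_smul]
  rintro ⟨p, q⟩ _
  by_cases h1 : (p, q) = (v, (1 : Fin 3))
  · obtain ⟨rfl, rfl⟩ := Prod.mk.inj h1
    simp
  · simp [h1]

private theorem bm_ec (hw : IsFermi w a) (T : V → V → ℤ) (u v : V) :
    eM w a T u * cM w a v + cM w a v * eM w a T u = 0 := by
  rw [bm_eM, bm_cM, bmX_anti hw, sum_eq_zero, zero_smul]
  rintro ⟨p, q⟩ _
  by_cases h1 : (p, q) = (v, (2 : Fin 3))
  · obtain ⟨rfl, rfl⟩ := Prod.mk.inj h1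
    simp
  · simp [h1]

private theorem bm_gc (hw : IsFermi w a) (u v : V) :
    gM w a u * cM w a v + cM w a v * gM w a u = 0 := by
  rw [bm_gM, bm_cM, bmX_anti hw, sum_eq_zero, zero_smul]
  rintro ⟨p, q⟩ _
  by_cases h1 : (p, q) = (v, (2 : Fin 3))
  · obtain ⟨rfl, rfl⟩ := Prod.mk.inj h1
    simp
  · simp [h1]

private theorem bm_gg (hw : IsFermi w a) (u v : V) (huv : u ≠ v) :
    gM w a u * gM w a v + gM w a v * gM w a u = 0 := by
  rw [bm_gM, bm_gM, bmX_anti hw, sum_eq_zero, zero_smul]
  rintro ⟨p, q⟩ _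
  by_cases h1 : (p, q) = (v, (1 : Fin 3))
  · obtain ⟨rfl, rfl⟩ := Prod.mk.inj h1
    simp [huv.symm]
  · simp [h1]

private theorem bm_cc (hw : IsFermi w a) (u v : V) (huv : u ≠ v) :
    cM w a u * cM w a v + cM w a v * cM w a u = 0 := by
  rw [bm_cM, bm_cM, bmX_anti hw, sum_eq_zero, zero_smul]
  rintro ⟨p, q⟩ _
  by_cases h1 : (p, q) = (v, (2 : Fin 3))
  · obtain ⟨rfl, rfl⟩ := Prod.mk.inj h1
    simp [huv.symm]
  · simp [h1]

private theorem bm_half {M : Matrix D D ℤ} (h : M + M = 0) : M = 0 := by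
  ext i j
  have h1 := congrFun (congrFun h i) j
  rw [Matrix.add_apply, Matrix.zero_apply] at h1
  rw [Matrix.zero_apply]
  omega

private theorem bm_e_sq (hw : IsFermi w a) (hT : IsT G T) (v : V) :
    eM w a T v * eM w a T v = 0 := by
  apply bm_half
  rw [eM_anti hw, hT.zero v v (Or.inl rfl)]
  simp

private theorem bm_g_sq (hw : IsFermi w a) (v : V) : gM w a v * gM w a v = 1 := by
  unfold gM
  rw [add_mul, mul_add, mul_add, hw.w_sq, hw.a_sq, zero_add, add_zero, hw.one]

private theorem bm_c_sq (hw : IsFermi w a) (v : V) : cM w a v * cM w a v = -1 := by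
  unfold cM
  rw [sub_mul, mul_sub, mul_sub, hw.w_sq, hw.a_sq, ← hw.one (v, 2)]
  abel

private theorem bm_e_anti (hw : IsFermi w a) (hT : IsT G T) {u v : V} (huv : G.Adj u v) :
    eM w a T u * eM w a T v + eM w a T v * eM w a T u = 0 := by
  rw [eM_anti hw, hT.zero v u (Or.inr huv.symm), hT.zero u v (Or.inr huv)]
  simp

private theorem bm_x_c (hw : IsFermi w a) (T : V → V → ℤ) (N : ℤ) (u v : V) :
    cM w a v * (N • eM w a T u + gM w a u) = -((N • eM w a T u + gM w a u) * cM w a v) := by
  have h1 := bm_ec hw T u v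
  have h2 := bm_gc hw u v
  rw [eq_neg_iff_add_eq_zero]
  calc cM w a v * (N • eM w a T u + gM w a u) + (N • eM w a T u + gM w a u) * cM w a v
      = N • (eM w a T u * cM w a v + cM w a v * eM w a T u) +
        (gM w a u * cM w a v + cM w a v * gM w a u) := by
        simp only [mul_add, add_mul, mul_smul_comm, smul_mul_assoc, smul_add]
        abel
    _ = 0 := by rw [h1, h2, smul_zero, add_zero]

private theorem bm_x_sq (hw : IsFermi w a) (hT : IsT G T) (N : ℤ) (v : V) :
    (N • eM w a T v + gM w a v) * (N • eM w a T v + gM w a v) = 1 := by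
  calc (N • eM w a T v + gM w a v) * (N • eM w a T v + gM w a v)
      = (N * N) • (eM w a T v * eM w a T v) +
        N • (eM w a T v * gM w a v + gM w a v * eM w a T v) + gM w a v * gM w a v := by
        simp only [mul_add, add_mul, mul_smul_comm, smul_mul_assoc, smul_add, smul_smul]
        abel
    _ = 1 := by rw [bm_e_sq hw hT, bm_eg hw, bm_g_sq hw, smul_zero, smul_zero, zero_add, zero_add]

private theorem bm_x_anti (hw : IsFermi w a) (hT : IsT G T) (N : ℤ) {u v : V}
    (huv : G.Adj u v) :
    (N • eM w a T v + gM w a v) * (N • eM w a T u + gM w a u) =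
      -((N • eM w a T u + gM w a u) * (N • eM w a T v + gM w a v)) := by
  rw [eq_neg_iff_add_eq_zero]
  calc (N • eM w a T v + gM w a v) * (N • eM w a T u + gM w a u) +
        (N • eM w a T u + gM w a u) * (N • eM w a T v + gM w a v)
      = (N * N) • (eM w a T u * eM w a T v + eM w a T v * eM w a T u) +
        N • (eM w a T v * gM w a u + gM w a u * eM w a T v) +
        N • (eM w a T u * gM w a v + gM w a v * eM w a T u) +
        (gM w a u * gM w a v + gM w a v * gM w a u) := by
        simp only [mul_add, add_mul, mul_smul_comm, smul_mul_assoc, smul_add, smul_smul]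
        abel
    _ = 0 := by
        rw [bm_e_anti hw hT huv, bm_eg hw, bm_eg hw, bm_gg hw u v huv.ne]
        simp

theorem bM_sq (hw : IsFermi w a) (hT : IsT G T) (N : ℤ) (v : V) :
    bM w a T N v * bM w a T N v = 1 := by
  unfold bM
  have h1 := bm_x_c hw T N v v
  have h2 := bm_x_sq hw hT N v
  have h3 := bm_c_sq hw v
  calc (N • eM w a T v + gM w a v) * cM w a v * ((N • eM w a T v + gM w a v) * cM w a v)
      = (N • eM w a T v + gM w a v) * (cM w a v * (N • eM w a T v + gM w a v)) * cM w a v := by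
        simp only [mul_assoc]
    _ = -(((N • eM w a T v + gM w a v) * (N • eM w a T v + gM w a v)) *
        (cM w a v * cM w a v)) := by
        rw [h1]
        simp only [mul_neg, neg_mul, mul_assoc]
    _ = 1 := by rw [h2, h3, one_mul, neg_neg]

theorem bM_comm (hw : IsFermi w a) (hT : IsT G T) (N : ℤ) (u v : V) (huv : G.Adj u v) :
    bM w a T N u * bM w a T N v = bM w a T N v * bM w a T N u := by
  unfold bM
  have h1 := bm_x_c hw T N v u
  have h2 := bm_x_c hw T N u v
  have h3 := bm_x_anti hw hT N huv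
  have h4 : cM w a v * cM w a u = -(cM w a u * cM w a v) := by
    rw [eq_neg_iff_add_eq_zero, add_comm]
    exact bm_cc hw u v huv.ne
  have e1 : ∀ X Y P Q : Matrix D D ℤ, X * P * (Y * Q) = X * (P * Y) * Q := fun X Y P Q => by
    simp only [mul_assoc]
  rw [e1, e1, h1, h2]
  have e2 : ∀ X Y P Q : Matrix D D ℤ, X * -(Y * P) * Q = -((X * Y) * (P * Q)) :=
    fun X Y P Q => by simp only [mul_neg, neg_mul, mul_assoc]
  rw [e2, e2, h3, h4, neg_mul_neg]

private theorem opM_mul (M N : Matrix D D ℤ) (x : D → ℝ) :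
    opM (M * N) x = opM M (opM N x) := by
  unfold opM
  have h1 : (M * N).map (Int.cast : ℤ → ℝ) = M.map (Int.cast : ℤ → ℝ) * N.map (Int.cast : ℤ → ℝ) :=
    Matrix.map_mul (f := Int.castRingHom ℝ)
  rw [h1, Matrix.toLin'_mul]
  rfl

private theorem opM_add (M N : Matrix D D ℤ) : opM (M + N) = opM M + opM N := by
  unfold opM
  rw [Matrix.map_add _ (fun a b => Int.cast_add a b), map_add]

private theorem opM_smul (N : ℤ) (M : Matrix D D ℤ) (x : D → ℝ) :
    opM (N • M) x = (N : ℝ) • opM M x := by
  unfold opM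
  have h1 : (N • M).map (Int.cast : ℤ → ℝ) = (N : ℝ) • M.map (Int.cast : ℤ → ℝ) := by
    ext i j
    show (((N • M i j : ℤ)) : ℝ) = (N : ℝ) * ((M i j : ℤ) : ℝ)
    rw [smul_eq_mul, Int.cast_mul]
  rw [h1, map_smul]
  rfl

private theorem opM_one (x : D → ℝ) : opM (1 : Matrix D D ℤ) x = x := by
  unfold opM
  rw [Matrix.map_one _ Int.cast_zero Int.cast_one, Matrix.toLin'_one]
  rfl

private theorem opM_zero (x : D → ℝ) : opM (0 : Matrix D D ℤ) x = 0 := by
  unfold opM
  rw [Matrix.map_zero _ Int.cast_zero, map_zero]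
  rfl

/-- anticommuting matrices give anticommuting operators -/
private theorem opM_of_anti {M N : Matrix D D ℤ} (h : M * N + N * M = 0) (x : D → ℝ) :
    opM M (opM N x) = -opM N (opM M x) := by
  rw [← opM_mul, ← opM_mul, eq_neg_iff_add_eq_zero, ← LinearMap.add_apply, ← opM_add, h,
    opM_zero]

theorem opM_anti (hw : IsFermi w a) (hT : IsT G T) (u v : V) (x : D → ℝ) :
    opM (eM w a T u) (opM (eM w a T v) x) + opM (eM w a T v) (opM (eM w a T u) x) =
      (2 * (T u v : ℝ)) • x := by
  rw [← opM_mul, ← opM_mul, ← LinearMap.add_apply, ← opM_add, eM_anti hw, opM_smul, opM_one,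
    hT.symm v u]
  congr 1
  push_cast
  ring

private theorem bm_ea (hw : IsFermi w a) (T : V → V → ℤ) (u v : V) :
    eM w a T u * a (v, 0) + a (v, 0) * eM w a T u = if u = v then 1 else 0 := by
  have h1 : a (v, 0) = bmX w a (fun _ => 0) (fun p => if p = (v, 0) then 1 else 0) := by
    unfold bmX
    rw [sum_add_distrib]
    simp [ite_smul]
  rw [h1, bm_eM, bmX_anti hw, sum_eq_single (v, (0 : Fin 3))]
  · by_cases h : u = v
    · subst h
      simp
    · have h' : ¬ v = u := fun h' => h h'.symm
      simp [h, h']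
  · intro p _ hp
    simp [hp]
  · intro h
    exact absurd (mem_univ _) h

theorem isPert_M (hw : IsFermi w a) (hT : IsT G T) :
    IsPert G (fun v => opM (eM w a T v)) (fun v => opM (gM w a v))
      (fun v => opM (cM w a v)) where
  e_sq v x := by rw [← opM_mul, bm_e_sq hw hT, opM_zero]
  ee u v huv x := opM_of_anti (bm_e_anti hw hT huv) x
  g_sq v x := by rw [← opM_mul, bm_g_sq hw, opM_one]
  c_sq v x := by
    have h1 : (-1 : Matrix D D ℤ) = (-1 : ℤ) • (1 : Matrix D D ℤ) := by simp
    rw [← opM_mul, bm_c_sq hw, h1, opM_smul, opM_one]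
    simp
  gg u v huv x := opM_of_anti (bm_gg hw u v huv) x
  cc u v huv x := opM_of_anti (bm_cc hw u v huv) x
  eg u v x := opM_of_anti (bm_eg hw T u v) x
  ec u v x := opM_of_anti (bm_ec hw T u v) x
  gc u v x := opM_of_anti (bm_gc hw u v) x
  lift := by
    intro σ v hvσ _ x hx
    refine ⟨opM (a (v, 0)) x, fun u hu => ?_, ?_⟩
    · have huv : u ≠ v := fun h => hvσ (h ▸ hu)
      have h1 := bm_ea hw T u v
      rw [if_neg huv] at h1
      rw [opM_of_anti h1, hx u (mem_insert_of_mem hu), map_zero, neg_zero]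
    · have h1 := bm_ea hw T v v
      rw [if_pos rfl] at h1
      have h2 := congrArg (fun M => opM M x) h1
      simp only [opM_add, LinearMap.add_apply, opM_mul, opM_one] at h2
      rw [hx v (mem_insert_self v σ), map_zero, add_zero] at h2
      exact h2

theorem at_bM (w a : V × Fin 3 → Matrix D D ℤ) (T : V → V → ℤ) (N : ℤ) (v : V) (x : D → ℝ) :
    At (fun v => opM (eM w a T v)) (fun v => opM (gM w a v)) (fun v => opM (cM w a v)) (N : ℝ) v x =
      (mc ℝ (bM w a T N) v).mulVec x := by
  have h1 : (mc ℝ (bM w a T N) v).mulVec x = opM (bM w a T N v) x := by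
    unfold opM mc
    rw [Matrix.toLin'_apply]
  rw [h1]
  unfold bM At
  rw [opM_mul, opM_add, LinearMap.add_apply, opM_smul]
  rfl

end Pool.Agent.H19.Cub
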