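import Pool.Agent.H19.Cub.Defs

/-!
# Project MC: the completion of the involutions of a cube complex

`C.cs v x = C.nb v x` if `v ∈ C.lab x` and `x` otherwise. These are involutions, and commute for adjacent
`u`, `v`: if `u, v ∈ lab x` this is `nb_comm`; if `v ∈ lab x`, `u ∉ lab x` then `u ∉ lab (nb v x)` (otherwise
`u ∈ lab (nb v (nb v x)) = lab x` by `lab_adj`, `lab_nb`, `nb_nb`), so both sides are `nb v x`.
-/

set_option autoImplicit false

open Finset

namespace Pool.Agent.H19.Cub

namespace CubeComplex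

variable {V X : Type} [DecidableEq V]

/-- the completed involutions -/
def cs (C : CubeComplex V X) (v : V) (x : X) : X := if v ∈ C.lab x then C.nb v x else x

theorem cs_of_mem (C : CubeComplex V X) {v : V} {x : X} (h : v ∈ C.lab x) :
    C.cs v x = C.nb v x := if_pos h

theorem cs_of_not_mem (C : CubeComplex V X) {v : V} {x : X} (h : v ∉ C.lab x) :
    C.cs v x = x := if_neg h

theorem isSpec (C : CubeComplex V X) : IsSpec C.graph C.lab C.cs := by
  have h1 : ∀ u v x, C.graph.Adj u v → v ∈ C.lab x → (u ∈ C.lab (C.nb v x) ↔ u ∈ C.lab x) := by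
    intro u v x huv hv
    refine ⟨fun hu => ?_, fun hu => C.lab_adj u v x huv hu hv⟩
    have h2 := C.lab_adj u v (C.nb v x) huv hu (C.lab_nb v x hv)
    rwa [C.nb_nb v x hv] at h2
  refine ⟨fun v x => ?_, fun u v huv x => ?_, fun v x hv => ?_, fun u v x huv hu hv => ?_⟩
  · by_cases hv : v ∈ C.lab x
    · rw [C.cs_of_mem hv, C.cs_of_mem (C.lab_nb v x hv), C.nb_nb v x hv]
    · rw [C.cs_of_not_mem hv, C.cs_of_not_mem hv]
  · by_cases hv : v ∈ C.lab x
    · by_cases hu : u ∈ C.lab x
      · rw [C.cs_of_mem hv, C.cs_of_mem hu, C.cs_of_mem ((h1 u v x huv hv).2 hu),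
          C.cs_of_mem ((h1 v u x huv.symm hu).2 hv), C.nb_comm u v x huv hu hv]
      · rw [C.cs_of_mem hv, C.cs_of_not_mem hu, C.cs_of_mem hv,
          C.cs_of_not_mem (fun h => hu ((h1 u v x huv hv).1 h))]
    · by_cases hu : u ∈ C.lab x
      · rw [C.cs_of_not_mem hv, C.cs_of_mem hu,
          C.cs_of_not_mem (fun h => hv ((h1 v u x huv.symm hu).1 h))]
      · rw [C.cs_of_not_mem hv, C.cs_of_not_mem hu, C.cs_of_not_mem hv]
  · rw [C.cs_of_mem hv]
    exact C.lab_nb v x hv
  · rw [C.cs_of_mem hv]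
    exact C.lab_adj u v x huv hu hv

/-- the two notions of `ℓ²`-chains -/
theorem isL2_iff (C : CubeComplex V X) (i : ℕ) (f : Finset V → X → ℂ) :
    IsL2Chain C i f ↔ IsL2S C.graph C.lab C.cs i f := by
  constructor
  · intro h
    refine ⟨h.supp, fun σ v hv x => ?_, h.l2⟩
    by_cases hx : σ ⊆ C.lab x
    · rw [C.cs_of_mem (hx hv)]
      exact h.anti σ x hx v hv
    · have h0 : f σ x = 0 := by
        by_contra hne
        exact hx (h.supp σ x hne).1
      have h1 : f σ (C.cs v x) = 0 := by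
        by_contra hne
        obtain ⟨h2, h3, h4⟩ := h.supp σ _ hne
        apply hx
        have hcl : Pool.Agent.H85.Fold.Cl C.graph σ := fun a ha b hb hab =>
          h3 (Finset.mem_coe.2 ha) (Finset.mem_coe.2 hb) hab
        exact (C.isSpec.sub_iff hcl hv).1 h2
      rw [h0, h1, neg_zero]
  · intro h
    refine ⟨h.supp, fun σ x hx v hv => ?_, h.l2⟩
    have h1 := h.anti σ v hv x
    rwa [C.cs_of_mem (hx hv)] at h1

end CubeComplex

end Pool.Agent.H19.Cub
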