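import Pool.Agent.H19.Cub.Compl
import Pool.Agent.H4.Singer.L2Hodge
import Pool.Agent.H4.Singer.Levels

/-!
# Project MC: the universal cover embeds into `X × W`

`W = RGrp C.graph` is the right-angled Coxeter group. For a path `l` from `x` let `wd l` be the product of the
`gen G v`, `v ∈ l`. The map `emb` sends the class of `l` to `(C.fin x l, wd l)`; it is well defined
(`fin_step`; `gen v * gen v = 1`, `gen u * gen v = gen v * gen u` for adjacent `u`, `v`: `l2h_gen_sq`,
`l2h_gen_comm`).

* `emb_cs`: for `v ∈ lab (proj c)`, `emb (nb v c) = prS C.cs gen v (emb c)` (the path is extended by `v`).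
* `emb_injective`: the completed involutions of the cover are involutions and commute for adjacent
  labels (`(C.cover x).isSpec`), so by `exists_lift` there is a homomorphism `Φ` from `W` to the
  permutations of `C.Cover x` with `Φ (gen v) c = (C.cover x).cs v c`. By induction
  on paths (append one edge at the end) the class of `l` is `Φ ((wd l)⁻¹) [x]`, `[x]` the class of the empty
  path: `(wd (l ++ [v]))⁻¹ = gen v * (wd l)⁻¹`. So `wd l` determines the class.
-/

set_option autoImplicit false

open Finset

namespace Pool.Agent.H19.Cub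

open Pool.Agent.H4.Singer

namespace CubeComplex

variable {V X : Type} [DecidableEq V] [Fintype V]

/-- the element of the Coxeter group of a path -/
noncomputable def wd (G : SimpleGraph V) (l : List V) : RGrp G := (l.map (gen G)).prod

theorem wd_step {G : SimpleGraph V} {l l' : List V} (h : Step G l l') : wd G l = wd G l' := by
  cases h with
  | back a b v =>
    simp only [wd, List.map_append, List.map_cons, List.prod_append, List.prod_cons]
    rw [← mul_assoc (gen G v), l2h_gen_sq, one_mul]
  | square a b u v h =>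
    simp only [wd, List.map_append, List.map_cons, List.prod_append, List.prod_cons]
    rw [← mul_assoc (gen G u), l2h_gen_comm G u v h, mul_assoc (gen G v)]

/-- the embedding -/
noncomputable def emb (C : CubeComplex V X) (x : X) : C.Cover x → X × RGrp C.graph :=
  Quot.lift (fun l => (C.fin x l.1, wd C.graph l.1)) fun l l' h =>
    Prod.ext (C.fin_step x h l.2 l'.2) (wd_step h)

theorem emb_fst (C : CubeComplex V X) (x : X) (c : C.Cover x) : (C.emb x c).1 = C.proj x c := by
  induction c using Quot.ind with
  | mk l => rfl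

omit [Fintype V] in
theorem fin_snoc (C : CubeComplex V X) (x : X) (l : List V) (v : V) :
    C.fin x (l ++ [v]) = C.nb v (C.fin x l) := by
  rw [fin_append]
  rfl

omit [DecidableEq V] [Fintype V] in
theorem wd_snoc (G : SimpleGraph V) (l : List V) (v : V) :
    wd G (l ++ [v]) = wd G l * gen G v := by
  simp only [wd, List.map_append, List.map_cons, List.map_nil, List.prod_append, List.prod_cons,
    List.prod_nil, mul_one]

omit [Fintype V] in
theorem cover_cs_mk (C : CubeComplex V X) (x : X) (v : V) (l : {l : List V // C.IsPath x l})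
    (h : v ∈ C.lab (C.fin x l.1)) :
    (C.cover x).cs v (Quot.mk _ l) =
      Quot.mk _ ⟨l.1 ++ [v], (C.isPath_append x l.1 [v]).2 ⟨l.2, h, trivial⟩⟩ := by
  have h' : v ∈ (C.cover x).lab (Quot.mk _ l) := h
  rw [(C.cover x).cs_of_mem h']
  exact C.nbc_mk x v l h

theorem emb_cs (C : CubeComplex V X) (x : X) (v : V) (c : C.Cover x)
    (h : v ∈ (C.cover x).lab c) :
    C.emb x ((C.cover x).cs v c) = prS C.cs (gen C.graph) v (C.emb x c) := by
  induction c using Quot.ind with
  | mk l =>
    have h' : v ∈ C.lab (C.fin x l.1) := h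
    rw [C.cover_cs_mk x v l h']
    show (C.fin x (l.1 ++ [v]), wd C.graph (l.1 ++ [v])) =
      (C.cs v (C.fin x l.1), wd C.graph l.1 * gen C.graph v)
    rw [C.fin_snoc, wd_snoc, C.cs_of_mem h']

theorem emb_injective (C : CubeComplex V X) (x : X) : Function.Injective (C.emb x) := by
  have hs := (C.cover x).isSpec
  let f : V → Equiv.Perm (C.Cover x) := fun v =>
    ⟨(C.cover x).cs v, (C.cover x).cs v, hs.inv v, hs.inv v⟩
  obtain ⟨Φ, hΦ⟩ := exists_lift C.graph f
    (fun v => Equiv.ext fun c => hs.inv v c)
    (fun u v huv => Equiv.ext fun c => hs.comm u v huv c)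
  have h0 : C.IsPath x [] := trivial
  obtain ⟨b0, hb0⟩ : ∃ b0 : C.Cover x, b0 = Quot.mk _ ⟨[], h0⟩ := ⟨_, rfl⟩
  have key : ∀ (l : List V) (hl : C.IsPath x l) (c : C.Cover x), c = Quot.mk _ ⟨l, hl⟩ →
      c = Φ ((wd C.graph l)⁻¹) b0 := by
    intro l
    induction l using List.reverseRecOn with
    | nil =>
      intro hl c hc
      have h1 : wd C.graph [] = 1 := rfl
      rw [h1, inv_one, map_one, hc, hb0]
      rfl
    | append_singleton l v ih =>
      intro hl c hc
      obtain ⟨hl1, hl2, -⟩ := (C.isPath_append x l [v]).1 hl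
      obtain ⟨c', hc'⟩ : ∃ c' : C.Cover x, c' = Quot.mk _ ⟨l, hl1⟩ := ⟨_, rfl⟩
      have h1 : (C.cover x).cs v c' = c := by
        rw [hc, hc']
        exact C.cover_cs_mk x v ⟨l, hl1⟩ hl2
      have h2 : (gen C.graph v)⁻¹ = gen C.graph v :=
        inv_eq_of_mul_eq_one_left (l2h_gen_sq C.graph v)
      have h3 : Φ ((wd C.graph (l ++ [v]))⁻¹) b0 = f v (Φ ((wd C.graph l)⁻¹) b0) := by
        rw [wd_snoc, mul_inv_rev, map_mul, h2, hΦ]
        rfl
      rw [h3, ← ih hl1 c' hc']
      exact h1.symm
  intro c c' hcc
  induction c using Quot.ind with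
  | mk l =>
    induction c' using Quot.ind with
    | mk l' =>
      have h1 : wd C.graph l.1 = wd C.graph l'.1 := congrArg Prod.snd hcc
      have h2 := key l.1 l.2 _ rfl
      have h3 := key l'.1 l'.2 _ rfl
      rw [← h1] at h3
      exact h2.trans h3.symm

end CubeComplex

end Pool.Agent.H19.Cub
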