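import Pool.Agent.H19.Cub.Seg
import Pool.Agent.H85.Fold3.SubSphere
import Pool.Agent.H78.Cactus.SuspG

/-!
# Project MC: noncrossing diagonals form a homology sphere

The complex of the diagonals of the polygon with `N + 1` vertices is obtained from the suspension of the
complex of the polygon with `N` vertices by `N - 3` edge subdivisions.
-/

set_option autoImplicit false
set_option linter.unusedSimpArgs false

open Finset

namespace Pool.Agent.H19.Cub

open Pool.Agent.H85.Fold Pool.Agent.H85.Fold3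

/-- isomorphic graphs -/
theorem sphere_iso {V W : Type} [DecidableEq V] [Fintype V] [DecidableEq W] [Fintype W]
    {G : SimpleGraph V} {H : SimpleGraph W} (φ : G ≃g H) {n : ℕ} (h : IsHomologySphere H n) :
    IsHomologySphere G n :=
  Pool.Agent.H78.Cactus.iso_sphere φ h

/-- edge subdivisions inside a fixed type -/
theorem sphere_subdiv {V : Type} [DecidableEq V] {G G' : SimpleGraph V} {U : Finset V} {x u w : V}
    (hx : x ∉ U) (hu : u ∈ U) (hw : w ∈ U) (huw : G.Adj u w)
    (h1 : ∀ a ∈ U, ∀ b ∈ U, G'.Adj a b ↔ G.Adj a b ∧ ¬ (a = u ∧ b = w) ∧ ¬ (a = w ∧ b = u))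
    (h2 : ∀ b ∈ U, G'.Adj x b ↔ b = u ∨ b = w ∨ (G.Adj u b ∧ G.Adj w b)) {n : ℕ}
    (h : IsHomologySphere (G.comap (Subtype.val : {p // p ∈ U} → V)) n) :
    IsHomologySphere (G'.comap (Subtype.val : {p // p ∈ insert x U} → V)) n := by
  have h3 := subdiv_sphere h (u := ⟨u, hu⟩) (w := ⟨w, hw⟩) huw
  refine sphere_iso ?_ h3
  refine ⟨Finset.subtypeInsertEquivOption hx, ?_⟩
  rintro ⟨a, ha⟩ ⟨b, hb⟩
  have hval : ∀ (y : V) (hy : y ∈ insert x U), (y = x ∧
      Finset.subtypeInsertEquivOption hx ⟨y, hy⟩ = none) ∨ ∃ hyU : y ∈ U,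
      Finset.subtypeInsertEquivOption hx ⟨y, hy⟩ = some ⟨y, hyU⟩ := by
    intro y hy
    by_cases hyx : y = x
    · left
      refine ⟨hyx, ?_⟩
      unfold Finset.subtypeInsertEquivOption
      simp [hyx]
    · right
      refine ⟨(mem_insert.1 hy).resolve_left hyx, ?_⟩
      unfold Finset.subtypeInsertEquivOption
      simp [hyx]
  rcases hval a ha with ⟨rfl, ea⟩ | ⟨haU, ea⟩
  · rcases hval b hb with ⟨rfl, eb⟩ | ⟨hbU, eb⟩
    · rw [ea]
      constructor
      · exact fun hf => hf.elim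
      · exact fun hf => (G'.loopless.irrefl _ hf).elim
    · rw [ea, eb]
      change ((⟨b, hbU⟩ : {p // p ∈ U}) = ⟨u, hu⟩ ∨ (⟨b, hbU⟩ : {p // p ∈ U}) = ⟨w, hw⟩ ∨
        (G.Adj u b ∧ G.Adj w b)) ↔ G'.Adj a b
      rw [h2 b hbU, Subtype.mk.injEq, Subtype.mk.injEq]
  · rcases hval b hb with ⟨rfl, eb⟩ | ⟨hbU, eb⟩
    · rw [ea, eb]
      change ((⟨a, haU⟩ : {p // p ∈ U}) = ⟨u, hu⟩ ∨ (⟨a, haU⟩ : {p // p ∈ U}) = ⟨w, hw⟩ ∨
        (G.Adj u a ∧ G.Adj w a)) ↔ G'.Adj a b
      rw [G'.adj_comm, h2 a haU, Subtype.mk.injEq, Subtype.mk.injEq]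
    · rw [ea, eb]
      change (G.Adj a b ∧ ¬ ((⟨a, haU⟩ : {p // p ∈ U}) = ⟨u, hu⟩ ∧
        (⟨b, hbU⟩ : {p // p ∈ U}) = ⟨w, hw⟩) ∧ ¬ ((⟨a, haU⟩ : {p // p ∈ U}) = ⟨w, hw⟩ ∧
        (⟨b, hbU⟩ : {p // p ∈ U}) = ⟨u, hu⟩)) ↔ G'.Adj a b
      rw [h1 a haU b hbU, Subtype.mk.injEq, Subtype.mk.injEq, Subtype.mk.injEq, Subtype.mk.injEq]

namespace DgAux

theorem mem_dg {N : ℕ} {q : ℕ × ℕ} :
    q ∈ dg N ↔ q.2 < N ∧ q.1 + 2 ≤ q.2 ∧ ¬ (q.1 = 0 ∧ q.2 + 1 = N) := by
  unfold dg
  rw [mem_filter, mem_product, mem_range, mem_range]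
  constructor
  · rintro ⟨⟨h1, h2⟩, h3, h4⟩
    exact ⟨h2, h3, h4⟩
  · rintro ⟨h2, h3, h4⟩
    exact ⟨⟨by omega, h2⟩, h3, h4⟩

/-- additional edges from `(0, N - 1)` to the `(k, N)` with `1 ≤ k ≤ j` -/
def Ex (N j : ℕ) (p q : ℕ × ℕ) : Prop :=
  p = (0, N - 1) ∧ q.2 = N ∧ 1 ≤ q.1 ∧ q.1 ≤ j

/-- the graphs between the suspension and the complex of the larger polygon -/
def Gj (N j : ℕ) : SimpleGraph (ℕ × ℕ) where
  Adj p q := p ≠ q ∧ (Ncr p q ∨ Ex N j p q ∨ Ex N j q p)
  symm := ⟨fun p q h => ⟨h.1.symm, by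
    rcases h.2 with h1 | h1 | h1
    · exact Or.inl ⟨h1.2, h1.1⟩
    · exact Or.inr (Or.inr h1)
    · exact Or.inr (Or.inl h1)⟩⟩
  loopless := ⟨fun _ h => h.1 rfl⟩

/-- the vertices of this graph -/
def Uj (N j : ℕ) : Finset (ℕ × ℕ) :=
  (dg (N + 1)).filter fun q => ¬ (q.2 + 1 = N ∧ 1 ≤ q.1 ∧ q.1 ≤ j)

theorem mem_Uj {N j : ℕ} {q : ℕ × ℕ} : q ∈ Uj N j ↔ (q.2 < N + 1 ∧ q.1 + 2 ≤ q.2 ∧
    ¬ (q.1 = 0 ∧ q.2 = N)) ∧ ¬ (q.2 + 1 = N ∧ 1 ≤ q.1 ∧ q.1 ≤ j) := by
  unfold Uj
  rw [mem_filter, mem_dg]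
  constructor
  · rintro ⟨⟨h1, h2, h3⟩, h4⟩
    exact ⟨⟨h1, h2, by omega⟩, h4⟩
  · rintro ⟨⟨h1, h2, h3⟩, h4⟩
    exact ⟨⟨h1, h2, by omega⟩, h4⟩

theorem Ex_succ {N j : ℕ} {p q : ℕ × ℕ} :
    Ex N (j + 1) p q ↔ Ex N j p q ∨ (p = (0, N - 1) ∧ q = (j + 1, N)) := by
  obtain ⟨c, d⟩ := q
  unfold Ex
  rw [Prod.mk.injEq c d (j + 1) N]
  simp only
  constructor
  · rintro ⟨h1, h2, h3, h4⟩
    by_cases h5 : c = j + 1
    · exact Or.inr ⟨h1, h5, h2⟩
    · exact Or.inl ⟨h1, h2, h3, by omega⟩
  · rintro (⟨h1, h2, h3, h4⟩ | ⟨h1, h2, h3⟩)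
    · exact ⟨h1, h2, h3, by omega⟩
    · exact ⟨h1, h3, by omega, by omega⟩

theorem not_adj {N j : ℕ} (hj : j + 1 + 3 ≤ N) : ¬ (Gj N j).Adj (0, N - 1) (j + 1, N) := by
  rintro ⟨-, h1 | h1 | h1⟩
  · unfold Ncr at h1
    simp only at h1
    omega
  · unfold Ex at h1
    simp only at h1
    omega
  · unfold Ex at h1
    simp only at h1
    omega

/-- the subdivision step -/
theorem step {N j : ℕ} (hj : j + 1 + 3 ≤ N) {n : ℕ}
    (h : IsHomologySphere ((Gj N (j + 1)).comap (Subtype.val : {p // p ∈ Uj N (j + 1)} → ℕ × ℕ)) n) :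
    IsHomologySphere ((Gj N j).comap (Subtype.val : {p // p ∈ Uj N j} → ℕ × ℕ)) n := by
  have hU : Uj N j = insert (j + 1, N - 1) (Uj N (j + 1)) := by
    ext ⟨a, b⟩
    rw [mem_insert, mem_Uj, mem_Uj, Prod.mk.injEq]
    simp only
    omega
  rw [hU]
  refine sphere_subdiv (u := (j + 1, N)) (w := (0, N - 1)) (G := Gj N (j + 1)) ?_ ?_ ?_ ?_ ?_ ?_ h
  · rw [mem_Uj]
    simp only
    omega
  · rw [mem_Uj]
    simp only
    omega
  · rw [mem_Uj]
    simp only
    omega
  · refine ⟨?_, Or.inr (Or.inr ⟨rfl, rfl, ?_, ?_⟩)⟩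
    · rw [ne_eq, Prod.mk.injEq]
      omega
    · simp only
      omega
    · simp only
      omega
  · intro p _ q _
    constructor
    · intro hpq
      refine ⟨⟨hpq.1, ?_⟩, ?_, ?_⟩
      · rw [Ex_succ, Ex_succ]
        have := hpq.2
        tauto
      · rintro ⟨rfl, rfl⟩
        exact not_adj hj hpq.symm
      · rintro ⟨rfl, rfl⟩
        exact not_adj hj hpq
    · rintro ⟨⟨h1, h2⟩, h3, h4⟩
      rw [Ex_succ, Ex_succ] at h2
      refine ⟨h1, ?_⟩
      tauto
  · rintro ⟨c, d⟩ hc
    rw [mem_Uj] at hc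
    simp only [Gj, Ncr, Ex, Prod.mk.injEq, ne_eq, and_true, true_and] at hc ⊢
    omega

/-- the renaming of the diagonals of the smaller polygon -/
def ren (N : ℕ) (q : ℕ × ℕ) : ℕ × ℕ := if q.2 + 1 = N then (q.1, N) else q

/-- the suspension -/
theorem base {N : ℕ} (hN : 3 ≤ N)
    (h : IsHomologySphere (dgG.comap (Subtype.val : {p // p ∈ dg N} → ℕ × ℕ)) (N - 3)) :
    IsHomologySphere ((Gj N (N - 3)).comap (Subtype.val : {p // p ∈ Uj N (N - 3)} → ℕ × ℕ))
      (N - 3 + 1) := by
  have h1 := Pool.Agent.H78.Cactus.susp_sphere h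
  -- the bijection
  have hren : ∀ q ∈ dg N, ren N q ∈ Uj N (N - 3) := by
    rintro ⟨a, b⟩ hq
    rw [mem_dg] at hq
    unfold ren
    simp only at hq ⊢
    split_ifs with h2
    · rw [mem_Uj]
      simp only
      omega
    · rw [mem_Uj]
      simp only
      omega
  have hP : ((0, N - 1) : ℕ × ℕ) ∈ Uj N (N - 3) := by
    rw [mem_Uj]
    simp only
    omega
  have hQ : ((N - 2, N) : ℕ × ℕ) ∈ Uj N (N - 3) := by
    rw [mem_Uj]
    simp only
    omega
  set f : {p // p ∈ dg N} ⊕ Bool → {p // p ∈ Uj N (N - 3)} := fun x => match x with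
    | .inl q => ⟨ren N q.1, hren q.1 q.2⟩
    | .inr true => ⟨(0, N - 1), hP⟩
    | .inr false => ⟨(N - 2, N), hQ⟩ with hf
  have f1 : ∀ q : {p // p ∈ dg N}, (f (.inl q)).1 = ren N q.1 := fun _ => rfl
  have f2 : (f (.inr true)).1 = (0, N - 1) := rfl
  have f3 : (f (.inr false)).1 = (N - 2, N) := rfl
  have hbij : Function.Bijective f := by
    constructor
    · rintro (⟨⟨a, b⟩, hq⟩ | x) (⟨⟨c, d⟩, hq'⟩ | y) hxy
      · have h2 := congrArg Subtype.val hxy
        rw [f1, f1] at h2
        rw [mem_dg] at hq hq'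
        unfold ren at h2
        simp only at h2 hq hq'
        congr 1
        apply Subtype.ext
        rw [Prod.mk.injEq]
        split_ifs at h2 with h3 h4 h4
        · rw [Prod.mk.injEq] at h2
          omega
        · rw [Prod.mk.injEq] at h2
          omega
        · rw [Prod.mk.injEq] at h2
          omega
        · rw [Prod.mk.injEq] at h2
          omega
      · exfalso
        have h2 := congrArg Subtype.val hxy
        rw [f1] at h2
        rw [mem_dg] at hq
        unfold ren at h2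
        rcases y with _ | _
        · rw [f3] at h2
          simp only at h2 hq
          split_ifs at h2 with h3
          · rw [Prod.mk.injEq] at h2
            omega
          · rw [Prod.mk.injEq] at h2
            omega
        · rw [f2] at h2
          simp only at h2 hq
          split_ifs at h2 with h3
          · rw [Prod.mk.injEq] at h2
            omega
          · rw [Prod.mk.injEq] at h2
            omega
      · exfalso
        have h2 := congrArg Subtype.val hxy
        rw [f1] at h2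
        rw [mem_dg] at hq'
        unfold ren at h2
        rcases x with _ | _
        · rw [f3] at h2
          simp only at h2 hq'
          split_ifs at h2 with h3
          · rw [Prod.mk.injEq] at h2
            omega
          · rw [Prod.mk.injEq] at h2
            omega
        · rw [f2] at h2
          simp only at h2 hq'
          split_ifs at h2 with h3
          · rw [Prod.mk.injEq] at h2
            omega
          · rw [Prod.mk.injEq] at h2
            omega
      · have h2 := congrArg Subtype.val hxy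
        rcases x with _ | _ <;> rcases y with _ | _
        · rfl
        · rw [f2, f3, Prod.mk.injEq] at h2
          omega
        · rw [f2, f3, Prod.mk.injEq] at h2
          omega
        · rfl
    · rintro ⟨⟨a, b⟩, hq⟩
      have hq' := hq
      rw [mem_Uj] at hq'
      simp only at hq'
      by_cases h2 : b = N
      · by_cases h3 : a = N - 2
        · refine ⟨.inr false, ?_⟩
          apply Subtype.ext
          change (N - 2, N) = (a, b)
          rw [Prod.mk.injEq]
          omega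
        · refine ⟨.inl ⟨(a, N - 1), ?_⟩, ?_⟩
          · rw [mem_dg]
            simp only
            omega
          · apply Subtype.ext
            rw [f1]
            unfold ren
            rw [if_pos (by simp only; omega)]
            change (a, N) = (a, b)
            rw [h2]
      · by_cases h3 : b = N - 1
        · refine ⟨.inr true, ?_⟩
          apply Subtype.ext
          change (0, N - 1) = (a, b)
          rw [Prod.mk.injEq]
          omega
        · refine ⟨.inl ⟨(a, b), ?_⟩, ?_⟩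
          · rw [mem_dg]
            simp only
            omega
          · apply Subtype.ext
            rw [f1]
            unfold ren
            rw [if_neg (by simp only; omega)]
  set e := Equiv.ofBijective f hbij with he
  have hadj : ∀ x y : {p // p ∈ dg N} ⊕ Bool, (Gj N (N - 3)).Adj (f x).1 (f y).1 ↔
      (Pool.Agent.H78.Cactus.suspG (dgG.comap (Subtype.val : {p // p ∈ dg N} → ℕ × ℕ))).Adj x y := by
    have hPQ : ∀ (q : {p // p ∈ dg N}) (c : Bool), (Gj N (N - 3)).Adj (f (.inr c)).1 (f (.inl q)).1 := by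
      rintro ⟨⟨a, b⟩, hq⟩ c
      rw [mem_dg] at hq
      rw [f1]
      simp only at hq
      rcases c with _ | _
      · rw [f3]
        unfold ren
        split_ifs with h2
        · simp only [Gj, Ncr, Ex, Prod.mk.injEq, ne_eq, and_true, true_and]
          omega
        · simp only [Gj, Ncr, Ex, Prod.mk.injEq, ne_eq, and_true, true_and]
          simp only at h2
          omega
      · rw [f2]
        unfold ren
        split_ifs with h2
        · simp only [Gj, Ncr, Ex, Prod.mk.injEq, ne_eq, and_true, true_and]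
          simp only at h2
          omega
        · simp only [Gj, Ncr, Ex, Prod.mk.injEq, ne_eq, and_true, true_and]
          simp only at h2
          omega
    rintro (⟨⟨a, b⟩, hq⟩ | x) (⟨⟨c, d⟩, hq'⟩ | y)
    · rw [f1, f1]
      change (Gj N (N - 3)).Adj (ren N (a, b)) (ren N (c, d)) ↔ ((a, b) ≠ (c, d) ∧ Ncr (a, b) (c, d))
      rw [mem_dg] at hq hq'
      simp only at hq hq'
      unfold ren
      simp only
      split_ifs with h2 h3 h3
      · simp only [Gj, Ncr, Ex, Prod.mk.injEq, ne_eq, and_true, true_and]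
        omega
      · simp only [Gj, Ncr, Ex, Prod.mk.injEq, ne_eq, and_true, true_and]
        omega
      · simp only [Gj, Ncr, Ex, Prod.mk.injEq, ne_eq, and_true, true_and]
        omega
      · simp only [Gj, Ncr, Ex, Prod.mk.injEq, ne_eq, and_true, true_and]
        omega
    · exact ⟨fun _ => trivial, fun _ => (hPQ _ y).symm⟩
    · exact ⟨fun _ => trivial, fun _ => hPQ _ x⟩
    · refine ⟨fun h2 => ?_, fun h2 => h2.elim⟩
      exfalso
      rcases x with _ | _ <;> rcases y with _ | _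
      · exact h2.1 rfl
      · rw [f2, f3] at h2
        simp only [Gj, Ncr, Ex, Prod.mk.injEq, ne_eq, and_true, true_and] at h2
        omega
      · rw [f2, f3] at h2
        simp only [Gj, Ncr, Ex, Prod.mk.injEq, ne_eq, and_true, true_and] at h2
        omega
      · exact h2.1 rfl
  refine sphere_iso ?_ h1
  refine ⟨e.symm, ?_⟩
  intro x y
  have hx : (f (e.symm x)) = x := e.apply_symm_apply x
  have hy : (f (e.symm y)) = y := e.apply_symm_apply y
  rw [← hadj, hx, hy]
  exact Iff.rfl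

/-- the empty complex -/
theorem empty_sphere {W : Type} [DecidableEq W] [Fintype W] [IsEmpty W] (H : SimpleGraph W) :
    IsHomologySphere H 0 := by
  have hem : ∀ σ : Finset W, σ = ∅ := fun σ => Finset.eq_empty_of_isEmpty σ
  refine ⟨fun σ _ => ?_, fun ν _ ρ _ j hj => ?_, fun ν _ ρ _ j hj => ?_⟩
  · rw [hem σ]
    simp
  · exact absurd hj (Nat.not_lt_zero _)
  · refine ⟨fun _ => 1, fun σ _ => ⟨?_, ?_, ?_⟩, ?_, ?_, ?_⟩
    · rw [hem σ]
      exact Finset.disjoint_empty_left _
    · intro u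
      exact isEmptyElim u
    · rw [hem σ, card_empty]
      omega
    · funext τ
      change ∑ v ∈ τᶜ, _ = (0 : ℝ)
      refine Finset.sum_eq_zero fun v => ?_
      exact isEmptyElim v
    · intro h0
      have := congrFun h0 ∅
      simp at this
    · intro z _ _
      refine ⟨z ∅, ?_⟩
      funext σ
      rw [hem σ]
      simp

end DgAux

open DgAux

/-- **Noncrossing diagonals form a homology sphere** (the boundary of the dual associahedron). -/
theorem dg_sphere (N : ℕ) (hN : 3 ≤ N) :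
    IsHomologySphere (dgG.comap (Subtype.val : {p // p ∈ dg N} → ℕ × ℕ)) (N - 3) := by
  induction N, hN using Nat.le_induction with
  | base =>
    have : IsEmpty {p // p ∈ dg 3} := ⟨fun p => by
      have := mem_dg.1 p.2
      omega⟩
    exact empty_sphere _
  | succ N hN ih =>
    have h1 := base hN ih
    have h2 : ∀ k, k ≤ N - 3 → IsHomologySphere ((Gj N (N - 3 - k)).comap
        (Subtype.val : {p // p ∈ Uj N (N - 3 - k)} → ℕ × ℕ)) (N - 3 + 1) := by
      intro k hk
      induction k with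
      | zero => exact h1
      | succ k ihk =>
        have h3 := ihk (by omega)
        rw [show N - 3 - k = N - 3 - (k + 1) + 1 by omega] at h3
        exact step (by omega) h3
    have h4 := h2 (N - 3) le_rfl
    rw [Nat.sub_self] at h4
    rw [show N + 1 - 3 = N - 3 + 1 by omega]
    have hU : ∀ p, p ∈ Uj N 0 ↔ p ∈ dg (N + 1) := by
      rintro ⟨a, b⟩
      rw [mem_Uj, mem_dg]
      simp only
      omega
    refine sphere_iso ?_ h4
    refine ⟨Equiv.subtypeEquivRight fun p => (hU p).symm, ?_⟩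
    rintro ⟨⟨a, b⟩, ha⟩ ⟨⟨c, d⟩, hc⟩
    change (Gj N 0).Adj (a, b) (c, d) ↔ ((a, b) ≠ (c, d) ∧ Ncr (a, b) (c, d))
    simp only [Gj, Ncr, Ex, Prod.mk.injEq, ne_eq, and_true, true_and]
    omega

end Pool.Agent.H19.Cub
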