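import Pool.Agent.H85.Fold.ClMod

/-!
# Project MC: an invariant scalar product

Start with a scalar product on `S` (for instance from a basis). Lemma: let `dot` be symmetric and
positive definite, `κ : S →ₗ S` with `κ (κ x) = ε x`, `ε = ± 1`, and put
`dot' x y = dot x y + dot (κ x) (κ y)`. Then `dot'` is symmetric and positive definite,
`dot' (κ x) (κ y) = dot' x y`, and if `dot (δ x) (δ y) = dot x y` for an operator `δ` with `δ κ = - κ δ` then
`dot' (δ x) (δ y) = dot' x y`. So by induction on the number of operators in the list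
`γ 0, …, γ (m₁ - 1), η 0, …, η (m₂ - 1)` (it is convenient to treat all operators together: a function on
`Fin m₁ ⊕ Fin m₂`, induction on a finset of indices) there is a scalar product which is invariant under
all of them. Then `dot (γ x) y = dot (γ γ x) (γ y) = dot x (γ y)` and
`dot (η x) y = dot (η η x) (η y) = - dot x (η y)`.
-/

set_option autoImplicit false

open Finset

namespace Pool.Agent.H19.Cub

open Pool.Agent.H85.Fold


private theorem dot_base (S : Type) [AddCommGroup S] [Module ℝ S] [FiniteDimensional ℝ S] :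
    ∃ dot : S →ₗ[ℝ] S →ₗ[ℝ] ℝ, (∀ x y, dot x y = dot y x) ∧ ∀ x, x ≠ 0 → 0 < dot x x := by
  let b := Module.finBasis ℝ S
  refine ⟨∑ i, (b.coord i).smulRight (b.coord i), fun x y => ?_, fun x hx => ?_⟩
  · simp only [LinearMap.sum_apply, LinearMap.smulRight_apply, LinearMap.smul_apply, smul_eq_mul]
    exact sum_congr rfl fun i _ => mul_comm _ _
  · simp only [LinearMap.sum_apply, LinearMap.smulRight_apply, LinearMap.smul_apply, smul_eq_mul]
    have h1 : ∃ i, b.coord i x ≠ 0 := by
      by_contra h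
      push Not at h
      apply hx
      apply b.repr.injective
      ext i
      rw [map_zero]
      exact h i
    obtain ⟨i, hi⟩ := h1
    exact sum_pos' (fun j _ => mul_self_nonneg _) ⟨i, mem_univ i, mul_self_pos.2 hi⟩

private theorem dot_step {S ι : Type} [AddCommGroup S] [Module ℝ S] [FiniteDimensional ℝ S]
    [DecidableEq ι] (κ : ι → S →ₗ[ℝ] S) (ε : ι → ℝ) (hε : ∀ i, ε i * ε i = 1)
    (hsq : ∀ i x, κ i (κ i x) = ε i • x) (hanti : ∀ i j, i ≠ j → ∀ x, κ i (κ j x) = -κ j (κ i x))
    (s : Finset ι) : ∃ dot : S →ₗ[ℝ] S →ₗ[ℝ] ℝ, (∀ x y, dot x y = dot y x) ∧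
      (∀ x, x ≠ 0 → 0 < dot x x) ∧ ∀ i ∈ s, ∀ x y, dot (κ i x) (κ i y) = dot x y := by
  induction s using Finset.induction_on with
  | empty =>
    obtain ⟨dot, h1, h2⟩ := dot_base S
    exact ⟨dot, h1, h2, fun i hi => absurd hi (notMem_empty i)⟩
  | insert a s ha ih =>
    obtain ⟨dot, h1, h2, h3⟩ := ih
    have hap : ∀ x y, (dot + dot.compl₁₂ (κ a) (κ a)) x y = dot x y + dot (κ a x) (κ a y) :=
      fun x y => rfl
    refine ⟨dot + dot.compl₁₂ (κ a) (κ a), fun x y => ?_, fun x hx => ?_, fun i hi x y => ?_⟩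
    · rw [hap, hap, h1 x y, h1 (κ a x) (κ a y)]
    · rw [hap]
      have h4 : κ a x ≠ 0 := by
        intro h5
        have h6 := hsq a x
        rw [h5, map_zero] at h6
        have h7 : ε a ≠ 0 := fun h8 => by
          have := hε a
          rw [h8] at this
          norm_num at this
        rcases smul_eq_zero.1 h6.symm with h8 | h8
        · exact h7 h8
        · exact hx h8
      exact add_pos (h2 x hx) (h2 _ h4)
    · rw [hap, hap]
      rcases mem_insert.1 hi with rfl | hi
      · rw [hsq, hsq]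
        simp only [map_smul, LinearMap.smul_apply, smul_eq_mul]
        rw [← mul_assoc, hε, one_mul, add_comm]
      · have hia : a ≠ i := fun h => ha (h ▸ hi)
        rw [hanti a i hia, hanti a i hia]
        simp only [map_neg, LinearMap.neg_apply, neg_neg]
        rw [h3 i hi, h3 i hi]

theorem exists_dot {S : Type} [AddCommGroup S] [Module ℝ S] [FiniteDimensional ℝ S] {m₁ m₂ : ℕ}
    (γ : Fin m₁ → S →ₗ[ℝ] S) (η : Fin m₂ → S →ₗ[ℝ] S)
    (γ_sq : ∀ i x, γ i (γ i x) = x) (η_sq : ∀ i x, η i (η i x) = -x)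
    (γγ : ∀ i j, i ≠ j → ∀ x, γ i (γ j x) = -γ j (γ i x))
    (ηη : ∀ i j, i ≠ j → ∀ x, η i (η j x) = -η j (η i x))
    (γη : ∀ i j x, γ i (η j x) = -η j (γ i x)) :
    ∃ dot : S →ₗ[ℝ] S →ₗ[ℝ] ℝ, IsClMod dot γ η := by
  classical
  obtain ⟨dot, h1, h2, h3⟩ := dot_step (ι := Fin m₁ ⊕ Fin m₂) (Sum.elim γ η)
    (Sum.elim (fun _ => (1 : ℝ)) fun _ => -1)
    (by rintro (i | i) <;> norm_num)
    (by
      rintro (i | i) x
      · simp only [Sum.elim_inl, one_smul]
        exact γ_sq i x
      · simp only [Sum.elim_inr, neg_smul, one_smul]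
        exact η_sq i x)
    (by
      rintro (i | i) (j | j) hij x
      · exact γγ i j (fun h => hij (by rw [h])) x
      · exact γη i j x
      · show η i (γ j x) = -γ j (η i x)
        rw [γη, neg_neg]
      · exact ηη i j (fun h => hij (by rw [h])) x) univ
  refine ⟨dot, h1, h2, γ_sq, η_sq, γγ, ηη, γη, fun i x y => ?_, fun i x y => ?_⟩
  · have h4 : dot (γ i (γ i x)) (γ i y) = dot (γ i x) y := h3 (Sum.inl i) (mem_univ _) (γ i x) y
    rw [← h4, γ_sq]
  · have h4 : dot (η i (η i x)) (η i y) = dot (η i x) y := h3 (Sum.inr i) (mem_univ _) (η i x) y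
    rw [← h4, η_sq, map_neg, LinearMap.neg_apply]

end Pool.Agent.H19.Cub
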