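import Pool.Agent.H19.Cub.Seg
import Pool.Agent.H78.Cactus.SigMain

/-!
# Project MC: the matrix `T` and its signature on the diagonals of every polygon

The proof is in `Pool.Agent.H78.Cactus` (`exists_form`); here it is translated to lists.
-/

set_option autoImplicit false

open Finset

namespace Pool.Agent.H19.Cub

open Pool.Agent.H78.Cactus (IsForm Crosses Sym IsArc arc Good exists_form isForm_zero)

namespace ExTAux

theorem crosses_iff {N : ℕ} {S S' : Finset ℕ} :
    Crosses N S S' ↔ ((S ∩ S') ∩ range N).Nonempty ∧ ((S \ S') ∩ range N).Nonempty ∧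
      ((S' \ S) ∩ range N).Nonempty ∧ (range N \ (S ∪ S')).Nonempty := by
  constructor
  · intro h
    refine ⟨?_, ?_, ?_, ?_⟩
    · obtain ⟨i, hi, h1, h2⟩ := h true true
      exact ⟨i, mem_inter.2 ⟨mem_inter.2 ⟨of_decide_eq_true h1, of_decide_eq_true h2⟩,
        mem_range.2 hi⟩⟩
    · obtain ⟨i, hi, h1, h2⟩ := h true false
      exact ⟨i, mem_inter.2 ⟨mem_sdiff.2 ⟨of_decide_eq_true h1, of_decide_eq_false h2⟩,
        mem_range.2 hi⟩⟩
    · obtain ⟨i, hi, h1, h2⟩ := h false true
      exact ⟨i, mem_inter.2 ⟨mem_sdiff.2 ⟨of_decide_eq_true h2, of_decide_eq_false h1⟩,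
        mem_range.2 hi⟩⟩
    · obtain ⟨i, hi, h1, h2⟩ := h false false
      refine ⟨i, mem_sdiff.2 ⟨mem_range.2 hi, ?_⟩⟩
      rw [mem_union]
      rintro (h3 | h3)
      · exact of_decide_eq_false h1 h3
      · exact of_decide_eq_false h2 h3
  · rintro ⟨⟨i, hi⟩, ⟨j, hj⟩, ⟨k, hk⟩, ⟨m, hm⟩⟩ a b
    simp only [mem_inter, mem_sdiff, mem_range, mem_union, not_or] at hi hj hk hm
    rcases a with _ | _ <;> rcases b with _ | _
    · exact ⟨m, hm.1, decide_eq_false hm.2.1, decide_eq_false hm.2.2⟩
    · exact ⟨k, hk.2, decide_eq_false hk.1.2, decide_eq_true hk.1.1⟩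
    · exact ⟨j, hj.2, decide_eq_true hj.1.1, decide_eq_false hj.1.2⟩
    · exact ⟨i, hi.2, decide_eq_true hi.1.1, decide_eq_true hi.1.2⟩

section

variable {N : ℕ} {l : List ℕ}

theorem length_eq (hl : l.Nodup) (hN : l.toFinset = range N) : l.length = N := by
  have h1 := List.toFinset_card_of_nodup hl
  rw [hN, card_range] at h1
  exact h1.symm

/-- the positions -/
def pos (l : List ℕ) (i : ℕ) : ℕ := l.getD i 0

theorem pos_eq {i : ℕ} (hi : i < l.length) : pos l i = l[i] := by
  unfold pos
  rw [List.getD_eq_getElem _ _ hi]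

theorem isOrd_pos (hl : l.Nodup) (hN : l.toFinset = range N) :
    Pool.Agent.H78.Cactus.IsOrd N (pos l) := by
  have hlen := length_eq hl hN
  refine ⟨fun i hi => ?_, fun i j hi hj hij => ?_⟩
  · rw [pos_eq (by omega)]
    have h1 : l[i] ∈ l.toFinset := List.mem_toFinset.2 (List.getElem_mem _)
    rw [hN, mem_range] at h1
    exact h1
  · rw [pos_eq (by omega), pos_eq (by omega)] at hij
    exact (List.Nodup.getElem_inj_iff hl).1 hij

theorem mem_seg (hl : l.Nodup) (hN : l.toFinset = range N) {i j k : ℕ} (hk : k < N) :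
    pos l k ∈ seg l (i, j) ↔ i ≤ k ∧ k < j := by
  have hlen := length_eq hl hN
  unfold seg
  rw [List.mem_toFinset, pos_eq (by omega)]
  simp only
  constructor
  · intro h
    obtain ⟨m, hm, he⟩ := List.mem_iff_getElem.1 h
    rw [List.getElem_drop, List.getElem_take] at he
    have h1 := (List.Nodup.getElem_inj_iff hl).1 he
    rw [List.length_drop, List.length_take] at hm
    omega
  · rintro ⟨h1, h2⟩
    refine List.mem_iff_getElem.2 ⟨k - i, ?_, ?_⟩
    · rw [List.length_drop, List.length_take]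
      omega
    · rw [List.getElem_drop, List.getElem_take]
      congr 1
      omega

theorem seg_subset (hN : l.toFinset = range N) (q : ℕ × ℕ) : seg l q ⊆ range N := by
  intro x hx
  unfold seg at hx
  rw [List.mem_toFinset] at hx
  have h1 := List.mem_of_mem_take (List.mem_of_mem_drop hx)
  rw [← hN, List.mem_toFinset]
  exact h1

theorem card_seg (hl : l.Nodup) (hN : l.toFinset = range N) {i j : ℕ} (hj : j ≤ N) :
    (seg l (i, j)).card = j - i := by
  have hlen := length_eq hl hN
  unfold seg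
  rw [List.toFinset_card_of_nodup ((hl.sublist (List.take_sublist _ _)).sublist
    (List.drop_sublist _ _)), List.length_drop, List.length_take]
  simp only
  omega

theorem mem_dg {q : ℕ × ℕ} : q ∈ dg N ↔ q.2 < N ∧ q.1 + 2 ≤ q.2 ∧ ¬ (q.1 = 0 ∧ q.2 + 1 = N) := by
  unfold dg
  rw [mem_filter, mem_product, mem_range, mem_range]
  constructor
  · rintro ⟨⟨h1, h2⟩, h3, h4⟩
    exact ⟨h2, h3, h4⟩
  · rintro ⟨h2, h3, h4⟩
    exact ⟨⟨by omega, h2⟩, h3, h4⟩

theorem isArc_seg (hl : l.Nodup) (hN : l.toFinset = range N) {q : ℕ × ℕ} (hq : q ∈ dg N) :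
    IsArc N (pos l) (seg l q) := by
  obtain ⟨i, j⟩ := q
  have ho := isOrd_pos hl hN
  rw [mem_dg] at hq
  simp only at hq
  by_cases hi : i = 0
  · subst hi
    refine ⟨j - 1, N - 1, by omega, by omega, Or.inr ?_⟩
    refine ho.ext (seg_subset hN _) sdiff_subset fun k hk => ?_
    rw [mem_seg hl hN hk, mem_sdiff, mem_range, ho.mem_arc (by omega) hk]
    simp only [ho.lt k hk, true_and]
    omega
  · refine ⟨i - 1, j - 1, by omega, by omega, Or.inl ?_⟩
    refine ho.ext (seg_subset hN _) (ho.arc_subset (by omega)) fun k hk => ?_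
    rw [mem_seg hl hN hk, ho.mem_arc (by omega) hk]
    omega

/-- the last point is in no segment -/
theorem last_notMem (hl : l.Nodup) (hN : l.toFinset = range N) {q : ℕ × ℕ} (hq : q ∈ dg N) :
    pos l (N - 1) ∉ seg l q := by
  obtain ⟨i, j⟩ := q
  rw [mem_dg] at hq
  simp only at hq
  rw [mem_seg hl hN (by omega)]
  omega

theorem seg_inj (hl : l.Nodup) (hN : l.toFinset = range N) {q q' : ℕ × ℕ} (hq : q ∈ dg N)
    (hq' : q' ∈ dg N) (h : seg l q = seg l q') : q = q' := by
  obtain ⟨i, j⟩ := q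
  obtain ⟨i', j'⟩ := q'
  rw [mem_dg] at hq hq'
  simp only at hq hq'
  have h1 : ∀ k < N, (i ≤ k ∧ k < j) ↔ (i' ≤ k ∧ k < j') := by
    intro k hk
    rw [← mem_seg hl hN hk, ← mem_seg hl hN hk, h]
  have k1 := h1 i (by omega)
  have k2 := h1 i' (by omega)
  have k3 := h1 (j - 1) (by omega)
  have k4 := h1 (j' - 1) (by omega)
  rw [Prod.mk.injEq]
  omega

/-- the function of a diagonal -/
noncomputable def e (N : ℕ) (l : List ℕ) (q : ℕ × ℕ) : Finset ℕ → ℝ :=
  Pi.single (seg l q) 1 + Pi.single (range N \ seg l q) 1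

theorem e_apply (q : ℕ × ℕ) (S : Finset ℕ) :
    e N l q S = (if S = seg l q then 1 else 0) + (if S = range N \ seg l q then 1 else 0) := by
  unfold e
  rw [Pi.add_apply, Pi.single_apply, Pi.single_apply]

/-- the symmetric function of a function on the diagonals -/
noncomputable def vf (N : ℕ) (l : List ℕ) (f : ℕ × ℕ → ℝ) : Finset ℕ → ℝ :=
  ∑ q ∈ dg N, f q • e N l q

theorem vf_apply (f : ℕ × ℕ → ℝ) (S : Finset ℕ) :
    vf N l f S = ∑ q ∈ dg N, f q *
      ((if S = seg l q then 1 else 0) + (if S = range N \ seg l q then 1 else 0)) := by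
  unfold vf
  rw [Finset.sum_apply]
  refine Finset.sum_congr rfl fun q _ => ?_
  rw [Pi.smul_apply, smul_eq_mul, e_apply]

theorem sum_vf (hN : l.toFinset = range N) (f : ℕ × ℕ → ℝ) (g : Finset ℕ → ℝ)
    (hg : ∀ S, S ⊆ range N → g (range N \ S) = g S) :
    ∑ S ∈ (range N).powerset, vf N l f S * g S = 2 * ∑ q ∈ dg N, f q * g (seg l q) := by
  have h1 : ∀ S ∈ (range N).powerset, vf N l f S * g S = ∑ q ∈ dg N, f q *
      ((if S = seg l q then g (seg l q) else 0) +
        (if S = range N \ seg l q then g (seg l q) else 0)) := by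
    intro S _
    rw [vf_apply, Finset.sum_mul]
    refine Finset.sum_congr rfl fun q _ => ?_
    by_cases h2 : S = seg l q
    · by_cases h3 : S = range N \ seg l q
      · rw [if_pos h2, if_pos h3, if_pos h2, if_pos h3, ← h2]
        ring
      · rw [if_pos h2, if_neg h3, if_pos h2, if_neg h3, ← h2]
        ring
    · by_cases h3 : S = range N \ seg l q
      · rw [if_neg h2, if_pos h3, if_neg h2, if_pos h3, h3, hg _ (seg_subset hN q)]
        ring
      · rw [if_neg h2, if_neg h3, if_neg h2, if_neg h3]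
        ring
  rw [Finset.sum_congr rfl h1, Finset.sum_comm, Finset.mul_sum]
  refine Finset.sum_congr rfl fun q _ => ?_
  rw [← Finset.mul_sum, Finset.sum_add_distrib, Finset.sum_ite_eq', Finset.sum_ite_eq',
    if_pos (mem_powerset.2 (seg_subset hN q)), if_pos (mem_powerset.2 sdiff_subset)]
  ring

theorem sym_vf (hl : l.Nodup) (hN : l.toFinset = range N) (f : ℕ × ℕ → ℝ) :
    Sym N (pos l) (vf N l f) := by
  have ho := isOrd_pos hl hN
  refine ⟨fun S hS => ?_, fun S hS => ?_⟩
  · rw [vf_apply] at hS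
    obtain ⟨q, hq, hne⟩ := Finset.exists_ne_zero_of_sum_ne_zero hS
    have hq2 := mem_dg.1 hq
    have hc := card_seg hl hN (i := q.1) (j := q.2) (by omega)
    by_cases h2 : S = seg l q
    · rw [h2]
      refine ⟨isArc_seg hl hN hq, ?_⟩
      rw [show q = (q.1, q.2) from rfl, hc]
      omega
    · by_cases h3 : S = range N \ seg l q
      · rw [h3]
        refine ⟨(isArc_seg hl hN hq).compl ho, ?_⟩
        rw [card_sdiff_of_subset (seg_subset hN q), card_range, show q = (q.1, q.2) from rfl, hc]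
        omega
      · rw [if_neg h2, if_neg h3] at hne
        simp at hne
  · rw [vf_apply, vf_apply]
    refine Finset.sum_congr rfl fun q _ => ?_
    have h1 : range N \ S = seg l q ↔ S = range N \ seg l q := by
      constructor
      · intro h
        rw [← h, Finset.sdiff_sdiff_eq_self hS]
      · intro h
        rw [h, Finset.sdiff_sdiff_eq_self (seg_subset hN q)]
    have h2 : range N \ S = range N \ seg l q ↔ S = seg l q := by
      constructor
      · intro h
        rw [← Finset.sdiff_sdiff_eq_self hS, h, Finset.sdiff_sdiff_eq_self (seg_subset hN q)]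
      · intro h
        rw [h]
    rw [if_congr h1 rfl rfl, if_congr h2 rfl rfl, add_comm]

theorem vf_seg (hl : l.Nodup) (hN : l.toFinset = range N) (f : ℕ × ℕ → ℝ) {q : ℕ × ℕ}
    (hq : q ∈ dg N) : vf N l f (seg l q) = f q := by
  rw [vf_apply, Finset.sum_eq_single q]
  · have h1 : ¬ seg l q = range N \ seg l q := by
      intro h
      have h2 := last_notMem hl hN hq
      have h3 : pos l (N - 1) ∈ range N \ seg l q := by
        rw [mem_sdiff, mem_range]
        have := mem_dg.1 hq
        exact ⟨(isOrd_pos hl hN).lt _ (by omega), h2⟩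
      rw [← h] at h3
      exact h2 h3
    rw [if_pos rfl, if_neg h1]
    ring
  · intro q' hq' hne
    have h1 : ¬ seg l q = seg l q' := fun h => hne (seg_inj hl hN hq' hq h.symm)
    have h2 : ¬ seg l q = range N \ seg l q' := by
      intro h
      have h2 := last_notMem hl hN hq
      have h3 : pos l (N - 1) ∈ range N \ seg l q' := by
        rw [mem_sdiff, mem_range]
        have := mem_dg.1 hq
        exact ⟨(isOrd_pos hl hN).lt _ (by omega), last_notMem hl hN hq'⟩
      rw [← h] at h3
      exact h2 h3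
    rw [if_neg h1, if_neg h2]
    ring
  · exact fun h => absurd hq h

/-- from functions on sets to functions on diagonals -/
theorem negOn_of_good {T : Finset ℕ → Finset ℕ → ℤ} (hT : IsForm N T) (hl : l.Nodup)
    (hN : l.toFinset = range N) (h : Good N (N - 3) T (pos l)) : NegOn N T l := by
  obtain ⟨φ, hφ⟩ := h
  refine ⟨fun k q => φ (e N l q) k, fun f hf hf0 hk => ?_⟩
  have h1 : φ (vf N l f) = 0 := by
    funext k
    unfold vf
    rw [map_sum, Finset.sum_apply]
    rw [Pi.zero_apply, ← hk k]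
    refine Finset.sum_congr rfl fun q _ => ?_
    rw [map_smul, Pi.smul_apply, smul_eq_mul, mul_comm]
  have h2 : vf N l f ≠ 0 := by
    intro h3
    apply hf0
    funext q
    by_cases hq : q ∈ dg N
    · rw [← vf_seg hl hN f hq, h3]
      rfl
    · by_contra h4
      exact hq (hf q h4)
  have h3 := hφ _ (sym_vf hl hN f) h1 h2
  have h4 : Pool.Agent.H78.Cactus.Q N T (vf N l f) = 4 * ∑ p ∈ dg N, ∑ q ∈ dg N,
      f p * f q * (T (seg l p) (seg l q) : ℝ) := by
    have h5 : Pool.Agent.H78.Cactus.Q N T (vf N l f) = ∑ S ∈ (range N).powerset, vf N l f S *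
        ∑ S' ∈ (range N).powerset, vf N l f S' * (T S S' : ℝ) := by
      unfold Pool.Agent.H78.Cactus.Q
      refine Finset.sum_congr rfl fun S _ => ?_
      rw [Finset.mul_sum]
      refine Finset.sum_congr rfl fun S' _ => ?_
      ring
    rw [h5, sum_vf hN]
    · have h6 : ∀ q ∈ dg N, ∑ S' ∈ (range N).powerset, vf N l f S' * (T (seg l q) S' : ℝ) =
          2 * ∑ q' ∈ dg N, f q' * (T (seg l q) (seg l q') : ℝ) := by
        intro q _
        refine sum_vf hN f (fun S' => (T (seg l q) S' : ℝ)) fun S hS => ?_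
        show (T (seg l q) (range N \ S) : ℝ) = (T (seg l q) S : ℝ)
        rw [hT.symm, hT.compl S _ hS, hT.symm]
      rw [Finset.sum_congr rfl fun q hq => by rw [h6 q hq], Finset.mul_sum, Finset.mul_sum]
      refine Finset.sum_congr rfl fun q _ => ?_
      rw [Finset.mul_sum, Finset.mul_sum, Finset.mul_sum, Finset.mul_sum]
      refine Finset.sum_congr rfl fun q' _ => ?_
      ring
    · intro S hS
      refine Finset.sum_congr rfl fun S' _ => ?_
      rw [hT.compl S S' hS]
  rw [h4] at h3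
  linarith

end

end ExTAux

open ExTAux

theorem exists_T (N : ℕ) : ∃ T : Finset ℕ → Finset ℕ → ℤ,
    (∀ S S', T S S' = T S' S) ∧
    (∀ S S', ((S ∩ S') ∩ range N = ∅ ∨ (S \ S') ∩ range N = ∅ ∨ (S' \ S) ∩ range N = ∅ ∨
      range N \ (S ∪ S') = ∅) → T S S' = 0) ∧
    (∀ S S', ((S ∩ S') ∩ range N).Nonempty → ((S \ S') ∩ range N).Nonempty →
      ((S' \ S) ∩ range N).Nonempty → (range N \ (S ∪ S')).Nonempty → T S S' < 0) ∧
    ∀ l : List ℕ, l.Nodup → l.toFinset = range N → NegOn N T l := by
  have key : ∃ T : Finset ℕ → Finset ℕ → ℤ, IsForm N T ∧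
      ∀ l : List ℕ, l.Nodup → l.toFinset = range N → NegOn N T l := by
    by_cases hN : 3 ≤ N
    · obtain ⟨n, rfl⟩ : ∃ n, N = n + 3 := ⟨N - 3, by omega⟩
      obtain ⟨T, hT, hg⟩ := exists_form n
      exact ⟨T, hT, fun l hl hlN => negOn_of_good hT hl hlN (hg _ (isOrd_pos hl hlN))⟩
    · refine ⟨fun _ _ => 0, isForm_zero (by omega), fun l _ _ => ⟨0, fun f hf hf0 _ => ?_⟩⟩
      exfalso
      apply hf0
      funext q
      by_contra h4
      have h5 := mem_dg.1 (hf q h4)
      omega
  obtain ⟨T, hT, hg⟩ := key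
  refine ⟨T, hT.symm, fun S S' h => hT.zero S S' ?_, fun S S' h1 h2 h3 h4 => hT.neg S S' ?_, hg⟩
  · rw [crosses_iff]
    rintro ⟨h1, h2, h3, h4⟩
    rcases h with h | h | h | h
    · exact h1.ne_empty h
    · exact h2.ne_empty h
    · exact h3.ne_empty h
    · exact h4.ne_empty h
  · exact crosses_iff.2 ⟨h1, h2, h3, h4⟩

end Pool.Agent.H19.Cub
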