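import Mathlib

/-!
# Project MC: fermionic integer matrices (from project FC of helper4)

`exists_fermi`: take `D = I → Bool` (finite subsets of `I`), an injective numbering `μ : I → ℕ`, and
`w i` the matrix which adds `i` to a set not containing `i`, with the sign `(-1)` to the number of
`j` in the set with `μ j < μ i` (Jordan-Wigner), and `a i` its transpose. The proof of `exists_cliff` in
`Pool.Agent.H85.Fold.Cliff` handles the matrices `a i + w i`, `a i - w i` by the same method
(`cliffFlip`, `cliffP`) and may be adapted. (Alternatively: induction on the number of elements of `I` with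
`D' = D × Bool` and Kronecker products.)
-/

set_option autoImplicit false

namespace Pool.Agent.H19.Cub

/-- fermionic matrices: all anticommutators vanish except `w i * a i + a i * w i = 1`, all squares
vanish, and `a i` is the transpose of `w i` -/
structure IsFermi {I D : Type} [Fintype D] [DecidableEq D] (w a : I → Matrix D D ℤ) : Prop where
  w_sq : ∀ i, w i * w i = 0
  a_sq : ∀ i, a i * a i = 0
  ww : ∀ i j, w i * w j = -(w j * w i)
  aa : ∀ i j, a i * a j = -(a j * a i)
  wa : ∀ i j, i ≠ j → w i * a j = -(a j * w i)
  one : ∀ i, w i * a i + a i * w i = 1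
  tr : ∀ i, (w i).transpose = a i

section fermi

variable {J : Type} [Fintype J] [DecidableEq J]

/-- flipping one coordinate -/
private def fermFlip (i : J) (A : J → Bool) : J → Bool := Function.update A i (!A i)

/-- the sign of the coordinates before `j` -/
private def fermP (mu : J → ℕ) (j : J) (A : J → Bool) : ℤ :=
  ∏ l, (if mu l < mu j ∧ A l = true then -1 else 1)

/-- the coefficients -/
private def fermK (mu : J → ℕ) (e : Bool) (j : J) (A : J → Bool) : ℤ :=
  if A j = e then fermP mu j A else 0

private theorem fermFlip_flip (i : J) (A : J → Bool) : fermFlip i (fermFlip i A) = A := by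
  funext l
  unfold fermFlip
  by_cases h : l = i
  · subst h
    simp
  · simp [Function.update_of_ne h]

private theorem fermFlip_comm {i j : J} (h : i ≠ j) (A : J → Bool) :
    fermFlip i (fermFlip j A) = fermFlip j (fermFlip i A) := by
  funext l
  unfold fermFlip
  by_cases h1 : l = i
  · subst h1
    simp [Function.update_of_ne h]
  · by_cases h2 : l = j
    · subst h2
      simp [Function.update_of_ne h1]
    · simp [Function.update_of_ne h1, Function.update_of_ne h2]

private theorem fermFlip_inj (i : J) (A B : J → Bool) :
    B = fermFlip i A ↔ A = fermFlip i B := by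
  constructor
  · rintro rfl
    exact (fermFlip_flip i A).symm
  · rintro rfl
    exact (fermFlip_flip i B).symm

private theorem fermP_sq (mu : J → ℕ) (j : J) (A : J → Bool) :
    fermP mu j A * fermP mu j A = 1 := by
  unfold fermP
  rw [← Finset.prod_mul_distrib]
  refine Finset.prod_eq_one fun l _ => ?_
  split_ifs <;> norm_num

private theorem fermP_flip (mu : J → ℕ) (j i : J) (A : J → Bool) :
    fermP mu j (fermFlip i A) = (if mu i < mu j then -1 else 1) * fermP mu j A := by
  unfold fermP
  rw [← Finset.mul_prod_erase Finset.univ _ (Finset.mem_univ i),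
    ← Finset.mul_prod_erase Finset.univ (fun l => if mu l < mu j ∧ A l = true then (-1 : ℤ) else 1)
      (Finset.mem_univ i), ← mul_assoc]
  congr 1
  · have h1 : fermFlip i A i = !A i := by simp [fermFlip]
    rw [h1]
    by_cases h : mu i < mu j
    · cases hA : A i <;> simp [h]
    · simp [h]
  · refine Finset.prod_congr rfl fun l hl => ?_
    have h1 : fermFlip i A l = A l := by
      unfold fermFlip
      rw [Function.update_of_ne (Finset.ne_of_mem_erase hl)]
    rw [h1]

private theorem fermK_self (mu : J → ℕ) (e : Bool) (j : J) (A : J → Bool) :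
    fermK mu e j (fermFlip j A) = fermK mu (!e) j A := by
  unfold fermK
  rw [fermP_flip, if_neg (lt_irrefl _), one_mul]
  have h1 : fermFlip j A j = !A j := by simp [fermFlip]
  rw [h1]
  cases e <;> cases hA : A j <;> simp

private theorem fermK_ne (mu : J → ℕ) (e : Bool) {i j : J} (hij : i ≠ j) (A : J → Bool) :
    fermK mu e j (fermFlip i A) = (if mu i < mu j then -1 else 1) * fermK mu e j A := by
  unfold fermK
  rw [fermP_flip]
  have h1 : fermFlip i A j = A j := by
    unfold fermFlip
    rw [Function.update_of_ne hij.symm]
  rw [h1]
  by_cases h : A j = e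
  · rw [if_pos h, if_pos h]
  · rw [if_neg h, if_neg h, mul_zero]

/-- the matrices -/
private def fermC (mu : J → ℕ) (e : Bool) (j : J) : Matrix (J → Bool) (J → Bool) ℤ :=
  fun A B => if B = fermFlip j A then fermK mu e j A else 0

private theorem fermC_mul (mu : J → ℕ) (e e' : Bool) (i j : J) (A C : J → Bool) :
    (fermC mu e i * fermC mu e' j) A C =
      if C = fermFlip j (fermFlip i A) then
        fermK mu e i A * fermK mu e' j (fermFlip i A) else 0 := by
  rw [Matrix.mul_apply, Finset.sum_eq_single (fermFlip i A)]
  · unfold fermC
    rw [if_pos rfl]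
    split_ifs <;> simp
  · intro B _ hB
    unfold fermC
    rw [if_neg hB, zero_mul]
  · intro h
    exact absurd (Finset.mem_univ _) h

private theorem fermC_sq (mu : J → ℕ) (e : Bool) (i : J) : fermC mu e i * fermC mu e i = 0 := by
  ext A C
  rw [fermC_mul, fermK_self, Matrix.zero_apply]
  have h : fermK mu e i A * fermK mu (!e) i A = 0 := by
    unfold fermK
    cases e <;> cases hA : A i <;> simp
  rw [h, ite_self]

private theorem fermC_anti {mu : J → ℕ} (hmu : Function.Injective mu) (e e' : Bool) {i j : J}
    (hij : i ≠ j) : fermC mu e i * fermC mu e' j = -(fermC mu e' j * fermC mu e i) := by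
  ext A C
  rw [Matrix.neg_apply, fermC_mul, fermC_mul, fermFlip_comm hij.symm]
  by_cases hC : C = fermFlip i (fermFlip j A)
  · rw [if_pos hC, if_pos hC, fermK_ne mu e' hij, fermK_ne mu e hij.symm]
    have hne : mu i ≠ mu j := fun h => hij (hmu h)
    rcases lt_or_gt_of_ne hne with h | h
    · rw [if_pos h, if_neg (not_lt.2 h.le)]
      ring
    · rw [if_neg (not_lt.2 h.le), if_pos h]
      ring
  · rw [if_neg hC, if_neg hC, neg_zero]

private theorem fermC_one (mu : J → ℕ) (i : J) :
    fermC mu true i * fermC mu false i + fermC mu false i * fermC mu true i = 1 := by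
  ext A C
  rw [Matrix.add_apply, fermC_mul, fermC_mul, fermFlip_flip, fermK_self, fermK_self]
  by_cases hC : C = A
  · subst hC
    rw [if_pos rfl, if_pos rfl, Matrix.one_apply_eq]
    have h := fermP_sq mu i C
    unfold fermK
    cases hA : C i <;> simp [h]
  · rw [if_neg hC, if_neg hC, Matrix.one_apply_ne (Ne.symm hC), add_zero]

private theorem fermC_tr (mu : J → ℕ) (i : J) :
    (fermC mu true i).transpose = fermC mu false i := by
  ext A C
  rw [Matrix.transpose_apply]
  unfold fermC
  by_cases h : A = fermFlip i C
  · rw [if_pos h, if_pos ((fermFlip_inj i C A).1 h)]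
    rw [h, fermK_self]
    rfl
  · rw [if_neg h, if_neg (fun h' => h ((fermFlip_inj i C A).2 h'))]

end fermi

theorem exists_fermi (I : Type) [Finite I] :
    ∃ (D : Type) (_ : Fintype D) (_ : DecidableEq D) (_ : Nonempty D)
      (w a : I → Matrix D D ℤ), IsFermi w a := by
  classical
  have := Fintype.ofFinite I
  obtain ⟨mu, hmu⟩ : ∃ mu : I → ℕ, Function.Injective mu :=
    ⟨fun j => (Fintype.equivFin I j : ℕ), fun a b h =>
      (Fintype.equivFin I).injective (Fin.ext h)⟩
  refine ⟨I → Bool, inferInstance, inferInstance, ⟨fun _ => false⟩, fermC mu true,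
    fermC mu false, ?_⟩
  exact {
    w_sq := fermC_sq mu true
    a_sq := fermC_sq mu false
    ww := by
      intro i j
      by_cases h : i = j
      · subst h
        rw [fermC_sq, neg_zero]
      · exact fermC_anti hmu _ _ h
    aa := by
      intro i j
      by_cases h : i = j
      · subst h
        rw [fermC_sq, neg_zero]
      · exact fermC_anti hmu _ _ h
    wa := fun i j h => fermC_anti hmu _ _ h
    one := fermC_one mu
    tr := fermC_tr mu }

end Pool.Agent.H19.Cub
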