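import Mathlib

/-!
# Project MC: an orthonormal frame for a nondegenerate form

Sylvester's law of inertia: a nondegenerate real quadratic form has an orthonormal basis (Mathlib:
`QuadraticForm.equivalent_signType_weighted_sum_squared`, `LinearMap.BilinForm.exists_orthogonal_basis`,
or the spectral theorem for symmetric matrices). Let `b i` be the basis vectors with square `1`,
`b' j` those with square `-1`. The span of the `b i` is positive definite, so it meets the common kernel of
the `n` functionals `φ k` only in `0` (there the form is negative definite), so `n' ≤ n`. The coefficients of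
the unit vectors in the basis are `p`, `a`.
-/

set_option autoImplicit false

open Finset

namespace Pool.Agent.H19.Cub

/-- the form of a matrix -/
def qf {W : Type} [Fintype W] (T : W → W → ℝ) (f g : W → ℝ) : ℝ := ∑ u, ∑ v, f u * g v * T u v

section

variable {W : Type} [Fintype W]

private theorem qf_add_left (T : W → W → ℝ) (f f' g : W → ℝ) :
    qf T (f + f') g = qf T f g + qf T f' g := by
  unfold qf
  rw [← Finset.sum_add_distrib]
  refine Finset.sum_congr rfl fun u _ => ?_
  rw [← Finset.sum_add_distrib]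
  refine Finset.sum_congr rfl fun v _ => ?_
  rw [Pi.add_apply]
  ring

private theorem qf_add_right (T : W → W → ℝ) (f g g' : W → ℝ) :
    qf T f (g + g') = qf T f g + qf T f g' := by
  unfold qf
  rw [← Finset.sum_add_distrib]
  refine Finset.sum_congr rfl fun u _ => ?_
  rw [← Finset.sum_add_distrib]
  refine Finset.sum_congr rfl fun v _ => ?_
  rw [Pi.add_apply]
  ring

private theorem qf_smul_left (T : W → W → ℝ) (c : ℝ) (f g : W → ℝ) :
    qf T (c • f) g = c • qf T f g := by
  unfold qf
  rw [smul_eq_mul, Finset.mul_sum]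
  refine Finset.sum_congr rfl fun u _ => ?_
  rw [Finset.mul_sum]
  refine Finset.sum_congr rfl fun v _ => ?_
  rw [Pi.smul_apply, smul_eq_mul]
  ring

private theorem qf_smul_right (T : W → W → ℝ) (c : ℝ) (f g : W → ℝ) :
    qf T f (c • g) = c • qf T f g := by
  unfold qf
  rw [smul_eq_mul, Finset.mul_sum]
  refine Finset.sum_congr rfl fun u _ => ?_
  rw [Finset.mul_sum]
  refine Finset.sum_congr rfl fun v _ => ?_
  rw [Pi.smul_apply, smul_eq_mul]
  ring

/-- the bilinear form -/
private noncomputable def bf (T : W → W → ℝ) : LinearMap.BilinForm ℝ (W → ℝ) :=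
  LinearMap.mk₂ ℝ (qf T) (qf_add_left T) (qf_smul_left T) (qf_add_right T) (qf_smul_right T)

private theorem bf_apply (T : W → W → ℝ) (f g : W → ℝ) : bf T f g = qf T f g := rfl

private theorem qf_comm (T : W → W → ℝ) (hs : ∀ u v, T u v = T v u) (f g : W → ℝ) :
    qf T f g = qf T g f := by
  unfold qf
  rw [Finset.sum_comm]
  refine Finset.sum_congr rfl fun u _ => Finset.sum_congr rfl fun v _ => ?_
  rw [hs]
  ring

end

theorem exists_frame {W : Type} [Fintype W] [DecidableEq W] (T : W → W → ℝ)
    (hs : ∀ u v, T u v = T v u) (hnd : ∀ z : W → ℝ, (∀ w, ∑ u, z u * T u w = 0) → z = 0) (n : ℕ)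
    (φ : Fin n → W → ℝ)
    (hneg : ∀ f : W → ℝ, f ≠ 0 → (∀ k, ∑ w, φ k w * f w = 0) → qf T f f < 0) :
    ∃ (n' m : ℕ) (b : Fin n' → W → ℝ) (b' : Fin m → W → ℝ) (p : W → Fin n' → ℝ)
      (a : W → Fin m → ℝ), n' ≤ n ∧
      (∀ i j, qf T (b i) (b j) = if i = j then 1 else 0) ∧
      (∀ i j, qf T (b' i) (b' j) = if i = j then -1 else 0) ∧
      (∀ i j, qf T (b i) (b' j) = 0) ∧
      ∀ w u, (if u = w then 1 else 0 : ℝ) = ∑ i, p w i * b i u + ∑ j, a w j * b' j u := by
  classical
  have hsym : LinearMap.IsSymm (bf T) := ⟨fun f g => by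
    simp only [RingHom.id_apply, bf_apply]
    exact qf_comm T hs f g⟩
  have : Invertible (2 : ℝ) := invertibleOfNonzero two_ne_zero
  obtain ⟨v, hv⟩ := LinearMap.BilinForm.exists_orthogonal_basis hsym
  have hort : ∀ i j, i ≠ j → qf T (v i) (v j) = 0 := fun i j hij => hv hij
  -- the squares are not zero
  have hne : ∀ i, qf T (v i) (v i) ≠ 0 := by
    intro i hi
    have h1 : v i = 0 := by
      refine hnd (v i) fun w => ?_
      have h2 : qf T (v i) (Pi.single w 1) = 0 := by
        have h3 : (Pi.single w 1 : W → ℝ) = ∑ j, v.repr (Pi.single w 1) j • v j :=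
          (v.sum_repr _).symm
        rw [h3, ← bf_apply, map_sum]
        refine Finset.sum_eq_zero fun j _ => ?_
        rw [map_smul, bf_apply]
        by_cases hij : i = j
        · rw [← hij, hi, smul_zero]
        · rw [hort i j hij, smul_zero]
      unfold qf at h2
      rw [← h2]
      refine Finset.sum_congr rfl fun u _ => ?_
      rw [Finset.sum_eq_single w]
      · rw [Pi.single_eq_same]
        ring
      · intro x _ hx
        rw [Pi.single_eq_of_ne hx]
        ring
      · exact fun h => absurd (mem_univ w) h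
    exact v.ne_zero i h1
  set c : Fin (Module.finrank ℝ (W → ℝ)) → ℝ := fun i => (Real.sqrt |qf T (v i) (v i)|)⁻¹ with hc
  have hcpos : ∀ i, 0 < c i := fun i => inv_pos.2 (Real.sqrt_pos.2 (abs_pos.2 (hne i)))
  have hcsq : ∀ i, c i * c i * |qf T (v i) (v i)| = 1 := by
    intro i
    have h1 : Real.sqrt |qf T (v i) (v i)| * Real.sqrt |qf T (v i) (v i)| =
      |qf T (v i) (v i)| := Real.mul_self_sqrt (abs_nonneg _)
    have h2 : Real.sqrt |qf T (v i) (v i)| ≠ 0 := (Real.sqrt_pos.2 (abs_pos.2 (hne i))).ne'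
    simp only [hc]
    rw [← mul_inv, h1, inv_mul_cancel₀ (abs_ne_zero.2 (hne i))]
  set P : Fin (Module.finrank ℝ (W → ℝ)) → Prop := fun i => 0 < qf T (v i) (v i) with hP
  obtain ⟨n', ⟨e1⟩⟩ : ∃ n' : ℕ, Nonempty ({i // P i} ≃ Fin n') := ⟨_, ⟨Fintype.equivFin _⟩⟩
  obtain ⟨m, ⟨e2⟩⟩ : ∃ m : ℕ, Nonempty ({i // ¬ P i} ≃ Fin m) := ⟨_, ⟨Fintype.equivFin _⟩⟩
  set b : Fin n' → W → ℝ := fun i => c (e1.symm i).1 • v (e1.symm i).1 with hb
  set b' : Fin m → W → ℝ := fun i => c (e2.symm i).1 • v (e2.symm i).1 with hb'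
  have hq : ∀ i j, qf T (c i • v i) (c j • v j) = c i * c j * qf T (v i) (v j) := by
    intro i j
    rw [qf_smul_left, qf_smul_right, smul_eq_mul, smul_eq_mul]
    ring
  have h1 : ∀ i j, qf T (b i) (b j) = if i = j then 1 else 0 := by
    intro i j
    simp only [hb]
    rw [hq]
    by_cases hij : i = j
    · subst hij
      rw [if_pos rfl, ← hcsq (e1.symm i).1, abs_of_pos (e1.symm i).2]
    · rw [if_neg hij, hort _ _ (fun h => hij (e1.symm.injective (Subtype.ext h))), mul_zero]
  have h2 : ∀ i j, qf T (b' i) (b' j) = if i = j then -1 else 0 := by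
    intro i j
    simp only [hb']
    rw [hq]
    by_cases hij : i = j
    · subst hij
      have h3 : qf T (v (e2.symm i).1) (v (e2.symm i).1) < 0 :=
        lt_of_le_of_ne (not_lt.1 (e2.symm i).2) (hne _)
      rw [if_pos rfl]
      have h4 := hcsq (e2.symm i).1
      rw [abs_of_neg h3] at h4
      linarith
    · rw [if_neg hij, hort _ _ (fun h => hij (e2.symm.injective (Subtype.ext h))), mul_zero]
  have h3 : ∀ i j, qf T (b i) (b' j) = 0 := by
    intro i j
    simp only [hb, hb']
    have h4 : (e1.symm i).1 ≠ (e2.symm j).1 := by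
      intro h
      have h5 := (e1.symm i).2
      rw [h] at h5
      exact (e2.symm j).2 h5
    rw [hq, hort _ _ h4, mul_zero]
  refine ⟨n', m, b, b', fun w i => (c (e1.symm i).1)⁻¹ * v.repr (Pi.single w 1) (e1.symm i).1,
    fun w j => (c (e2.symm j).1)⁻¹ * v.repr (Pi.single w 1) (e2.symm j).1, ?_, h1, h2, h3, ?_⟩
  · -- the dimension
    by_contra hlt
    rw [not_le] at hlt
    set F : (Fin n' → ℝ) →ₗ[ℝ] (Fin n → ℝ) := LinearMap.pi fun k =>
      ∑ i, (∑ w, φ k w * b i w) • LinearMap.proj i with hF
    have hFk : ∀ x k, F x k = ∑ w, φ k w * (∑ i, x i • b i) w := by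
      intro x k
      rw [hF, LinearMap.pi_apply, LinearMap.sum_apply]
      have : ∀ w, φ k w * (∑ i, x i • b i) w = ∑ i, x i * (φ k w * b i w) := by
        intro w
        rw [Finset.sum_apply, Finset.mul_sum]
        refine Finset.sum_congr rfl fun i _ => ?_
        rw [Pi.smul_apply, smul_eq_mul]
        ring
      simp only [this]
      rw [Finset.sum_comm]
      refine Finset.sum_congr rfl fun i _ => ?_
      rw [LinearMap.smul_apply, LinearMap.proj_apply, smul_eq_mul, ← Finset.mul_sum, mul_comm]
    have hker : LinearMap.ker F ≠ ⊥ := F.ker_ne_bot_of_finrank_lt (by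
      rw [Module.finrank_fin_fun, Module.finrank_fin_fun]
      exact hlt)
    obtain ⟨x, hx, hx0⟩ := Submodule.exists_mem_ne_zero_of_ne_bot hker
    rw [LinearMap.mem_ker] at hx
    have hqx : qf T (∑ i, x i • b i) (∑ i, x i • b i) = ∑ i, x i ^ 2 := by
      rw [← bf_apply]
      simp only [map_sum, LinearMap.sum_apply, map_smul, LinearMap.smul_apply, smul_eq_mul,
        bf_apply, h1]
      refine Finset.sum_congr rfl fun i _ => ?_
      rw [Finset.sum_eq_single i]
      · rw [if_pos rfl]
        ring
      · intro j _ hj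
        rw [if_neg hj]
        ring
      · exact fun h => absurd (mem_univ i) h
    have hpos : 0 < ∑ i, x i ^ 2 := by
      obtain ⟨i, hi⟩ : ∃ i, x i ≠ 0 := by
        by_contra h
        push Not at h
        exact hx0 (funext h)
      exact Finset.sum_pos' (fun j _ => sq_nonneg _) ⟨i, mem_univ _, by positivity⟩
    have hf0 : (∑ i, x i • b i) ≠ 0 := by
      intro h
      rw [h] at hqx
      have : qf T (0 : W → ℝ) 0 = 0 := by
        unfold qf
        simp
      rw [this] at hqx
      linarith
    have := hneg _ hf0 fun k => by rw [← hFk, hx]; rfl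
    rw [hqx] at this
    linarith
  · intro w u
    have h4 : (Pi.single w 1 : W → ℝ) u = ∑ i, v.repr (Pi.single w 1) i * v i u := by
      conv_lhs => rw [← v.sum_repr (Pi.single w 1)]
      rw [Finset.sum_apply]
      refine Finset.sum_congr rfl fun i _ => ?_
      rw [Pi.smul_apply, smul_eq_mul]
    rw [← Pi.single_apply, h4, ← Fintype.sum_subtype_add_sum_subtype P]
    congr 1
    · refine Fintype.sum_equiv e1 _ _ fun i => ?_
      simp only [hb]
      rw [Equiv.symm_apply_apply, Pi.smul_apply, smul_eq_mul]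
      have := (hcpos i.1).ne'
      field_simp
    · refine Fintype.sum_equiv e2 _ _ fun i => ?_
      simp only [hb']
      rw [Equiv.symm_apply_apply, Pi.smul_apply, smul_eq_mul]
      have := (hcpos i.1).ne'
      field_simp

end Pool.Agent.H19.Cub
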