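import Pool.Agent.H19.Cub.Defs

/-!
# Project MC: trivialization of the coefficients

This is `tw_trivL` of project FC of helper4, see also `Pool.Agent.H85.Fold2.TrivY`. The isomorphism is
`f ↦ ((x, q) ↦ r q (f σ (x, q)))`; the point `x` in `Ω` plays no role.
-/

set_option autoImplicit false

open Finset

namespace Pool.Agent.H19.Cub

open Pool.Agent.H85.Fold Pool.Agent.H85.Fold2

section Triv

variable {V : Type} [DecidableEq V] [Fintype V]
variable {Ω P D : Type} [Group P] [Fintype D] [DecidableEq D] {K : Type} [Field K]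

/-- the component `d` of the trivialized function -/
private def slS (r : P →* Matrix D D K) (d : D) (f : Finset V → Ω × P → D → K) :
    Finset V → Ω × P → Unit → K :=
  fun σ x _ => (r x.2).mulVec (f σ x) d

private theorem mv_invS (r : P →* Matrix D D K) (x : P) (w : D → K) :
    (r x⁻¹).mulVec ((r x).mulVec w) = w := by
  rw [Matrix.mulVec_mulVec, ← map_mul, inv_mul_cancel, map_one, Matrix.one_mulVec]

private theorem mv_invS' (r : P →* Matrix D D K) (x : P) (w : D → K) :
    (r x).mulVec ((r x⁻¹).mulVec w) = w := by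
  rw [Matrix.mulVec_mulVec, ← map_mul, mul_inv_cancel, map_one, Matrix.one_mulVec]

omit [DecidableEq V] [Fintype V] in
private theorem slS_inv (r : P →* Matrix D D K) (g : D → Finset V → Ω × P → Unit → K) (d : D) :
    slS r d (fun σ x => (r x.2⁻¹).mulVec (fun d => g d σ x ())) = g d := by
  funext σ x u
  show (r x.2).mulVec ((r x.2⁻¹).mulVec (fun d => g d σ x ())) d = g d σ x u
  rw [mv_invS']

omit [DecidableEq V] in
private theorem finrank_slS [Fintype Ω] (r : P →* Matrix D D K) [Fintype P]
    (S : Submodule K (Finset V → Ω × P → D → K)) (T : Submodule K (Finset V → Ω × P → Unit → K))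
    (h : ∀ f, f ∈ S ↔ ∀ d, slS r d f ∈ T) :
    Module.finrank K S = Fintype.card D * Module.finrank K T := by
  let e : S ≃ₗ[K] (D → T) :=
    { toFun := fun f d => ⟨slS r d f.1, (h f.1).1 f.2 d⟩
      map_add' := fun f g => by
        funext d
        apply Subtype.ext
        funext σ x u
        show (r x.2).mulVec ((f.1 + g.1) σ x) d = (r x.2).mulVec (f.1 σ x) d +
          (r x.2).mulVec (g.1 σ x) d
        rw [Pi.add_apply, Pi.add_apply, Matrix.mulVec_add, Pi.add_apply]
      map_smul' := fun c f => by
        funext d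
        apply Subtype.ext
        funext σ x u
        show (r x.2).mulVec ((c • f.1) σ x) d = c • (r x.2).mulVec (f.1 σ x) d
        rw [Pi.smul_apply, Pi.smul_apply, Matrix.mulVec_smul, Pi.smul_apply]
      invFun := fun g => ⟨fun σ x => (r x.2⁻¹).mulVec (fun d => (g d).1 σ x ()),
        (h _).2 fun d => by
          rw [slS_inv r (fun d => (g d).1) d]
          exact (g d).2⟩
      left_inv := fun f => by
        apply Subtype.ext
        funext σ x
        exact mv_invS r x.2 (f.1 σ x)
      right_inv := fun g => by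
        funext d
        apply Subtype.ext
        exact slS_inv r (fun d => (g d).1) d }
  rw [e.finrank_eq, Module.finrank_pi_fintype, Finset.sum_const, Finset.card_univ, smul_eq_mul]

private theorem slS_tdl (r : P →* Matrix D D K) (ν : V → ℕ) (d : D)
    (f : Finset V → Ω × P → D → K) :
    slS r d (tdl K ν f) = tdl K ν (slS r d f) := by
  funext τ x u
  show (r x.2).mulVec (∑ v ∈ τᶜ, (Pool.Agent.H4.Singer.sg ν v τ : K) • f (insert v τ) x) d =
    (∑ v ∈ τᶜ, (Pool.Agent.H4.Singer.sg ν v τ : K) • slS r d f (insert v τ) x) u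
  rw [Matrix.mulVec_sum, Finset.sum_apply, Finset.sum_apply]
  exact Finset.sum_congr rfl fun v _ => by
    rw [Matrix.mulVec_smul, Pi.smul_apply, Pi.smul_apply, smul_eq_mul, smul_eq_mul]
    rfl

omit [DecidableEq V] [Fintype V] in
private theorem mem_SCh_sl (G : SimpleGraph V) (B : V → Matrix D D K) (hB : ∀ v, B v * B v = 1)
    (g : V → P) (r : P →* Matrix D D K) (hr : ∀ v, r (g v) = B v) (Y : Ω → Finset V)
    (s : V → Ω → Ω) (j : ℕ) (f : Finset V → Ω × P → D → K) :
    f ∈ SCh K G (prY Y P) B (prS s g) j ↔
      ∀ d, slS r d f ∈ SCh K G (prY Y P) (fun _ => (1 : Matrix Unit Unit K)) (prS s g) j := by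
  have hgi : ∀ v, r (g v)⁻¹ = B v := by
    intro v
    have h1 : r (g v)⁻¹ * r (g v) = 1 := by rw [← map_mul, inv_mul_cancel, map_one]
    calc r (g v)⁻¹ = r (g v)⁻¹ * (r (g v) * r (g v)) := by rw [hr, hB, mul_one]
      _ = r (g v) := by rw [← mul_assoc, h1, one_mul]
      _ = _ := hr v
  constructor
  · rintro ⟨h1, h2⟩ d
    refine ⟨fun σ x hne => ?_, fun σ v hv x => ?_⟩
    · have h3 : f σ x ≠ 0 := by
        intro h0
        apply hne
        funext u
        show (r x.2).mulVec (f σ x) d = 0
        rw [h0, Matrix.mulVec_zero]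
        rfl
      exact h1 σ x h3
    · rw [Matrix.one_mulVec]
      funext u
      show (r (x.2 * g v)).mulVec (f σ (prS s g v x)) d = - (r x.2).mulVec (f σ x) d
      have h3 : f σ (prS s g v x) = -(B v).mulVec (f σ x) := h2 σ v hv x
      rw [h3, map_mul, hr, Matrix.mulVec_neg, Matrix.mulVec_mulVec, mul_assoc, hB, mul_one]
      rfl
  · intro h
    refine ⟨fun σ x hne => ?_, fun σ v hv x => ?_⟩
    · have h3 : (r x.2).mulVec (f σ x) ≠ 0 := by
        intro h0
        apply hne
        have := mv_invS r x.2 (f σ x)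
        rw [h0, Matrix.mulVec_zero] at this
        exact this.symm
      obtain ⟨d, hd⟩ := Function.ne_iff.1 h3
      exact (h d).1 σ x fun h0 => hd (congrFun h0 ())
    · have h3 : (r (x.2 * g v)).mulVec (f σ (prS s g v x)) = - (r x.2).mulVec (f σ x) := by
        funext d
        have h4 := (h d).2 σ v hv x
        rw [Matrix.one_mulVec] at h4
        exact congrFun h4 ()
      have h4 := mv_invS r (x.2 * g v) (f σ (prS s g v x))
      rw [h3, mul_inv_rev, map_mul, hgi, Matrix.mulVec_neg, ← Matrix.mulVec_mulVec,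
        mv_invS] at h4
      exact h4.symm

end Triv

theorem tw_trivS {V D : Type} [DecidableEq V] [Fintype V] [Fintype D] [DecidableEq D]
    (G : SimpleGraph V) (A : V → Matrix D D ℤ) (hA : ∀ v, A v * A v = 1) {P : Type} [Group P]
    [Fintype P] (g : V → P) (hg : ∀ v, g v * g v = 1) (K : Type) [Field K]
    (r : P →* Matrix D D K) (hr : ∀ v, r (g v) = (A v).map (Int.cast : ℤ → K)) {Ω : Type}
    [Fintype Ω] (Y : Ω → Finset V) (s : V → Ω → Ω) (ν : V → ℕ) (i : ℕ) :
    bS K G (prY Y P) (mc K A) (prS s g) ν i =
      Fintype.card D * bT K G (prY Y P) (prS s g) ν i := by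
  have hAA : ∀ v, mc K A v * mc K A v = 1 := by
    intro v
    have h1 := congrArg (fun M : Matrix D D ℤ => M.map (Int.castRingHom K)) (hA v)
    simp only [Matrix.map_mul] at h1
    rw [Matrix.map_one _ (map_zero _) (map_one _)] at h1
    exact h1
  have hCh := mem_SCh_sl G (mc K A) hAA g r hr Y s
  have hZ : Module.finrank K (SZ K G (prY Y P) (mc K A) (prS s g) ν i) =
      Fintype.card D * Module.finrank K
        (SZ K G (prY Y P) (fun _ => (1 : Matrix Unit Unit K)) (prS s g) ν i) := by
    refine finrank_slS r _ _ fun f => ?_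
    constructor
    · intro hf d
      refine ⟨(hCh i f).1 hf.1 d, ?_⟩
      show tdl K ν (slS r d f) = 0
      rw [← slS_tdl, show tdl K ν f = 0 from hf.2]
      funext σ x u
      show (r x.2).mulVec 0 d = 0
      rw [Matrix.mulVec_zero]
      rfl
    · intro hf
      refine ⟨(hCh i f).2 fun d => (hf d).1, ?_⟩
      show tdl K ν f = 0
      funext σ x
      have h1 : (r x.2).mulVec (tdl K ν f σ x) = 0 := by
        funext d
        have h2 : tdl K ν (slS r d f) = 0 := (hf d).2
        rw [← slS_tdl] at h2
        exact congrFun (congrFun (congrFun h2 σ) x) ()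
      have h2 := mv_invS r x.2 (tdl K ν f σ x)
      rw [h1, Matrix.mulVec_zero] at h2
      exact h2.symm
  have hB : Module.finrank K (SB K G (prY Y P) (mc K A) (prS s g) ν i) =
      Fintype.card D * Module.finrank K
        (SB K G (prY Y P) (fun _ => (1 : Matrix Unit Unit K)) (prS s g) ν i) := by
    refine finrank_slS r _ _ fun f => ?_
    constructor
    · rintro ⟨k, hk, rfl⟩ d
      exact ⟨slS r d k, (hCh (i + 1) k).1 hk d, (slS_tdl r ν d k).symm⟩
    · intro hf
      choose k hk hk' using hf
      refine ⟨fun σ x => (r x.2⁻¹).mulVec (fun d => k d σ x ()), (hCh (i + 1) _).2 fun d => ?_,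
        ?_⟩
      · rw [slS_inv r k d]; exact hk d
      · funext σ x
        have h1 : (r x.2).mulVec (tdl K ν (fun σ x => (r x.2⁻¹).mulVec (fun d => k d σ x ()))
            σ x) = (r x.2).mulVec (f σ x) := by
          funext d
          have h2 := slS_tdl r ν d
            (fun σ (x : Ω × P) => (r x.2⁻¹).mulVec (fun d => k d σ x ()))
          rw [slS_inv r k d, hk' d] at h2
          exact congrFun (congrFun (congrFun h2 σ) x) ()
        have h2 := congrArg (fun w => (r x.2⁻¹).mulVec w) h1
        simp only [mv_invS] at h2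
        exact h2
  unfold bT bS
  rw [hZ, hB, Nat.mul_sub]

end Pool.Agent.H19.Cub
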