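import Pool.Agent.H19.Cub.DropS
import Pool.Agent.H19.Cub.TrivS
import Pool.Agent.H19.Cub.CmpS

/-!
# Project MC: growth of the Betti numbers

As `GrowL` of project FC of helper4, for the set `Ω × P` with `|Ω| |P|` elements (`drop_genS` for this
set): `p ^ bS ≤ C ^ (|Ω| |P|)`, `bS = |D| bT (ZMod p)`, `bT ℂ ≤ bT (ZMod p)`, so
`bT ℂ * log p ≤ |Ω| |P| log C`; choose `p₀ ≥ 3` with `|Ω| log C ≤ η log p₀`.
-/

set_option autoImplicit false

open Finset

namespace Pool.Agent.H19.Cub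

open Pool.Agent.H85.Fold Pool.Agent.H85.Fold2

theorem growS {V : Type} [DecidableEq V] [Fintype V] {G : SimpleGraph V} (ρ : IMod G)
    [Nonempty ρ.D] (ν : V → ℕ) (i : ℕ) {Ω : Type} [Fintype Ω] (Y : Ω → Finset V)
    (s : V → Ω → Ω)
    (hex : ∀ (P : Type) [Group P] [Fintype P] (g : V → P), (∀ v, g v * g v = 1) →
      (∀ u v, G.Adj u v → g u * g v = g v * g u) →
      SZ ℝ G (prY Y P) (mc ℝ ρ.A) (prS s g) ν i ≤ SB ℝ G (prY Y P) (mc ℝ ρ.A) (prS s g) ν i)
    (η : ℝ) (hη : 0 < η) :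
    ∃ p₀ : ℕ, ∀ (p : ℕ) [Fact p.Prime], p₀ ≤ p → ∀ (P : Type) [Group P] [Fintype P]
      (g : V → P), (∀ v, g v * g v = 1) → (∀ u v, G.Adj u v → g u * g v = g v * g u) →
      (∃ r : P →* Matrix ρ.D ρ.D (ZMod p), ∀ v, r (g v) = (ρ.A v).map (Int.cast : ℤ → ZMod p)) →
        (bT ℂ G (prY Y P) (prS s g) ν i : ℝ) ≤ η * Fintype.card P := by
  classical
  obtain ⟨C, hC1, hC⟩ := drop_genS G ρ.A ν i
  have hD : 1 ≤ Fintype.card ρ.D := Fintype.card_pos
  obtain ⟨N, hN⟩ := exists_nat_ge (Real.exp (Fintype.card Ω * Real.log C / η))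
  refine ⟨max N 3, ?_⟩
  intro p _ hp P _ _ g hg hgc hr
  obtain ⟨r, hr⟩ := hr
  have hp3 : 3 ≤ p := (le_max_right _ _).trans hp
  have hpN : N ≤ p := (le_max_left _ _).trans hp
  have h1 : bT ℂ G (prY Y P) (prS s g) ν i ≤ bT (ZMod p) G (prY Y P) (prS s g) ν i :=
    bT_complex_le G (prY Y P) (prS s g) ν i p (by omega)
  have h2 := hC (Ω × P) (prY Y P) (prS s g) (hex P g hg hgc) p
  rw [tw_trivS G ρ.A (fun v => ρ.sq v) g hg (ZMod p) r hr Y s ν i, Fintype.card_prod] at h2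
  have h3 : (p : ℝ) ^ (Fintype.card ρ.D * bT (ZMod p) G (prY Y P) (prS s g) ν i) ≤
      (C : ℝ) ^ (Fintype.card Ω * Fintype.card P) := by exact_mod_cast h2
  have hp1 : (1 : ℝ) < p := by
    have : (3 : ℝ) ≤ p := by exact_mod_cast hp3
    linarith
  have hp0 : (0 : ℝ) < p := by linarith
  have hlp : 0 < Real.log p := Real.log_pos hp1
  have h4 := Real.log_le_log (pow_pos hp0 _) h3
  rw [Real.log_pow, Real.log_pow] at h4
  push_cast at h4
  have h5 : (bT ℂ G (prY Y P) (prS s g) ν i : ℝ) ≤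
      Fintype.card ρ.D * bT (ZMod p) G (prY Y P) (prS s g) ν i := by
    have : bT ℂ G (prY Y P) (prS s g) ν i ≤
        Fintype.card ρ.D * bT (ZMod p) G (prY Y P) (prS s g) ν i :=
      h1.trans (Nat.le_mul_of_pos_left _ hD)
    exact_mod_cast this
  have h6 : (bT ℂ G (prY Y P) (prS s g) ν i : ℝ) * Real.log p ≤
      Fintype.card Ω * Fintype.card P * Real.log C := by
    refine le_trans ?_ h4
    exact mul_le_mul_of_nonneg_right h5 hlp.le
  have h7 : Fintype.card Ω * Real.log C ≤ η * Real.log p := by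
    have h8 : Fintype.card Ω * Real.log C / η ≤ Real.log p := by
      rw [Real.le_log_iff_exp_le hp0]
      refine hN.trans ?_
      exact_mod_cast hpN
    rw [div_le_iff₀ hη] at h8
    linarith
  have h8 : (bT ℂ G (prY Y P) (prS s g) ν i : ℝ) * Real.log p ≤
      (η * Fintype.card P) * Real.log p := by
    calc (bT ℂ G (prY Y P) (prS s g) ν i : ℝ) * Real.log p
        ≤ Fintype.card Ω * Fintype.card P * Real.log C := h6
      _ = Fintype.card P * (Fintype.card Ω * Real.log C) := by ring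
      _ ≤ Fintype.card P * (η * Real.log p) := by
          exact mul_le_mul_of_nonneg_left h7 (Nat.cast_nonneg _)
      _ = _ := by ring
  exact le_of_mul_le_mul_right h8 hlp

end Pool.Agent.H19.Cub
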