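import Pool.Agent.H19.Cub.HInf
import Pool.Agent.H4.Singer.ActBasic
import Pool.Agent.H4.Singer.AdjId
import Pool.Agent.H4.Singer.Levels

/-!
# Project MC: harmonic chains on finite sets

`harm_finrankS`: modelled on `Pool.Agent.H4.Singer.FinHodge`. A chain `f = ∂ y` with `f` in the kernel of the
coboundary is zero by `adj_identity`. `harm_finS`: modelled on `Pool.Agent.H4.Singer.HarmFin`; with `H = P`. For
`x` in the left kernel of the matrix let `φ` be the extension by zero; the chain `f σ (x, p) = φ x σ p` on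
`Ω × P`.
-/

set_option autoImplicit false
set_option linter.unusedSectionVars false

open Finset

namespace Pool.Agent.H19.Cub

open Pool.Agent.H4.Singer Pool.Agent.H4.Atiyah Pool.Agent.H85.Fold Pool.Agent.H85.Fold2

variable {V : Type} [Fintype V] [DecidableEq V]

private theorem hf_tdl_app {Ω : Type} (ν : V → ℕ) (f : Finset V → Ω → Unit → ℂ) (τ : Finset V)
    (ω : Ω) (u : Unit) : tdl ℂ ν f τ ω u =
      ∑ v ∈ τᶜ, (sg ν v τ : ℂ) * f (insert v τ) ω u := by
  show (∑ v ∈ τᶜ, (sg ν v τ : ℂ) • f (insert v τ) ω) u = _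
  rw [Finset.sum_apply]
  exact Finset.sum_congr rfl fun v _ => rfl

private theorem hf_tdl_tdl {Ω : Type} (ν : V → ℕ) (hν : Function.Injective ν)
    (f : Finset V → Ω → Unit → ℂ) : tdl ℂ ν (tdl ℂ ν f) = 0 := by
  funext τ ω u
  have h1 := congrFun (congrFun
    (dl_dl (F := ℂ) ν hν (fun σ (ω : Ω) => f σ ω u)) τ) ω
  rw [dl_apply] at h1
  rw [hf_tdl_app]
  rw [Pi.zero_apply, Pi.zero_apply, Pi.zero_apply]
  rw [Pi.zero_apply, Pi.zero_apply] at h1
  rw [← h1]
  refine Finset.sum_congr rfl fun v _ => ?_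
  rw [hf_tdl_app, dl_apply]

private theorem hf_SB_le {G : SimpleGraph V} {X : Type} (Y : X → Finset V) (s : V → X → X)
    (ν : V → ℕ) (hν : Function.Injective ν) (i : ℕ) :
    SB ℂ G Y (fun _ => (1 : Matrix Unit Unit ℂ)) s ν i ≤
      SZ ℂ G Y (fun _ => (1 : Matrix Unit Unit ℂ)) s ν i := by
  rintro f ⟨y, hy, rfl⟩
  obtain ⟨hy1, hy2⟩ := hy
  refine ⟨⟨?_, ?_⟩, LinearMap.mem_ker.mpr (hf_tdl_tdl ν hν y)⟩
  · intro τ ω hne
    have h' : ∑ v ∈ τᶜ, (sg ν v τ : ℂ) • y (insert v τ) ω ≠ 0 := hne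
    obtain ⟨w, hw, hw'⟩ := Finset.exists_ne_zero_of_sum_ne_zero h'
    have hne' : y (insert w τ) ω ≠ 0 := by
      intro h0
      exact hw' (by rw [h0, smul_zero])
    obtain ⟨h0, h1, h2⟩ := hy1 _ _ hne'
    refine ⟨(Finset.subset_insert _ _).trans h0,
      fun a ha b hb hab => h1 a (Finset.mem_insert_of_mem ha) b
      (Finset.mem_insert_of_mem hb) hab, ?_⟩
    rw [Finset.card_insert_of_notMem (Finset.mem_compl.mp hw)] at h2
    omega
  · intro τ v hv ω
    show ∑ w ∈ τᶜ, (sg ν w τ : ℂ) • y (insert w τ) (s v ω) =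
      -(1 : Matrix Unit Unit ℂ).mulVec
        (∑ w ∈ τᶜ, (sg ν w τ : ℂ) • y (insert w τ) ω)
    rw [Matrix.one_mulVec, ← Finset.sum_neg_distrib]
    refine Finset.sum_congr rfl fun w _ => ?_
    rw [hy2 _ v (Finset.mem_insert_of_mem hv) ω, Matrix.one_mulVec, smul_neg]

/-- forgetting the coordinate in `Unit` -/
private def hf_unitEq (V X : Type) : (Finset V → X → ℂ) ≃ₗ[ℂ] (Finset V → X → Unit → ℂ) where
  toFun f σ ω _ := f σ ω
  invFun g σ ω := g σ ω ()
  left_inv _ := rfl
  right_inv _ := rfl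
  map_add' _ _ := rfl
  map_smul' _ _ := rfl

theorem harm_finrankS {X : Type} [Fintype X] (G : SimpleGraph V) (Y : X → Finset V)
    (s : V → X → X) (hs : IsSpec G Y s) (ν : V → ℕ) (hν : Function.Injective ν) (i : ℕ)
    (H : Submodule ℂ (Finset V → X → ℂ)) (hH : ∀ f ∈ H, IsHarmS G Y s ν i f) :
    Module.finrank ℂ H ≤ bT ℂ G Y s ν i := by
  obtain ⟨H', hH'⟩ : ∃ H' : Submodule ℂ (Finset V → X → Unit → ℂ),
      H' = H.map (hf_unitEq V X).toLinearMap := ⟨_, rfl⟩
  have hfr : Module.finrank ℂ H' = Module.finrank ℂ H := by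
    rw [hH', LinearEquiv.finrank_map_eq]
  have hmem : ∀ f ∈ H', IsHarmS G Y s ν i (fun σ x => f σ x ()) := by
    rw [hH']
    rintro _ ⟨f, hf, rfl⟩
    exact hH f hf
  have hbot : H' ⊓ SB ℂ G Y (fun _ => (1 : Matrix Unit Unit ℂ)) s ν i = ⊥ := by
    rw [eq_bot_iff]
    rintro f ⟨hf, y, hy, hyf⟩
    obtain ⟨hy1, hy2⟩ := hy
    have hcoc := (hmem f hf).cocyc
    have key := adj_identity s hs.inv ν (fun σ x => f σ x ()) (fun σ x => y σ x ())
      (fun σ => (hasSum_fintype _).summable) (fun σ => (hasSum_fintype _).summable)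
      (by
        intro ρ v hv x
        have h1 := congrFun (hy2 ρ v hv x) ()
        rw [Matrix.one_mulVec] at h1
        exact h1)
    have hl : ∀ τ x, (∑ v ∈ τᶜ, (-1 : ℂ) ^ (τ.filter fun u => ν u < ν v).card *
        y (insert v τ) x ()) = f τ x () := by
      intro τ x
      rw [← hyf, hf_tdl_app]
      refine Finset.sum_congr rfl fun v _ => ?_
      unfold sg
      push_cast
      rfl
    have hr : ∀ ρ x, (starRingEnd ℂ)
        (∑ v ∈ ρ, (-1 : ℂ) ^ ((ρ.erase v).filter fun u => ν u < ν v).card *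
          (f (ρ.erase v) x () - f (ρ.erase v) (s v x) ())) * y ρ x () = 0 := by
      intro ρ x
      by_cases h0 : y ρ x = 0
      · rw [h0, Pi.zero_apply, mul_zero]
      · obtain ⟨h00, h1, h2⟩ := hy1 ρ x h0
        have h3 := hcoc ρ x h00 (fun a ha b hb hab => h1 a ha b hb hab) h2
        rw [h3, map_zero, zero_mul]
    simp only [hl, hr, tsum_fintype, Finset.sum_const_zero, mul_zero] at key
    have hsq : ∀ z : ℂ, (starRingEnd ℂ) z * z = ((‖z‖ ^ 2 : ℝ) : ℂ) := by
      intro z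
      rw [mul_comm, Complex.mul_conj, Complex.normSq_eq_norm_sq]
    simp only [hsq, ← Complex.ofReal_sum] at key
    have key' : ∑ τ : Finset V, ∑ x : X, ‖f τ x ()‖ ^ 2 = 0 := by exact_mod_cast key
    rw [Submodule.mem_bot]
    funext τ x u
    have h1 := (Finset.sum_eq_zero_iff_of_nonneg
      (fun τ _ => Finset.sum_nonneg fun x _ => sq_nonneg ‖f τ x ()‖)).1 key' τ (mem_univ τ)
    have h2 := (Finset.sum_eq_zero_iff_of_nonneg
      (fun x _ => sq_nonneg ‖f τ x ()‖)).1 h1 x (mem_univ x)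
    simpa using h2
  have hHZ : H' ≤ SZ ℂ G Y (fun _ => (1 : Matrix Unit Unit ℂ)) s ν i := by
    intro f hf
    have h1 := hmem f hf
    refine ⟨⟨fun σ x hne => ?_, fun σ v hv x => ?_⟩, ?_⟩
    · have h2 : f σ x () ≠ 0 := by
        intro h0
        apply hne
        funext u
        exact h0
      obtain ⟨h3, h4, h5⟩ := h1.chain.supp σ x h2
      exact ⟨h3, fun a ha b hb hab => h4 ha hb hab, h5⟩
    · rw [Matrix.one_mulVec]
      funext u
      exact h1.chain.anti σ v hv x
    · refine LinearMap.mem_ker.mpr ?_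
      funext τ x u
      rw [hf_tdl_app]
      have h2 := congrFun (congrFun h1.cyc τ) x
      rw [Pi.zero_apply, Pi.zero_apply] at h2
      rw [Pi.zero_apply, Pi.zero_apply, Pi.zero_apply, ← h2]
      unfold bdry
      refine Finset.sum_congr rfl fun v _ => ?_
      unfold sg
      push_cast
      rfl
  have hle : H' ⊔ SB ℂ G Y (fun _ => (1 : Matrix Unit Unit ℂ)) s ν i ≤
      SZ ℂ G Y (fun _ => (1 : Matrix Unit Unit ℂ)) s ν i :=
    sup_le hHZ (hf_SB_le Y s ν hν i)
  have h1 := Submodule.finrank_sup_add_finrank_inf_eq H'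
    (SB ℂ G Y (fun _ => (1 : Matrix Unit Unit ℂ)) s ν i)
  rw [hbot, finrank_bot, add_zero] at h1
  have h2 := Submodule.finrank_mono hle
  rw [← hfr]
  show Module.finrank ℂ H' ≤
    Module.finrank ℂ (SZ ℂ G Y (fun _ => (1 : Matrix Unit Unit ℂ)) s ν i) -
    Module.finrank ℂ (SB ℂ G Y (fun _ => (1 : Matrix Unit Unit ℂ)) s ν i)
  omega

private theorem hf_coeff {W P : Type} [Group W] [Group P] [Fintype P] (π : W →* P)
    (a : MonoidAlgebra ℤ W) (φ : P → ℂ) (h : P) :
    ∑ g, φ g * (MonoidAlgebra.mapDomainRingHom ℂ π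
      (MonoidAlgebra.mapRingHom W (Int.castRingHom ℂ) a)).coeff (g⁻¹ * h) = gact π a φ h := by
  classical
  induction a using MonoidAlgebra.induction_linear with
  | zero => simp [gact_zero]
  | add a b ha hb =>
    rw [gact_add, ← ha, ← hb, ← Finset.sum_add_distrib]
    refine Finset.sum_congr rfl fun g _ => ?_
    rw [map_add, map_add, MonoidAlgebra.coeff_add, Finsupp.add_apply, mul_add]
  | single g r =>
    rw [gact_single, MonoidAlgebra.mapRingHom_single, MonoidAlgebra.mapDomainRingHom_apply,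
      MonoidAlgebra.mapDomain_single, Finset.sum_eq_single (h * (π g)⁻¹)]
    · rw [MonoidAlgebra.coeff_single, mul_inv_rev, inv_inv, inv_mul_cancel_right,
        Finsupp.single_eq_same]
      simp
    · intro g' _ hg'
      rw [MonoidAlgebra.coeff_single, Finsupp.single_eq_of_ne, mul_zero]
      intro he
      apply hg'
      rw [← he]
      group
    · intro hh
      exact absurd (Finset.mem_univ _) hh

section Ext

variable {Ω : Type} [Fintype Ω]

/-- the extension by zero of a vector indexed by the rows -/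
private noncomputable def hfExt (G : SimpleGraph V) (Y : Ω → Finset V) (i : ℕ) (P : Type) :
    (Fin (Fintype.card (RS G Y i)) × P → ℂ) →ₗ[ℂ] (Ω → Finset V → P → ℂ) := by
  classical
  exact
  { toFun := fun x a σ p => if h : σ ⊆ Y a ∧ G.IsClique (σ : Set V) ∧ σ.card = i then
      x (Fintype.equivFin (RS G Y i) ⟨(a, σ), h⟩, p) else 0
    map_add' := by
      intro x y
      funext a σ p
      simp only [Pi.add_apply]
      split_ifs <;> simp
    map_smul' := by
      intro c x
      funext a σ p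
      simp only [Pi.smul_apply, RingHom.id_apply]
      split_ifs <;> simp }

private theorem hfExt_of (G : SimpleGraph V) (Y : Ω → Finset V) (i : ℕ) (P : Type)
    (x : Fin (Fintype.card (RS G Y i)) × P → ℂ) (r : RS G Y i) (p : P) :
    hfExt G Y i P x r.1.1 r.1.2 p = x (Fintype.equivFin (RS G Y i) r, p) := by
  classical
  show (if h : r.1.2 ⊆ Y r.1.1 ∧ G.IsClique (r.1.2 : Set V) ∧ r.1.2.card = i then
      x (Fintype.equivFin (RS G Y i) ⟨(r.1.1, r.1.2), h⟩, p) else 0) = _
  rw [dif_pos r.2]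

private theorem hfExt_not (G : SimpleGraph V) (Y : Ω → Finset V) (i : ℕ) (P : Type)
    (x : Fin (Fintype.card (RS G Y i)) × P → ℂ) (a : Ω) (σ : Finset V)
    (hσ : ¬ (σ ⊆ Y a ∧ G.IsClique (σ : Set V) ∧ σ.card = i)) : hfExt G Y i P x a σ = 0 := by
  classical
  funext p
  show (if h : σ ⊆ Y a ∧ G.IsClique (σ : Set V) ∧ σ.card = i then
      x (Fintype.equivFin (RS G Y i) ⟨(a, σ), h⟩, p) else 0) = _
  rw [dif_neg hσ]
  rfl

/-- the chain on the product -/
private noncomputable def hfCh (G : SimpleGraph V) (Y : Ω → Finset V) (i : ℕ) (P : Type) :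
    (Fin (Fintype.card (RS G Y i)) × P → ℂ) →ₗ[ℂ] (Finset V → Ω × P → ℂ) where
  toFun x σ a := hfExt G Y i P x a.1 σ a.2
  map_add' x y := by
    funext σ a
    rw [map_add]
    rfl
  map_smul' c x := by
    funext σ a
    rw [map_smul]
    rfl

private theorem hfCh_injective (G : SimpleGraph V) (Y : Ω → Finset V) (i : ℕ) (P : Type) :
    Function.Injective (hfCh G Y i P) := by
  intro x y hxy
  funext ⟨j, p⟩
  have h1 : hfExt G Y i P x ((Fintype.equivFin (RS G Y i)).symm j).1.1
      ((Fintype.equivFin (RS G Y i)).symm j).1.2 p =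
      hfExt G Y i P y ((Fintype.equivFin (RS G Y i)).symm j).1.1
      ((Fintype.equivFin (RS G Y i)).symm j).1.2 p :=
    congrFun (congrFun hxy ((Fintype.equivFin (RS G Y i)).symm j).1.2)
      (((Fintype.equivFin (RS G Y i)).symm j).1.1, p)
  rwa [hfExt_of, hfExt_of, Equiv.apply_symm_apply] at h1

private theorem hf_key (G : SimpleGraph V) (Y : Ω → Finset V) (s : V → Ω → Ω) (ν : V → ℕ) (i : ℕ)
    (P : Type) [Group P] [Fintype P] (π : RGrp G →* P)
    (x : Fin (Fintype.card (RS G Y i)) × P → ℂ) (c : CS G Y i) (h : P) :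
    Matrix.vecMul x (op ((toC (HSA G Y s ν i)).map (MonoidAlgebra.mapDomainRingHom ℂ π)))
      (Fintype.equivFin (CS G Y i) c, h) =
      ∑ r : RS G Y i, gact π (HS G Y s ν i r c) (hfExt G Y i P x r.1.1 r.1.2) h := by
  rw [Matrix.vecMul, dotProduct, Fintype.sum_prod_type]
  rw [← Equiv.sum_comp (Fintype.equivFin (RS G Y i))]
  refine Finset.sum_congr rfl fun r _ => ?_
  rw [← hf_coeff]
  refine Finset.sum_congr rfl fun g _ => ?_
  rw [hfExt_of]
  congr 1
  simp only [op, Matrix.of_apply, Matrix.map_apply, toC, HSA, Matrix.submatrix_apply,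
    Equiv.symm_apply_apply]

end Ext

theorem harm_finS {Ω : Type} [Fintype Ω] (G : SimpleGraph V) (Y : Ω → Finset V)
    (s : V → Ω → Ω) (hs : IsSpec G Y s) (ν : V → ℕ) (hν : Function.Injective ν) (i : ℕ)
    (P : Type) [Group P] [Fintype P] (π : RGrp G →* P) :
    ((Fintype.card (RS G Y i) : ℕ) * Fintype.card P : ℝ) -
      (op ((toC (HSA G Y s ν i)).map (MonoidAlgebra.mapDomainRingHom ℂ π))).rank ≤
        bT ℂ G (prY Y P) (prS s (fun v => π (gen G v))) ν i := by
  classical
  set M := op ((toC (HSA G Y s ν i)).map (MonoidAlgebra.mapDomainRingHom ℂ π)) with hM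
  have hgg : ∀ v, π (gen G v) * π (gen G v) = 1 := by
    intro v
    rw [← map_mul, gen_mul_gen, map_one]
  have hgc : ∀ u v, G.Adj u v → π (gen G u) * π (gen G v) = π (gen G v) * π (gen G u) := by
    intro u v huv
    rw [← map_mul, ← map_mul, gen_comm G u v huv]
  have hinv : ∀ v, (π (gen G v))⁻¹ = π (gen G v) := by
    intro v
    exact inv_eq_of_mul_eq_one_left (hgg v)
  have hspec : IsSpec G (prY Y P) (prS s (fun v => π (gen G v))) := isSpec_pr hs _ hgg hgc
  have hker : ∀ x ∈ LinearMap.ker (Matrix.vecMulLinear M), ∀ (c : CS G Y i) (h : P),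
      ∑ r : RS G Y i, gact π (HS G Y s ν i r c) (hfExt G Y i P x r.1.1 r.1.2) h = 0 := by
    intro x hx c h
    have h1 : Matrix.vecMul x M = 0 := hx
    rw [← hf_key, ← hM, h1]
    rfl
  have hH : ∀ f ∈ (LinearMap.ker (Matrix.vecMulLinear M)).map (hfCh G Y i P),
      IsHarmS G (prY Y P) (prS s (fun v => π (gen G v))) ν i f := by
    rintro f ⟨x, hx, rfl⟩
    have hk := hker x hx
    have h0 := hfExt_not G Y i P x
    refine ⟨⟨?_, ?_, ?_⟩, ?_, ?_⟩
    · intro σ a hne
      by_contra hcon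
      have h1 : hfExt G Y i P x a.1 σ a.2 ≠ 0 := hne
      rw [h0 a.1 σ hcon] at h1
      exact h1 rfl
    · intro σ v hv a
      show hfExt G Y i P x (s v a.1) σ (a.2 * π (gen G v)) = - hfExt G Y i P x a.1 σ a.2
      by_cases hσ : σ ⊆ Y a.1 ∧ G.IsClique (σ : Set V) ∧ σ.card = i
      · have h1 := hk (Sum.inl (⟨(a.1, σ), hσ⟩, v)) a.2
        rw [HS_anti G Y s hs ν i π _ h0 ⟨(a.1, σ), hσ⟩ v hv a.2, hinv] at h1
        exact eq_neg_of_add_eq_zero_right h1
      · have hσ' : ¬ (σ ⊆ Y (s v a.1) ∧ G.IsClique (σ : Set V) ∧ σ.card = i) := by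
          rintro ⟨h1, h2, h3⟩
          have hCl : Cl G σ := fun b hb c hc hbc => h2 hb hc hbc
          exact hσ ⟨(hs.sub_iff hCl hv).1 h1, h2, h3⟩
        rw [h0 _ σ hσ, h0 _ σ hσ']
        simp
    · intro σ
      exact (hasSum_fintype _).summable
    · funext τ a
      have h1 := hk (Sum.inr (Sum.inl (a.1, τ))) a.2
      rw [HS_bd G Y s hs ν i π _ h0] at h1
      rw [Pi.zero_apply, Pi.zero_apply, ← h1]
      rfl
    · intro ρ a hρY hρ hρi
      have h1 := hk (Sum.inr (Sum.inr (a.1, ρ))) a.2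
      rw [HS_cobd G Y s hs ν i π _ h0 a.1 ρ hρY hρ hρi] at h1
      rw [← h1]
      refine Finset.sum_congr rfl fun v _ => ?_
      rw [hinv]
      rfl
  have hle := harm_finrankS G (prY Y P) (prS s (fun v => π (gen G v))) hspec ν hν i _ hH
  have hfin : Module.finrank ℂ
      ((LinearMap.ker (Matrix.vecMulLinear M)).map (hfCh G Y i P)) =
      Module.finrank ℂ (LinearMap.ker (Matrix.vecMulLinear M)) :=
    (Submodule.equivMapOfInjective _ (hfCh_injective G Y i P) _).finrank_eq.symm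
  have h1 := LinearMap.finrank_range_add_finrank_ker (Matrix.vecMulLinear M)
  rw [Module.finrank_fintype_fun_eq_card, Fintype.card_prod, Fintype.card_fin] at h1
  have h3 : Module.finrank ℂ (LinearMap.range (Matrix.vecMulLinear M)) = M.rank := by
    have h4 : Matrix.vecMulLinear M = (Matrix.transpose M).mulVecLin := by
      apply LinearMap.ext
      intro x
      rw [Matrix.vecMulLinear_apply, Matrix.mulVecLin_apply, Matrix.mulVec_transpose]
    rw [h4, ← Matrix.rank_transpose M, Matrix.rank]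
  rw [h3] at h1
  rw [hfin] at hle
  have h5 : ((Fintype.card (RS G Y i) : ℕ) * Fintype.card P : ℝ) =
      (M.rank : ℝ) + Module.finrank ℂ (LinearMap.ker (Matrix.vecMulLinear M)) := by
    exact_mod_cast h1.symm
  rw [h5]
  have h6 : (Module.finrank ℂ (LinearMap.ker (Matrix.vecMulLinear M)) : ℝ) ≤
      bT ℂ G (prY Y P) (prS s (fun v => π (gen G v))) ν i := by
    exact_mod_cast hle
  linarith

end Pool.Agent.H19.Cub
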