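import Pool.Agent.H19.Cub.HMat

/-!
# Project MC: harmonic `ℓ²`-chains are in the kernel of the matrix

Modelled on `Pool.Agent.H4.Singer.HarmInf`. For a harmonic chain `f` on `Ω × W` let `φ x σ w = f σ (x, w)` and
apply `HS_anti`, `HS_bd`, `HS_cobd`, `HS_zero` with `H = RGrp G`, `π = id`, `(gen G v)⁻¹ = gen G v`.
-/

set_option autoImplicit false
set_option linter.unusedSectionVars false

open Finset

namespace Pool.Agent.H19.Cub

open Pool.Agent.H4.Singer Pool.Agent.H4.Atiyah

variable {V : Type} [Fintype V] [DecidableEq V] {Ω : Type} [Fintype Ω]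

/-- the matrix `HS` with rows and columns numbered by `Fin` -/
noncomputable def HSA (G : SimpleGraph V) (Y : Ω → Finset V) (s : V → Ω → Ω) (ν : V → ℕ)
    (i : ℕ) : Matrix (Fin (Fintype.card (RS G Y i))) (Fin (Fintype.card (CS G Y i)))
      (MonoidAlgebra ℤ (RGrp G)) :=
  (HS G Y s ν i).submatrix (Fintype.equivFin (RS G Y i)).symm (Fintype.equivFin (CS G Y i)).symm

private lemma hi_gen_inv (G : SimpleGraph V) (v : V) : (gen G v)⁻¹ = gen G v := by
  have h : gen G v * gen G v = 1 := (racg G).toCoxeterSystem.simple_mul_simple_self v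
  exact inv_eq_of_mul_eq_one_left h

private lemma hi_coeff_toC {W : Type} [Group W] (a : MonoidAlgebra ℤ W) (h : W) :
    (MonoidAlgebra.mapRingHom W (Int.castRingHom ℂ) a).coeff h = ((a.coeff h : ℤ) : ℂ) := by
  simp [MonoidAlgebra.mapRingHom]

private lemma hi_sum_toC {W : Type} [Group W] (a : MonoidAlgebra ℤ W) (φ : W → ℂ) (g : W) :
    ∑ h ∈ (MonoidAlgebra.mapRingHom W (Int.castRingHom ℂ) a).coeff.support,
      φ (g * h⁻¹) * (MonoidAlgebra.mapRingHom W (Int.castRingHom ℂ) a).coeff h =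
      gact (MonoidHom.id W) a φ g := by
  unfold gact
  have hs : (MonoidAlgebra.mapRingHom W (Int.castRingHom ℂ) a).coeff.support =
      a.coeff.support := by
    ext h
    rw [Finsupp.mem_support_iff, Finsupp.mem_support_iff, hi_coeff_toC]
    simp
  rw [hs]
  refine Finset.sum_congr rfl fun h _ => ?_
  rw [hi_coeff_toC]
  rfl

theorem harm_infS (G : SimpleGraph V) (Y : Ω → Finset V) (s : V → Ω → Ω) (hs : IsSpec G Y s)
    (ν : V → ℕ) (i : ℕ) (h0 : ∀ x ∈ l2ker (toC (HSA G Y s ν i)), x = 0) :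
    ∀ f : Finset V → Ω × RGrp G → ℂ,
      IsHarmS G (prY Y (RGrp G)) (prS s (gen G)) ν i f → f = 0 := by
  classical
  intro f hf
  obtain ⟨x, hx⟩ : ∃ x : Ω → Finset V → RGrp G → ℂ, x = fun a σ w => f σ (a, w) := ⟨_, rfl⟩
  have hxf : ∀ a σ w, f σ (a, w) = x a σ w := fun a σ w => by rw [hx]
  have hsupp : ∀ (a : Ω) (σ : Finset V),
      ¬ (σ ⊆ Y a ∧ G.IsClique (σ : Set V) ∧ σ.card = i) → x a σ = 0 := by
    intro a σ hσ
    funext w
    by_contra hne
    exact hσ (hf.chain.supp σ (a, w) (by rw [hxf]; exact hne))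
  have hl2 : ∀ (a : Ω) (σ : Finset V), Summable fun w => ‖x a σ w‖ ^ 2 := by
    intro a σ
    have h1 := (hf.chain.l2 σ).comp_injective
      (i := fun w : RGrp G => (a, w)) (fun w w' h => (Prod.ext_iff.1 h).2)
    refine h1.congr fun w => ?_
    rw [← hxf]
    rfl
  -- the function on `Fin k × W`
  let row : Fin (Fintype.card (RS G Y i)) → RS G Y i := (Fintype.equivFin (RS G Y i)).symm
  let F : Fin (Fintype.card (RS G Y i)) × RGrp G → ℂ :=
    fun p => x (row p.1).1.1 (row p.1).1.2 p.2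
  have hF : Memℓp F 2 := by
    refine memℓp_gen ?_
    have h1 : Summable fun p : Fin (Fintype.card (RS G Y i)) × RGrp G => ‖F p‖ ^ 2 := by
      rw [summable_prod_of_nonneg (fun p => by positivity)]
      refine ⟨fun j => hl2 (row j).1.1 (row j).1.2, ?_⟩
      exact Summable.of_finite
    refine h1.congr fun p => ?_
    norm_num
  let X : lp (fun _ : Fin (Fintype.card (RS G Y i)) × RGrp G => ℂ) 2 := ⟨F, hF⟩
  have hX : X ∈ l2ker (toC (HSA G Y s ν i)) := by
    intro c g
    have h1 : ∀ j : Fin (Fintype.card (RS G Y i)),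
        ∑ h ∈ ((toC (HSA G Y s ν i)) j c).coeff.support, X (j, g * h⁻¹) *
          ((toC (HSA G Y s ν i)) j c).coeff h =
        gact (MonoidHom.id (RGrp G))
          (HS G Y s ν i (row j) ((Fintype.equivFin (CS G Y i)).symm c))
            (x (row j).1.1 (row j).1.2) g := by
      intro j
      exact hi_sum_toC (HS G Y s ν i (row j) ((Fintype.equivFin (CS G Y i)).symm c))
        (x (row j).1.1 (row j).1.2) g
    rw [Finset.sum_congr rfl fun j _ => h1 j]
    have h2 : ∑ j : Fin (Fintype.card (RS G Y i)), gact (MonoidHom.id (RGrp G))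
          (HS G Y s ν i (row j) ((Fintype.equivFin (CS G Y i)).symm c))
            (x (row j).1.1 (row j).1.2) g =
        ∑ r : RS G Y i, gact (MonoidHom.id (RGrp G))
          (HS G Y s ν i r ((Fintype.equivFin (CS G Y i)).symm c)) (x r.1.1 r.1.2) g :=
      Equiv.sum_comp (Fintype.equivFin (RS G Y i)).symm (fun r : RS G Y i =>
        gact (MonoidHom.id (RGrp G)) (HS G Y s ν i r ((Fintype.equivFin (CS G Y i)).symm c))
          (x r.1.1 r.1.2) g)
    rw [h2]
    generalize (Fintype.equivFin (CS G Y i)).symm c = cc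
    rcases cc with ⟨q, v⟩ | ⟨a, τ⟩ | ⟨a, ρ⟩
    · by_cases hv : v ∈ q.1.2
      · rw [HS_anti G Y s hs ν i (MonoidHom.id (RGrp G)) x hsupp q v hv g, MonoidHom.id_apply,
          hi_gen_inv]
        have h3 := hf.chain.anti q.1.2 v hv (q.1.1, g)
        have h4 : x (s v q.1.1) q.1.2 (g * gen G v) = - x q.1.1 q.1.2 g := by
          rw [← hxf, ← hxf]
          exact h3
        rw [h4]
        ring
      · refine HS_zero G Y s hs ν i (MonoidHom.id (RGrp G)) x hsupp _ ⟨?_, ?_, ?_⟩ g
        · intro q' v' h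
          have h3 := Prod.mk.inj (Sum.inl.inj h)
          obtain ⟨h4, h5⟩ := h3
          rw [← h4, ← h5]
          exact hv
        · intro p h
          exact absurd h (by simp)
        · intro y ρ h
          exact absurd h (by simp)
    · rw [HS_bd G Y s hs ν i (MonoidHom.id (RGrp G)) x hsupp a τ g]
      have h3 := congrFun (congrFun hf.cyc τ) (a, g)
      rw [Pi.zero_apply, Pi.zero_apply] at h3
      rw [← h3]
      unfold bdry
      exact Finset.sum_congr rfl fun v _ => by rw [hxf]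
    · by_cases hρ : ρ ⊆ Y a ∧ G.IsClique (ρ : Set V) ∧ ρ.card = i + 1
      · rw [HS_cobd G Y s hs ν i (MonoidHom.id (RGrp G)) x hsupp a ρ hρ.1 hρ.2.1 hρ.2.2 g]
        have h3 := hf.cocyc ρ (a, g) hρ.1 hρ.2.1 hρ.2.2
        rw [← h3]
        refine Finset.sum_congr rfl fun v _ => ?_
        rw [MonoidHom.id_apply, hi_gen_inv, ← hxf, ← hxf]
        rfl
      · refine HS_zero G Y s hs ν i (MonoidHom.id (RGrp G)) x hsupp _ ⟨?_, ?_, ?_⟩ g
        · intro q' v' h
          exact absurd h (by simp)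
        · intro p h
          exact absurd h (by simp)
        · intro y ρ' h
          have h3 := Prod.mk.inj (Sum.inr.inj (Sum.inr.inj h))
          obtain ⟨h4, h5⟩ := h3
          rw [← h4, ← h5]
          exact hρ
  have hX0 := h0 X hX
  funext σ p
  obtain ⟨a, w⟩ := p
  rw [hxf]
  by_cases hσ : σ ⊆ Y a ∧ G.IsClique (σ : Set V) ∧ σ.card = i
  · have h4 : X (Fintype.equivFin (RS G Y i) ⟨(a, σ), hσ⟩, w) = 0 := by rw [hX0]; rfl
    have h5 : X (Fintype.equivFin (RS G Y i) ⟨(a, σ), hσ⟩, w) = x a σ w := by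
      change x (row (Fintype.equivFin (RS G Y i) ⟨(a, σ), hσ⟩)).1.1
        (row (Fintype.equivFin (RS G Y i) ⟨(a, σ), hσ⟩)).1.2 w = x a σ w
      simp only [row, Equiv.symm_apply_apply]
    rw [h5] at h4
    simpa using h4
  · rw [hsupp a σ hσ]
    rfl

end Pool.Agent.H19.Cub
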