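import Pool.Agent.H19.Cub.Defs
import Pool.Agent.H4.Singer.HarmFin

/-!
# Project MC: the matrix of the harmonic chains

`Ω` is a finite set with involutions `s v` and labels `Y x`. The matrix `HS` over the group ring of
`W = RGrp G`; its rows are the pairs `(x, σ)`, `σ ⊆ Y x` a clique with `i` elements; its columns give the
antisymmetry, the boundary and the coboundary. Modelled on `Pool.Agent.H4.Singer.HarmMatrix` (`HM`) and
`Pool.Agent.H4.Singer.HarmAct` (`gact`, `gact_single`, ...; `gact π a φ h = ∑ g, φ (h * (π g)⁻¹) * a g`).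
In the three statements `φ x σ : H → ℂ` is a family of functions which vanishes off the rows.
-/

set_option autoImplicit false
set_option linter.unusedSectionVars false

open Finset

namespace Pool.Agent.H19.Cub

open Pool.Agent.H4.Singer

variable {V : Type} [Fintype V] [DecidableEq V] {Ω : Type} [Fintype Ω]

/-- the rows -/
abbrev RS (G : SimpleGraph V) (Y : Ω → Finset V) (i : ℕ) : Type :=
  {q : Ω × Finset V // q.2 ⊆ Y q.1 ∧ G.IsClique (q.2 : Set V) ∧ q.2.card = i}

noncomputable instance (G : SimpleGraph V) (Y : Ω → Finset V) (i : ℕ) : Fintype (RS G Y i) :=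
  Fintype.ofFinite _

/-- the columns: antisymmetry, boundary, coboundary -/
abbrev CS (G : SimpleGraph V) (Y : Ω → Finset V) (i : ℕ) : Type :=
  (RS G Y i × V) ⊕ ((Ω × Finset V) ⊕ (Ω × Finset V))

noncomputable instance (G : SimpleGraph V) (Y : Ω → Finset V) (i : ℕ) : Fintype (CS G Y i) :=
  inferInstance

open Classical in
/-- the matrix over the group ring whose left kernel consists of the harmonic chains -/
noncomputable def HS (G : SimpleGraph V) (Y : Ω → Finset V) (s : V → Ω → Ω) (ν : V → ℕ)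
    (i : ℕ) : Matrix (RS G Y i) (CS G Y i) (MonoidAlgebra ℤ (RGrp G)) :=
  Matrix.of fun q c => match c with
    | Sum.inl (q', v) =>
      if q.1.2 = q'.1.2 ∧ v ∈ q'.1.2 then
        (if q.1.1 = q'.1.1 then MonoidAlgebra.single 1 1 else 0) +
          (if q.1.1 = s v q'.1.1 then MonoidAlgebra.single (gen G v) 1 else 0)
      else 0
    | Sum.inr (Sum.inl (x, τ)) =>
      if q.1.1 = x then
        ∑ v ∈ τᶜ, if insert v τ = q.1.2 then MonoidAlgebra.single 1 (sz ν v τ) else 0
      else 0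
    | Sum.inr (Sum.inr (x, ρ)) =>
      if ρ ⊆ Y x ∧ G.IsClique (ρ : Set V) ∧ ρ.card = i + 1 then
        ∑ v ∈ ρ, if ρ.erase v = q.1.2 then
          (if q.1.1 = x then MonoidAlgebra.single 1 (sz ν v (ρ.erase v)) else 0) -
            (if q.1.1 = s v x then MonoidAlgebra.single (gen G v) (sz ν v (ρ.erase v)) else 0)
          else 0
      else 0


private lemma hs_gact_eq_sum {W H : Type} [Group W] [Group H] (π : W →* H)
    (a : MonoidAlgebra ℤ W) (φ : H → ℂ) (h : H) :
    gact π a φ h = a.coeff.sum fun g r => φ (h * (π g)⁻¹) * (r : ℂ) := rfl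

private lemma hs_gact_sub {W H : Type} [Group W] [Group H] (π : W →* H) (a b : MonoidAlgebra ℤ W)
    (φ : H → ℂ) (h : H) : gact π (a - b) φ h = gact π a φ h - gact π b φ h := by
  have h1 := gact_add π (a - b) b φ h
  rw [sub_add_cancel] at h1
  rw [h1]
  ring

private lemma hs_gact_sum {W H ι : Type} [Group W] [Group H] (π : W →* H) (s : Finset ι)
    (f : ι → MonoidAlgebra ℤ W) (φ : H → ℂ) (h : H) :
    gact π (∑ k ∈ s, f k) φ h = ∑ k ∈ s, gact π (f k) φ h := by
  classical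
  induction s using Finset.induction_on with
  | empty => simp [gact_zero]
  | insert k s hk ih => rw [Finset.sum_insert hk, Finset.sum_insert hk, gact_add, ih]

private lemma hs_gact_ite {W H : Type} [Group W] [Group H] (π : W →* H) (p : Prop) [Decidable p]
    (a : MonoidAlgebra ℤ W) (φ : H → ℂ) (h : H) :
    gact π (if p then a else 0) φ h = if p then gact π a φ h else 0 := by
  split_ifs
  · rfl
  · exact gact_zero π φ h

open Classical in
private lemma hs_sum_RS (G : SimpleGraph V) (Y : Ω → Finset V) (i : ℕ) (y : Ω) (S : Finset V)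
    (F : Ω → Finset V → ℂ)
    (hF : ¬ (S ⊆ Y y ∧ G.IsClique (S : Set V) ∧ S.card = i) → F y S = 0) :
    ∑ r : RS G Y i, (if r.1.1 = y ∧ S = r.1.2 then F r.1.1 r.1.2 else 0) = F y S := by
  by_cases hS : S ⊆ Y y ∧ G.IsClique (S : Set V) ∧ S.card = i
  · rw [Finset.sum_eq_single (⟨(y, S), hS⟩ : RS G Y i)]
    · simp
    · intro r _ hr
      rw [if_neg]
      rintro ⟨h1, h2⟩
      exact hr (Subtype.ext (Prod.ext h1 h2.symm))
    · intro h1
      exact absurd (Finset.mem_univ _) h1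
  · rw [hF hS]
    refine Finset.sum_eq_zero fun r _ => ?_
    rw [if_neg]
    rintro ⟨h1, h2⟩
    apply hS
    have h3 := r.2
    rw [h1, ← h2] at h3
    exact h3

variable {H : Type} [Group H] (G : SimpleGraph V) (Y : Ω → Finset V) (s : V → Ω → Ω)
  (hs : IsSpec G Y s) (ν : V → ℕ) (i : ℕ) (π : RGrp G →* H) (φ : Ω → Finset V → H → ℂ)
  (hφ : ∀ x σ, ¬ (σ ⊆ Y x ∧ G.IsClique (σ : Set V) ∧ σ.card = i) → φ x σ = 0)

include hs hφ

theorem HS_anti (q : RS G Y i) (v : V) (hv : v ∈ q.1.2) (h : H) :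
    ∑ r : RS G Y i, gact π (HS G Y s ν i r (Sum.inl (q, v))) (φ r.1.1 r.1.2) h =
      φ q.1.1 q.1.2 h + φ (s v q.1.1) q.1.2 (h * (π (gen G v))⁻¹) := by
  classical
  have key : ∀ r : RS G Y i, gact π (HS G Y s ν i r (Sum.inl (q, v))) (φ r.1.1 r.1.2) h =
      (if r.1.1 = q.1.1 ∧ q.1.2 = r.1.2 then φ r.1.1 r.1.2 h else 0) +
        (if r.1.1 = s v q.1.1 ∧ q.1.2 = r.1.2 then
          φ r.1.1 r.1.2 (h * (π (gen G v))⁻¹) else 0) := by
    intro r
    have h1 : HS G Y s ν i r (Sum.inl (q, v)) = if r.1.2 = q.1.2 ∧ v ∈ q.1.2 then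
        (if r.1.1 = q.1.1 then MonoidAlgebra.single 1 1 else 0) +
          (if r.1.1 = s v q.1.1 then MonoidAlgebra.single (gen G v) 1 else 0) else 0 := by
      simp only [HS, Matrix.of_apply]
    rw [h1, hs_gact_ite, gact_add, hs_gact_ite, hs_gact_ite, gact_single, gact_single]
    by_cases h2 : r.1.2 = q.1.2
    · rw [if_pos ⟨h2, hv⟩]
      have h3 : (q.1.2 = r.1.2) = True := by rw [h2]; simp
      simp only [h3, and_true]
      simp
    · rw [if_neg (fun h3 => h2 h3.1), if_neg (fun h3 => h2 h3.2.symm),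
        if_neg (fun h3 => h2 h3.2.symm), add_zero]
  rw [Finset.sum_congr rfl fun r _ => key r, Finset.sum_add_distrib,
    hs_sum_RS G Y i q.1.1 q.1.2 (fun x σ => φ x σ h) (fun h1 => absurd q.2 h1),
    hs_sum_RS G Y i (s v q.1.1) q.1.2 (fun x σ => φ x σ (h * (π (gen G v))⁻¹))
      (fun h1 => by rw [hφ _ _ h1]; rfl)]

theorem HS_bd (x : Ω) (τ : Finset V) (h : H) :
    ∑ r : RS G Y i, gact π (HS G Y s ν i r (Sum.inr (Sum.inl (x, τ)))) (φ r.1.1 r.1.2) h =
      ∑ v ∈ τᶜ, (-1 : ℂ) ^ (τ.filter fun u => ν u < ν v).card * φ x (insert v τ) h := by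
  classical
  have key : ∀ r : RS G Y i,
      gact π (HS G Y s ν i r (Sum.inr (Sum.inl (x, τ)))) (φ r.1.1 r.1.2) h =
      ∑ v ∈ τᶜ, if r.1.1 = x ∧ insert v τ = r.1.2 then
        φ r.1.1 r.1.2 h * ((sz ν v τ : ℤ) : ℂ) else 0 := by
    intro r
    have h1 : HS G Y s ν i r (Sum.inr (Sum.inl (x, τ))) =
        if r.1.1 = x then
          ∑ v ∈ τᶜ, if insert v τ = r.1.2 then MonoidAlgebra.single 1 (sz ν v τ) else 0
        else 0 := by
      simp only [HS, Matrix.of_apply]
    rw [h1, hs_gact_ite, hs_gact_sum]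
    by_cases h2 : r.1.1 = x
    · rw [if_pos h2]
      refine Finset.sum_congr rfl fun v _ => ?_
      rw [hs_gact_ite, gact_single]
      simp only [h2, true_and]
      simp
    · rw [if_neg h2]
      symm
      exact Finset.sum_eq_zero fun v _ => if_neg fun h3 => h2 h3.1
  rw [Finset.sum_congr rfl fun r _ => key r, Finset.sum_comm]
  refine Finset.sum_congr rfl fun v _ => ?_
  rw [hs_sum_RS G Y i x (insert v τ) (fun x S => φ x S h * ((sz ν v τ : ℤ) : ℂ))]
  · simp only [sz]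
    push_cast
    ring
  · intro h1
    rw [hφ _ _ h1]
    simp

theorem HS_cobd (x : Ω) (ρ : Finset V) (hρY : ρ ⊆ Y x) (hρ : G.IsClique (ρ : Set V))
    (hρi : ρ.card = i + 1) (h : H) :
    ∑ r : RS G Y i, gact π (HS G Y s ν i r (Sum.inr (Sum.inr (x, ρ)))) (φ r.1.1 r.1.2) h =
      ∑ v ∈ ρ, (-1 : ℂ) ^ ((ρ.erase v).filter fun u => ν u < ν v).card *
        (φ x (ρ.erase v) h - φ (s v x) (ρ.erase v) (h * (π (gen G v))⁻¹)) := by
  classical
  have key : ∀ r : RS G Y i,
      gact π (HS G Y s ν i r (Sum.inr (Sum.inr (x, ρ)))) (φ r.1.1 r.1.2) h =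
      ∑ v ∈ ρ, ((if r.1.1 = x ∧ ρ.erase v = r.1.2 then
        φ r.1.1 r.1.2 h * ((sz ν v (ρ.erase v) : ℤ) : ℂ) else 0) -
        (if r.1.1 = s v x ∧ ρ.erase v = r.1.2 then
          φ r.1.1 r.1.2 (h * (π (gen G v))⁻¹) * ((sz ν v (ρ.erase v) : ℤ) : ℂ) else 0)) := by
    intro r
    have h1 : HS G Y s ν i r (Sum.inr (Sum.inr (x, ρ))) =
        ∑ v ∈ ρ, if ρ.erase v = r.1.2 then
          (if r.1.1 = x then MonoidAlgebra.single 1 (sz ν v (ρ.erase v)) else 0) -
            (if r.1.1 = s v x then MonoidAlgebra.single (gen G v) (sz ν v (ρ.erase v)) else 0)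
          else 0 := by
      simp only [HS, Matrix.of_apply]
      rw [if_pos ⟨hρY, hρ, hρi⟩]
    rw [h1, hs_gact_sum]
    refine Finset.sum_congr rfl fun v _ => ?_
    rw [hs_gact_ite, hs_gact_sub, hs_gact_ite, hs_gact_ite, gact_single, gact_single]
    rw [map_one, inv_one, mul_one]
    by_cases h2 : ρ.erase v = r.1.2
    · simp only [h2, and_true, if_true]
    · simp only [h2, and_false, if_false, sub_zero]
  rw [Finset.sum_congr rfl fun r _ => key r, Finset.sum_comm]
  refine Finset.sum_congr rfl fun v _ => ?_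
  rw [Finset.sum_sub_distrib,
    hs_sum_RS G Y i x (ρ.erase v) (fun y S => φ y S h * ((sz ν v (ρ.erase v) : ℤ) : ℂ)),
    hs_sum_RS G Y i (s v x) (ρ.erase v) (fun y S => φ y S (h * (π (gen G v))⁻¹) *
      ((sz ν v (ρ.erase v) : ℤ) : ℂ))]
  · simp only [sz]
    push_cast
    ring
  · intro h1
    rw [hφ _ _ h1]
    simp
  · intro h1
    rw [hφ _ _ h1]
    simp

/-- the columns which are not mentioned above vanish -/
theorem HS_zero (c : CS G Y i)
    (hc : (∀ q v, c = Sum.inl (q, v) → v ∉ q.1.2) ∧ (∀ p, c ≠ Sum.inr (Sum.inl p)) ∧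
      ∀ x ρ, c = Sum.inr (Sum.inr (x, ρ)) →
        ¬ (ρ ⊆ Y x ∧ G.IsClique (ρ : Set V) ∧ ρ.card = i + 1)) (h : H) :
    ∑ r : RS G Y i, gact π (HS G Y s ν i r c) (φ r.1.1 r.1.2) h = 0 := by
  classical
  refine Finset.sum_eq_zero fun r _ => ?_
  have h1 : HS G Y s ν i r c = 0 := by
    rcases c with ⟨q, v⟩ | p | ⟨x, ρ⟩
    · have h2 : v ∉ q.1.2 := hc.1 q v rfl
      simp only [HS, Matrix.of_apply]
      rw [if_neg (fun h3 => h2 h3.2)]
    · exact absurd rfl (hc.2.1 p)
    · have h2 := hc.2.2 x ρ rfl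
      simp only [HS, Matrix.of_apply]
      rw [if_neg h2]
  rw [h1, gact_zero]

end Pool.Agent.H19.Cub
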