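import Pool.Agent.H19.Cub.IModS
import Pool.Agent.H19.Cub.GrowS
import Pool.Agent.H19.Cub.HFin
import Pool.Agent.H85.Fold2.Levels2
import Pool.Agent.H4.Singer.LuckVanish

/-!
# Project MC: harmonic chains on `Ω × W` vanish

As `GVan.harm` in `Pool.Agent.H85.Fold2.Final`: let `ρ` be the integer representation of `exists_imodS`, and take
the levels `exists_levels_fin G (fun _ : Fin 1 => ρ)`. `harm_infS` reduces the claim to
`l2ker (toC (HSA G Y s ν i))` being trivial, which follows from `l2ker_trivial π hsep`, `harm_finS` and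
`growS` (the hypothesis `hex` of `growS` holds by `isSpec_pr` and the property of `ρ`; `GoodAt G T i (prY Y P x)` is
`GoodAt G T i (Y x.1)`).
-/

set_option autoImplicit false

open Finset Filter

namespace Pool.Agent.H19.Cub

open Pool.Agent.H4.Singer Pool.Agent.H85.Fold Pool.Agent.H85.Fold2

theorem harm_W {V : Type} [DecidableEq V] [Fintype V] {Ω : Type} [Fintype Ω]
    (G : SimpleGraph V) (T : V → V → ℤ) (hT : IsT G T) (Y : Ω → Finset V) (s : V → Ω → Ω)
    (hs : IsSpec G Y s) (i : ℕ) (hgood : ∀ x, GoodAt G T i (Y x)) (ν : V → ℕ)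
    (hν : Function.Injective ν) : ∀ f : Finset V → Ω × RGrp G → ℂ,
      IsHarmS G (prY Y (RGrp G)) (prS s (gen G)) ν i f → f = 0 := by
  classical
  obtain ⟨ρ, hne, hρ⟩ := exists_imodS G T hT ν hν i
  have hex : ∀ (P : Type) [Group P] [Fintype P] (g : V → P), (∀ v, g v * g v = 1) →
      (∀ u v, G.Adj u v → g u * g v = g v * g u) →
      SZ ℝ G (prY Y P) (mc ℝ ρ.A) (prS s g) ν i ≤ SB ℝ G (prY Y P) (mc ℝ ρ.A) (prS s g) ν i :=
    fun P _ _ g hg hgc => hρ (Ω × P) (prY Y P) (prS s g) (isSpec_pr hs g hg hgc)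
      fun x => hgood x.1
  obtain ⟨q, P, grp, fin, π, XP, hq, hsep, -, hr⟩ := exists_levels_fin G (fun _ : Fin 1 => ρ)
  refine harm_infS G Y s hs ν i (l2ker_trivial π hsep (HSA G Y s ν i) ?_)
  intro η hη
  obtain ⟨p₀, hp₀⟩ := growS ρ ν i Y s hex η hη
  filter_upwards [eventually_ge_atTop p₀] with j hj
  have : Fact (q j).Prime := ⟨(hq j).1⟩
  refine (harm_finS G Y s hs ν hν i (P j) (π j)).trans ?_
  exact hp₀ (q j) (hj.trans (hq j).2) (P j) (fun v => π j (gen G v))
    (fun v => by rw [← map_mul, gen_mul_gen, map_one])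
    (fun u v huv => by rw [← map_mul, ← map_mul, gen_comm G u v huv]) (hr j 0)

end Pool.Agent.H19.Cub
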