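import Pool.Agent.H19.Cub.Defs
import Pool.Agent.H4.Singer.L2Hodge

/-!
# Project MC: harmonic `ℓ²`-chains and reduced homology

Modelled on `Pool.Agent.H4.Singer.L2Hodge`: the group is replaced by the set `X` and `w * gen G v` by
`s v x`, the supports are `σ ⊆ Y x ∧ clique ∧ σ.card = i`.
-/

set_option autoImplicit false
set_option linter.unusedSectionVars false

open Finset

namespace Pool.Agent.H19.Cub

open Pool.Agent.H4.Singer

section Hodge

variable {V X : Type} [Fintype V] [DecidableEq V]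

private lemma sl2h_dbd_eq (ν : V → ℕ) (f : Finset V → X → ℂ) :
    bdry ν f = dl ℂ ν f := by
  funext τ w
  rw [dl_apply]
  unfold bdry sg
  refine Finset.sum_congr rfl fun v _ => ?_
  push_cast
  rfl

private lemma sl2h_dbd_l2 (ν : V → ℕ) {f : Finset V → X → ℂ}
    (hf : ∀ σ, Summable fun w => ‖f σ w‖ ^ 2) (τ : Finset V) :
    Summable fun w => ‖bdry ν f τ w‖ ^ 2 :=
  l2h_sum _ _ fun v _ => l2h_mul _ (hf (insert v τ))

private lemma sl2h_chain_add {G : SimpleGraph V} {Y : X → Finset V} {s : V → X → X} {i : ℕ} {f g : Finset V → X → ℂ}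
    (hf : IsL2S G Y s i f) (hg : IsL2S G Y s i g) : IsL2S G Y s i (f + g) where
  supp σ w h := by
    by_cases h1 : f σ w = 0
    · by_cases h2 : g σ w = 0
      · exact absurd (by simp [h1, h2]) h
      · exact hg.supp σ w h2
    · exact hf.supp σ w h1
  anti σ v hv w := by
    simp only [Pi.add_apply]
    rw [hf.anti σ v hv w, hg.anti σ v hv w]
    ring
  l2 σ := l2h_add (hf.l2 σ) (hg.l2 σ)

private lemma sl2h_chain_smul {G : SimpleGraph V} {Y : X → Finset V} {s : V → X → X} {i : ℕ} (a : ℂ) {f : Finset V → X → ℂ}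
    (hf : IsL2S G Y s i f) : IsL2S G Y s i (a • f) where
  supp σ w h := hf.supp σ w (right_ne_zero_of_mul h)
  anti σ v hv w := by
    simp only [Pi.smul_apply, smul_eq_mul]
    rw [hf.anti σ v hv w]
    ring
  l2 σ := l2h_mul a (hf.l2 σ)

private lemma sl2h_chain_zero {G : SimpleGraph V} {Y : X → Finset V} {s : V → X → X} {i : ℕ} :
    IsL2S G Y s i (0 : Finset V → X → ℂ) where
  supp σ w h := absurd rfl h
  anti σ v hv w := by simp
  l2 σ := by simp

/-- boundaries -/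
private noncomputable def sl2hB (G : SimpleGraph V) (Y : X → Finset V) (s : V → X → X) (ν : V → ℕ) (i : ℕ) :
    Submodule ℂ (lp (fun _ : Finset V × X => ℂ) 2) where
  carrier := {e | ∃ y : Finset V → X → ℂ, IsL2S G Y s (i + 1) y ∧
    ∀ σ w, e (σ, w) = bdry ν y σ w}
  zero_mem' := ⟨0, sl2h_chain_zero, fun σ w => by simp [bdry]⟩
  add_mem' := by
    rintro e e' ⟨y, hy, h⟩ ⟨y', hy', h'⟩
    refine ⟨y + y', sl2h_chain_add hy hy', fun σ w => ?_⟩
    rw [sl2h_dbd_eq, map_add, ← sl2h_dbd_eq, ← sl2h_dbd_eq]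
    show e (σ, w) + e' (σ, w) = bdry ν y σ w + bdry ν y' σ w
    rw [h, h']
  smul_mem' := by
    rintro a e ⟨y, hy, h⟩
    refine ⟨a • y, sl2h_chain_smul a hy, fun σ w => ?_⟩
    rw [sl2h_dbd_eq, map_smul, ← sl2h_dbd_eq]
    show a * e (σ, w) = a * bdry ν y σ w
    rw [h]

/-- cycles -/
private noncomputable def sl2hT (G : SimpleGraph V) (Y : X → Finset V) (s : V → X → X) (ν : V → ℕ) (i : ℕ) :
    Submodule ℂ (lp (fun _ : Finset V × X => ℂ) 2) where
  carrier := {e | (∀ (σ : Finset V) (w : X),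
      ¬ (σ ⊆ Y w ∧ G.IsClique (σ : Set V) ∧ σ.card = i) → e (σ, w) = 0) ∧
    (∀ (σ : Finset V), ∀ v ∈ σ, ∀ w : X, e (σ, s v w) = - e (σ, w)) ∧
    ∀ (τ : Finset V) (w : X), ∑ v ∈ τᶜ, (-1 : ℂ) ^ (τ.filter fun u => ν u < ν v).card * e (insert v τ, w) = 0}
  zero_mem' := by
    refine ⟨fun σ w _ => rfl, fun σ v _ w => ?_, fun τ w => ?_⟩
    · show (0 : ℂ) = - 0
      simp
    · refine Finset.sum_eq_zero fun v _ => ?_
      show _ * (0 : ℂ) = 0
      simp
  add_mem' := by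
    rintro e e' ⟨h1, h2, h3⟩ ⟨h1', h2', h3'⟩
    refine ⟨fun σ w h => ?_, fun σ v hv w => ?_, fun τ w => ?_⟩
    · show e (σ, w) + e' (σ, w) = 0
      rw [h1 σ w h, h1' σ w h, add_zero]
    · show e (σ, s v w) + e' (σ, s v w) = - (e (σ, w) + e' (σ, w))
      rw [h2 σ v hv w, h2' σ v hv w]
      ring
    · show ∑ v ∈ τᶜ, (-1 : ℂ) ^ (τ.filter fun u => ν u < ν v).card *
        (e (insert v τ, w) + e' (insert v τ, w)) = 0
      simp only [mul_add, Finset.sum_add_distrib]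
      rw [h3, h3', add_zero]
  smul_mem' := by
    rintro a e ⟨h1, h2, h3⟩
    refine ⟨fun σ w h => ?_, fun σ v hv w => ?_, fun τ w => ?_⟩
    · show a * e (σ, w) = 0
      rw [h1 σ w h, mul_zero]
    · show a * e (σ, s v w) = - (a * e (σ, w))
      rw [h2 σ v hv w]
      ring
    · show ∑ v ∈ τᶜ, (-1 : ℂ) ^ (τ.filter fun u => ν u < ν v).card *
        (a * e (insert v τ, w)) = 0
      have := h3 τ w
      calc _ = a * ∑ v ∈ τᶜ, (-1 : ℂ) ^ (τ.filter fun u => ν u < ν v).card *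
            e (insert v τ, w) := by
            rw [Finset.mul_sum]
            exact Finset.sum_congr rfl fun v _ => by ring
        _ = 0 := by rw [this, mul_zero]

private lemma sl2hT_closed (G : SimpleGraph V) (Y : X → Finset V) (s : V → X → X) (ν : V → ℕ) (i : ℕ) :
    IsClosed (sl2hT G Y s ν i : Set (lp (fun _ : Finset V × X => ℂ) 2)) := by
  have h : (sl2hT G Y s ν i : Set (lp (fun _ : Finset V × X => ℂ) 2)) =
      ((⋂ σ : Finset V, ⋂ w : X, ⋂ _ : ¬ (σ ⊆ Y w ∧ G.IsClique (σ : Set V) ∧ σ.card = i),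
        {e | l2hEv (σ, w) e = 0}) ∩
      (⋂ σ : Finset V, ⋂ v : V, ⋂ _ : v ∈ σ, ⋂ w : X,
        {e | l2hEv (σ, s v w) e = - l2hEv (σ, w) e})) ∩
      (⋂ τ : Finset V, ⋂ w : X,
        {e | ∑ v ∈ τᶜ, (-1 : ℂ) ^ (τ.filter fun u => ν u < ν v).card *
          l2hEv (insert v τ, w) e = 0}) := by
    ext e
    simp only [Set.mem_inter_iff, Set.mem_iInter, Set.mem_ofPred_eq, l2hEv_apply]
    constructor
    · rintro ⟨h1, h2, h3⟩
      exact ⟨⟨h1, fun σ v hv w => h2 σ v hv w⟩, h3⟩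
    · rintro ⟨⟨h1, h2⟩, h3⟩
      exact ⟨h1, fun σ v hv w => h2 σ v hv w, h3⟩
  rw [h]
  refine (IsClosed.inter ?_ ?_).inter ?_
  · refine isClosed_iInter fun σ => isClosed_iInter fun w => isClosed_iInter fun _ => ?_
    exact isClosed_eq (l2hEv _).continuous continuous_const
  · refine isClosed_iInter fun σ => isClosed_iInter fun v => isClosed_iInter fun _ =>
      isClosed_iInter fun w => ?_
    exact isClosed_eq (l2hEv _).continuous (l2hEv _).continuous.neg
  · refine isClosed_iInter fun τ => isClosed_iInter fun w => ?_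
    refine isClosed_eq ?_ continuous_const
    exact continuous_finsetSum _ fun v _ => continuous_const.mul (l2hEv _).continuous

private lemma sl2hB_le (G : SimpleGraph V) (Y : X → Finset V) (s : V → X → X) (ν : V → ℕ) (hν : Function.Injective ν) (i : ℕ) :
    sl2hB G Y s ν i ≤ sl2hT G Y s ν i := by
  rintro e ⟨y, hy, h⟩
  refine ⟨fun σ w hσ => ?_, fun σ v hv w => ?_, fun τ w => ?_⟩
  · rw [h]
    unfold bdry
    refine Finset.sum_eq_zero fun v hv => ?_
    rw [Finset.mem_compl] at hv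
    by_contra hne
    obtain ⟨h0, h1, h2⟩ := hy.supp _ _ (right_ne_zero_of_mul hne)
    apply hσ
    refine ⟨(Finset.subset_insert _ _).trans h0, h1.subset (by simp), ?_⟩
    rw [Finset.card_insert_of_notMem hv] at h2
    omega
  · rw [h, h]
    unfold bdry
    rw [← Finset.sum_neg_distrib]
    refine Finset.sum_congr rfl fun u _ => ?_
    rw [hy.anti (insert u σ) v (mem_insert_of_mem hv)]
    ring
  · have h1 := congrFun (congrFun (dl_dl (F := ℂ) ν hν y) τ) w
    rw [← sl2h_dbd_eq, ← sl2h_dbd_eq] at h1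
    simp only [Pi.zero_apply] at h1
    rw [← h1]
    show _ = ∑ v ∈ τᶜ, (-1 : ℂ) ^ (τ.filter fun u => ν u < ν v).card * bdry ν y (insert v τ) w
    exact Finset.sum_congr rfl fun v _ => by rw [h]

open Classical in
/-- the coboundary, restricted to cliques with `i + 1` elements -/
private noncomputable def sl2hC (G : SimpleGraph V) (Y : X → Finset V) (s : V → X → X) (ν : V → ℕ) (i : ℕ) (x : Finset V → X → ℂ) :
    Finset V → X → ℂ := fun ρ w =>
  if ρ ⊆ Y w ∧ G.IsClique (ρ : Set V) ∧ ρ.card = i + 1 then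
    ∑ v ∈ ρ, (-1 : ℂ) ^ ((ρ.erase v).filter fun u => ν u < ν v).card *
      (x (ρ.erase v) w - x (ρ.erase v) (s v w)) else 0

private lemma sl2hC_chain (G : SimpleGraph V) (Y : X → Finset V) (s : V → X → X)
    (hs : IsSpec G Y s) (ν : V → ℕ) (i : ℕ) {x : Finset V → X → ℂ}
    (hx : IsL2S G Y s i x) : IsL2S G Y s (i + 1) (sl2hC G Y s ν i x) where
  supp σ w h := by
    unfold sl2hC at h
    by_contra hcon
    rw [if_neg hcon] at h
    exact h rfl
  anti ρ u hu w := by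
    unfold sl2hC
    by_cases hρ : ρ ⊆ Y w ∧ G.IsClique (ρ : Set V) ∧ ρ.card = i + 1
    · have hCl : Pool.Agent.H85.Fold.Cl G ρ := fun a ha b hb hab => hρ.2.1 ha hb hab
      have hρ' : ρ ⊆ Y (s u w) ∧ G.IsClique (ρ : Set V) ∧ ρ.card = i + 1 :=
        ⟨hs.sub hCl hu hρ.1, hρ.2⟩
      rw [if_pos hρ, if_pos hρ', ← Finset.sum_neg_distrib]
      refine Finset.sum_congr rfl fun v hv => ?_
      by_cases huv : v = u
      · subst huv
        rw [hs.inv]
        ring
      · have hadj : G.Adj u v := hρ.2.1 hu hv (Ne.symm huv)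
        have hmem : u ∈ ρ.erase v := Finset.mem_erase.2 ⟨Ne.symm huv, hu⟩
        rw [hx.anti _ u hmem, ← hs.comm u v hadj, hx.anti _ u hmem]
        ring
    · have hρ' : ¬ (ρ ⊆ Y (s u w) ∧ G.IsClique (ρ : Set V) ∧ ρ.card = i + 1) := by
        rintro ⟨h1, h2, h3⟩
        have hCl : Pool.Agent.H85.Fold.Cl G ρ := fun a ha b hb hab => h2 ha hb hab
        exact hρ ⟨(hs.sub_iff hCl hu).1 h1, h2, h3⟩
      rw [if_neg hρ, if_neg hρ', neg_zero]
  l2 ρ := by
    have h1 : Summable fun w => ‖∑ v ∈ ρ, (-1 : ℂ) ^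
        ((ρ.erase v).filter fun u => ν u < ν v).card *
          (x (ρ.erase v) w - x (ρ.erase v) (s v w))‖ ^ 2 := by
      refine l2h_sum _ _ fun v _ => l2h_mul _ (l2h_sub (hx.l2 _) ?_)
      exact (show Function.Involutive (s v) from hs.inv v).toPerm.summable_iff
        (f := fun w => ‖x (ρ.erase v) w‖ ^ 2) |>.2 (hx.l2 _)
    refine h1.of_nonneg_of_le (fun w => sq_nonneg _) fun w => ?_
    unfold sl2hC
    split_ifs
    · exact le_refl _
    · rw [norm_zero, zero_pow two_ne_zero]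
      exact sq_nonneg _

private lemma sl2h_harm (G : SimpleGraph V) (Y : X → Finset V) (s : V → X → X)
    (hs : IsSpec G Y s) (ν : V → ℕ) (i : ℕ)
    (h : lp (fun _ : Finset V × X => ℂ) 2) (hT : h ∈ sl2hT G Y s ν i)
    (hperp : ∀ e ∈ sl2hB G Y s ν i, inner ℂ h e = 0) : IsHarmS G Y s ν i (fun σ w => h (σ, w)) := by
  classical
  obtain ⟨x, hx⟩ : ∃ x : Finset V → X → ℂ, x = fun σ w => h (σ, w) := ⟨_, rfl⟩
  have hxa : ∀ σ w, h (σ, w) = x σ w := fun σ w => by rw [hx]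
  rw [← hx]
  obtain ⟨hT1, hT2, hT3⟩ := hT
  have hxc : IsL2S G Y s i x :=
    { supp := fun σ w hne => by
        by_contra hcon
        apply hne
        rw [← hxa]
        exact hT1 σ w hcon
      anti := fun σ v hv w => by
        rw [← hxa, ← hxa]
        exact hT2 σ v hv w
      l2 := fun σ => by
        have := l2h_slice h σ
        simp only [hxa] at this
        exact this }
  have hcyc : bdry ν x = 0 := by
    funext τ w
    have := hT3 τ w
    simp only [hxa] at this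
    exact this
  obtain ⟨c, hc⟩ : ∃ c, c = sl2hC G Y s ν i x := ⟨_, rfl⟩
  have hcc : IsL2S G Y s (i + 1) c := by
    rw [hc]
    exact sl2hC_chain G Y s hs ν i hxc
  obtain ⟨dE, hdEa⟩ : ∃ dE : lp (fun _ : Finset V × X => ℂ) 2,
      ∀ σ w, dE (σ, w) = bdry ν c σ w :=
    ⟨⟨fun p => bdry ν c p.1 p.2, l2h_prod (bdry ν c) (sl2h_dbd_l2 ν hcc.l2)⟩, fun _ _ => rfl⟩
  have hdE : dE ∈ sl2hB G Y s ν i := ⟨c, hcc, hdEa⟩
  have hinner : inner ℂ h dE = 0 := hperp dE hdE
  rw [l2h_inner h dE] at hinner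
  have key := adj_identity s hs.inv ν x c hxc.l2 hcc.l2 hcc.anti
  have e1 : ∑ τ : Finset V, ∑' w, (starRingEnd ℂ) (x τ w) *
      (∑ v ∈ τᶜ, (-1 : ℂ) ^ (τ.filter fun u => ν u < ν v).card * c (insert v τ) w) = 0 := by
    rw [← hinner]
    refine Finset.sum_congr rfl fun τ _ => tsum_congr fun w => ?_
    rw [hdEa, hxa]
    rfl
  rw [e1] at key
  have e2 : ∀ ρ w, (starRingEnd ℂ)
        (∑ v ∈ ρ, (-1 : ℂ) ^ ((ρ.erase v).filter fun u => ν u < ν v).card *
          (x (ρ.erase v) w - x (ρ.erase v) (s v w))) * c ρ w = ((‖c ρ w‖ ^ 2 : ℝ) : ℂ) := by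
    intro ρ w
    have hsq : ∀ z : ℂ, (starRingEnd ℂ) z * z = ((‖z‖ ^ 2 : ℝ) : ℂ) := by
      intro z
      rw [mul_comm, Complex.mul_conj, Complex.normSq_eq_norm_sq]
    by_cases hρ : ρ ⊆ Y w ∧ G.IsClique (ρ : Set V) ∧ ρ.card = i + 1
    · have : c ρ w = ∑ v ∈ ρ, (-1 : ℂ) ^ ((ρ.erase v).filter fun u => ν u < ν v).card *
          (x (ρ.erase v) w - x (ρ.erase v) (s v w)) := by
        simp only [hc, sl2hC]
        rw [if_pos hρ]
      rw [← this]
      exact hsq _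
    · have : c ρ w = 0 := by
        simp only [hc, sl2hC]
        rw [if_neg hρ]
      rw [this]
      simp
  simp only [e2] at key
  have key2 : ∑ ρ : Finset V, ∑' w, ((‖c ρ w‖ ^ 2 : ℝ) : ℂ) = 0 := by
    have h2 : (1 / 2 : ℂ) ≠ 0 := by norm_num
    exact (mul_eq_zero.1 key.symm).resolve_left h2
  simp only [← Complex.ofReal_tsum, ← Complex.ofReal_sum] at key2
  have key3 : ∑ ρ : Finset V, ∑' w, ‖c ρ w‖ ^ 2 = 0 := by exact_mod_cast key2
  have hc0 : ∀ ρ w, c ρ w = 0 := by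
    intro ρ w
    have h1 := (Finset.sum_eq_zero_iff_of_nonneg
      (fun ρ _ => tsum_nonneg fun w => sq_nonneg ‖c ρ w‖)).1 key3 ρ (mem_univ ρ)
    have h2 := (hcc.l2 ρ).hasSum
    rw [h1] at h2
    have h3 := (hasSum_zero_iff_of_nonneg fun w => sq_nonneg ‖c ρ w‖).1 h2
    have h4 := congrFun h3 w
    simpa using h4
  exact
    { chain := hxc
      cyc := hcyc
      cocyc := fun ρ w h0 h1 h2 => by
        have h3 := hc0 ρ w
        simp only [hc, sl2hC] at h3
        rw [if_pos ⟨h0, h1, h2⟩] at h3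
        exact h3 }

private lemma sl2h_closure (G : SimpleGraph V) (Y : X → Finset V) (s : V → X → X)
    (hs : IsSpec G Y s) (ν : V → ℕ)
    (hν : Function.Injective ν) (i : ℕ)
    (h0 : ∀ x : Finset V → X → ℂ, IsHarmS G Y s ν i x → x = 0)
    (zE : lp (fun _ : Finset V × X => ℂ) 2) (hzT : zE ∈ sl2hT G Y s ν i) :
    zE ∈ (sl2hB G Y s ν i).topologicalClosure := by
  obtain ⟨B, hB⟩ : ∃ B, B = (sl2hB G Y s ν i).topologicalClosure := ⟨_, rfl⟩
  rw [← hB]
  have hcl : IsClosed (B : Set (lp (fun _ : Finset V × X => ℂ) 2)) := by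
    rw [hB]
    exact (sl2hB G Y s ν i).isClosed_topologicalClosure
  have : CompleteSpace B := hcl.completeSpace_coe
  have hBT : B ≤ sl2hT G Y s ν i := by
    rw [hB]
    exact Submodule.topologicalClosure_minimal _ (sl2hB_le G Y s ν hν i) (sl2hT_closed G Y s ν i)
  have hBB : sl2hB G Y s ν i ≤ B := by
    rw [hB]
    exact Submodule.le_topologicalClosure _
  obtain ⟨b, hb⟩ : ∃ b, b = B.starProjection zE := ⟨_, rfl⟩
  have hbB : b ∈ B := by
    rw [hb]
    exact Submodule.starProjection_apply_mem B zE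
  have hperp : zE - b ∈ Bᗮ := by
    rw [hb]
    exact Submodule.sub_starProjection_mem_orthogonal zE
  have hT : zE - b ∈ sl2hT G Y s ν i := (sl2hT G Y s ν i).sub_mem hzT (hBT hbB)
  have hharm := sl2h_harm G Y s hs ν i (zE - b) hT
    (fun e he => (Submodule.mem_orthogonal' B (zE - b)).1 hperp e (hBB he))
  have hx0 := h0 _ hharm
  have hh0 : zE - b = 0 := by
    ext p
    exact congrFun (congrFun hx0 p.1) p.2
  rw [sub_eq_zero] at hh0
  rw [hh0]
  exact hbB

end Hodge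

/-- **Hodge decomposition.** -/
theorem hodgeS {V X : Type} [Fintype V] [DecidableEq V] (G : SimpleGraph V)
    (Y : X → Finset V) (s : V → X → X) (hs : IsSpec G Y s) (ν : V → ℕ)
    (hν : Function.Injective ν) (i : ℕ)
    (h0 : ∀ x : Finset V → X → ℂ, IsHarmS G Y s ν i x → x = 0)
    (z : Finset V → X → ℂ) (hz : IsL2S G Y s i z) (hdz : bdry ν z = 0) (ε : ℝ) (hε : 0 < ε) :
    ∃ y : Finset V → X → ℂ, IsL2S G Y s (i + 1) y ∧
      ∑ σ, ∑' w, ‖z σ w - bdry ν y σ w‖ ^ 2 < ε := by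
  obtain ⟨zE, hzE⟩ : ∃ zE : lp (fun _ : Finset V × X => ℂ) 2, ∀ σ w, zE (σ, w) = z σ w :=
    ⟨⟨fun p => z p.1 p.2, l2h_prod z hz.l2⟩, fun _ _ => rfl⟩
  have hzT : zE ∈ sl2hT G Y s ν i := by
    refine ⟨fun σ w h => ?_, fun σ v hv w => ?_, fun τ w => ?_⟩
    · rw [hzE]
      by_contra hne
      exact h (hz.supp σ w hne)
    · rw [hzE, hzE]
      exact hz.anti σ v hv w
    · simp only [hzE]
      exact congrFun (congrFun hdz τ) w
  have hcl : zE ∈ closure (sl2hB G Y s ν i : Set (lp (fun _ : Finset V × X => ℂ) 2)) :=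
    sl2h_closure G Y s hs ν hν i h0 zE hzT
  rw [Metric.mem_closure_iff] at hcl
  obtain ⟨e, ⟨y, hy, hey⟩, hdist⟩ := hcl (Real.sqrt ε) (Real.sqrt_pos.2 hε)
  refine ⟨y, hy, ?_⟩
  rw [dist_eq_norm] at hdist
  have hn := l2h_norm (zE - e)
  have e3 : ∑ σ, ∑' w, ‖z σ w - bdry ν y σ w‖ ^ 2 = ∑ σ, ∑' w, ‖(zE - e) (σ, w)‖ ^ 2 := by
    refine Finset.sum_congr rfl fun σ _ => tsum_congr fun w => ?_
    have e4 : (zE - e) (σ, w) = zE (σ, w) - e (σ, w) := rfl
    rw [e4, hzE, hey]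
  rw [e3, ← hn]
  calc ‖zE - e‖ ^ 2 < Real.sqrt ε ^ 2 := pow_lt_pow_left₀ hdist (norm_nonneg _) two_ne_zero
    _ = ε := Real.sq_sqrt hε.le

end Pool.Agent.H19.Cub
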