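import Pool.Agent.H19.Cub.Frame
import Pool.Agent.H85.Fold.Sphere

/-!
# Project MC: the folding matrix of a sphere is nondegenerate

Let `σ` be a clique with `n` elements (it exists: `hG.top` for `ρ = ∅`, `j = n`, `o ≠ 0`). For `v ∈ σ` there is a
vertex `w v ≠ v` adjacent to all elements of `σ` different from `v`: `hG.top` for `ρ = σ.erase v`, `j = 1` gives a
chain `o ≠ 0` on one-element sets with `bd ν o = 0`, that is `∑_x o {x} = 0`, so `o` is nonzero at
at least two points; both are adjacent to all of `σ.erase v`; one of them is different from `v`. `w v` is not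
adjacent to `v` (otherwise `insert (w v) σ` is a clique with `n + 1` elements; `w v ∉ σ`). So `T v (w v) < 0`
and `T u (w v) = 0` for `u ∈ σ`, `u ≠ v`.
Let `z` be in the radical. The space `E` of the functions supported on `σ` is isotropic (`T = 0` on
`σ × σ`) of dimension `n`. If `z` is supported on `σ` then `0 = ∑ u, z u * T u (w v) = z v * T v (w v)` for
`v ∈ σ`, so `z = 0`. Otherwise `E + ℝ z` has dimension `n + 1` and is isotropic; it contains a nonzero
vector `f` with `∑ φ k w * f w = 0` for all `k < n`, but `qf T f f = 0`, a contradiction to `hneg`.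
-/

set_option autoImplicit false

open Finset

namespace Pool.Agent.H19.Cub

open Pool.Agent.H85.Fold

section

variable {W : Type} [DecidableEq W] [Fintype W] {G : SimpleGraph W} {n : ℕ}

/-- a clique with `n` elements -/
private theorem exists_top (hG : IsHomologySphere G n) : ∃ σ : Finset W, Cl G σ ∧ σ.card = n := by
  obtain ⟨ν, hν⟩ : ∃ ν : W → ℕ, Function.Injective ν :=
    ⟨fun w => (Fintype.equivFin W w).val, fun a b h => (Fintype.equivFin W).injective (Fin.ext h)⟩
  obtain ⟨o, h1, -, h3, -⟩ := hG.top ν hν ∅ (fun u hu => absurd hu (Finset.notMem_empty u)) n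
    (by rw [card_empty, add_zero])
  obtain ⟨σ, hσ⟩ : ∃ σ, o σ ≠ 0 := by
    by_contra h
    push Not at h
    exact h3 (funext h)
  obtain ⟨-, h4, h5⟩ := h1 σ hσ
  rw [union_empty] at h4
  exact ⟨σ, h4, h5⟩

/-- the other vertex at a facet of a clique with `n` elements -/
private theorem exists_other (hG : IsHomologySphere G n) {σ : Finset W} (hσ : Cl G σ)
    (hn : σ.card = n) {v : W} (hv : v ∈ σ) :
    ∃ w, w ≠ v ∧ ¬ G.Adj v w ∧ w ∉ σ ∧ ∀ u ∈ σ, u ≠ v → G.Adj u w := by
  obtain ⟨ν, hν⟩ : ∃ ν : W → ℕ, Function.Injective ν :=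
    ⟨fun w => (Fintype.equivFin W w).val, fun a b h => (Fintype.equivFin W).injective (Fin.ext h)⟩
  have hcl : Cl G (σ.erase v) := fun a ha b hb hab =>
    hσ a (mem_of_mem_erase ha) b (mem_of_mem_erase hb) hab
  have hpos : 0 < σ.card := card_pos.2 ⟨v, hv⟩
  obtain ⟨o, h1, h2, h3, -⟩ := hG.top ν hν (σ.erase v) hcl 1
    (by rw [card_erase_of_mem hv]; omega)
  have hsum : ∑ x : W, o {x} = 0 := by
    have h4 := congrFun h2 ∅
    have h5 : bd ν o ∅ = ∑ x : W, o {x} := by
      change ∑ x ∈ (∅ : Finset W)ᶜ, sgn ν x ∅ • o (insert x ∅) = _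
      rw [compl_empty]
      refine Finset.sum_congr rfl fun x _ => ?_
      have : sgn ν x (∅ : Finset W) = 1 := by
        unfold sgn
        simp
      rw [this, one_smul]
      rfl
    rw [h5] at h4
    exact h4
  obtain ⟨x, hx⟩ : ∃ x, o {x} ≠ 0 := by
    by_contra h
    push Not at h
    apply h3
    funext τ
    by_contra h4
    obtain ⟨-, -, h5⟩ := h1 τ h4
    obtain ⟨y, rfl⟩ := card_eq_one.1 h5
    exact h4 (h y)
  obtain ⟨y, hyx, hy⟩ : ∃ y, y ≠ x ∧ o {y} ≠ 0 := by
    by_contra h
    push Not at h
    rw [Finset.sum_eq_single x (fun y _ hyx => h y hyx) (fun h => absurd (mem_univ x) h)] at hsum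
    exact hx hsum
  obtain ⟨w, hwv, hw⟩ : ∃ w, w ≠ v ∧ o {w} ≠ 0 := by
    by_cases h : x = v
    · exact ⟨y, fun h' => hyx (h'.trans h.symm), hy⟩
    · exact ⟨x, h, hx⟩
  obtain ⟨h4, h5, -⟩ := h1 {w} hw
  have h6 : w ∉ σ.erase v := Finset.disjoint_singleton_left.1 h4
  have hwσ : w ∉ σ := fun h => h6 (mem_erase.2 ⟨hwv, h⟩)
  have hadj : ∀ u ∈ σ, u ≠ v → G.Adj u w := by
    intro u hu huv
    exact h5 u (mem_union_right _ (mem_erase.2 ⟨huv, hu⟩)) w
      (mem_union_left _ (mem_singleton_self w)) (fun h => hwσ (h ▸ hu))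
  refine ⟨w, hwv, fun hvw => ?_, hwσ, hadj⟩
  have hcl' : Cl G (insert w σ) := by
    intro a ha b hb hab
    have hwa : ∀ c ∈ σ, G.Adj c w := by
      intro c hc
      by_cases hcv : c = v
      · rw [hcv]
        exact hvw
      · exact hadj c hc hcv
    rcases mem_insert.1 ha with ha' | ha'
    · rcases mem_insert.1 hb with hb' | hb'
      · exact absurd (ha'.trans hb'.symm) hab
      · rw [ha']
        exact (hwa b hb').symm
    · rcases mem_insert.1 hb with hb' | hb'
      · rw [hb']
        exact hwa a ha'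
      · exact hσ a ha' b hb' hab
  have := hG.dim _ hcl'
  rw [card_insert_of_notMem hwσ] at this
  omega

end

theorem nondeg_of_sphere {W : Type} [DecidableEq W] [Fintype W] (G : SimpleGraph W) (n : ℕ)
    (hG : IsHomologySphere G n) (T : W → W → ℝ) (hs : ∀ u v, T u v = T v u)
    (h0 : ∀ u v, u = v ∨ G.Adj u v → T u v = 0) (h1 : ∀ u v, u ≠ v → ¬ G.Adj u v → T u v < 0)
    (φ : Fin n → W → ℝ)
    (hneg : ∀ f : W → ℝ, f ≠ 0 → (∀ k, ∑ w, φ k w * f w = 0) → qf T f f < 0) :
    ∀ z : W → ℝ, (∀ w, ∑ u, z u * T u w = 0) → z = 0 := by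
  intro z hz
  obtain ⟨σ, hσ, hn⟩ := exists_top hG
  -- `z` is supported on `σ`
  have hsupp : ∀ x, x ∉ σ → z x = 0 := by
    by_contra hne
    push Not at hne
    obtain ⟨x, hxσ, hx⟩ := hne
    obtain ⟨e⟩ : Nonempty ({y // y ∈ σ} ≃ Fin n) := by
      rw [← hn]
      exact ⟨σ.equivFin⟩
    -- the vectors
    set g : Option {y // y ∈ σ} → W → ℝ := fun y => match y with
      | none => z
      | some y => Pi.single y.1 1 with hg
    set F : (Option {y // y ∈ σ} → ℝ) →ₗ[ℝ] (Fin n → ℝ) := LinearMap.pi fun k =>
      ∑ y, (∑ w, φ k w * g y w) • LinearMap.proj y with hF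
    have hFk : ∀ c k, F c k = ∑ w, φ k w * (∑ y, c y • g y) w := by
      intro c k
      rw [hF, LinearMap.pi_apply, LinearMap.sum_apply]
      have : ∀ w, φ k w * (∑ y, c y • g y) w = ∑ y, c y * (φ k w * g y w) := by
        intro w
        rw [Finset.sum_apply, Finset.mul_sum]
        refine Finset.sum_congr rfl fun i _ => ?_
        rw [Pi.smul_apply, smul_eq_mul]
        ring
      simp only [this]
      rw [Finset.sum_comm]
      refine Finset.sum_congr rfl fun i _ => ?_
      rw [LinearMap.smul_apply, LinearMap.proj_apply, smul_eq_mul, ← Finset.mul_sum, mul_comm]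
    have hker : LinearMap.ker F ≠ ⊥ := F.ker_ne_bot_of_finrank_lt (by
      rw [Module.finrank_fin_fun, Module.finrank_fintype_fun_eq_card, Fintype.card_option,
        Fintype.card_congr e, Fintype.card_fin]
      omega)
    obtain ⟨c, hc, hc0⟩ := Submodule.exists_mem_ne_zero_of_ne_bot hker
    rw [LinearMap.mem_ker] at hc
    set f : W → ℝ := ∑ y, c y • g y with hf
    have hfx : ∀ w, f w = c none * z w + if h : w ∈ σ then c (some ⟨w, h⟩) else 0 := by
      intro w
      rw [hf, Finset.sum_apply, Fintype.sum_option]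
      congr 1
      by_cases h : w ∈ σ
      · rw [dif_pos h, Finset.sum_eq_single ⟨w, h⟩]
        · rw [Pi.smul_apply, smul_eq_mul]
          change c _ * (Pi.single w 1 : W → ℝ) w = _
          rw [Pi.single_eq_same, mul_one]
        · intro y _ hy
          rw [Pi.smul_apply, smul_eq_mul]
          change c _ * (Pi.single y.1 1 : W → ℝ) w = _
          rw [Pi.single_eq_of_ne (fun h' => hy (Subtype.ext h'.symm)), mul_zero]
        · exact fun h' => absurd (mem_univ _) h'
      · rw [dif_neg h]
        refine Finset.sum_eq_zero fun y _ => ?_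
        rw [Pi.smul_apply, smul_eq_mul]
        change c _ * (Pi.single y.1 1 : W → ℝ) w = _
        have hwy : w ≠ y.1 := by
          rintro rfl
          exact h y.2
        rw [Pi.single_eq_of_ne hwy, mul_zero]
    have hf0 : f ≠ 0 := by
      intro hf0
      have h2 := hfx x
      rw [hf0, dif_neg hxσ, add_zero] at h2
      have h3 : c none = 0 := (mul_eq_zero.1 h2.symm).resolve_right hx
      apply hc0
      funext y
      rcases y with _ | y
      · exact h3
      · have h4 := hfx y.1
        rw [hf0, h3, zero_mul, zero_add, dif_pos y.2] at h4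
        exact h4.symm
    have hq : qf T f f = 0 := by
      -- `f = c none • z + h`
      have h2 : ∀ w, ∑ u, f u * T u w = ∑ u, (if h : u ∈ σ then c (some ⟨u, h⟩) else 0) * T u w := by
        intro w
        have : ∀ u, f u * T u w = c none * (z u * T u w) +
            (if h : u ∈ σ then c (some ⟨u, h⟩) else 0) * T u w := by
          intro u
          rw [hfx u]
          ring
        simp only [this]
        rw [Finset.sum_add_distrib, ← Finset.mul_sum, hz w, mul_zero, zero_add]
      have h3 : ∀ w ∈ σ, ∑ u, f u * T u w = 0 := by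
        intro w hw
        rw [h2 w]
        refine Finset.sum_eq_zero fun u _ => ?_
        by_cases hu : u ∈ σ
        · have : T u w = 0 := by
            apply h0
            by_cases huw : u = w
            · exact Or.inl huw
            · exact Or.inr (hσ u hu w hw huw)
          rw [this, mul_zero]
        · rw [dif_neg hu, zero_mul]
      unfold qf
      rw [Finset.sum_comm]
      have h4 : ∀ w, ∑ u, f u * f w * T u w = f w * ∑ u, f u * T u w := by
        intro w
        rw [Finset.mul_sum]
        refine Finset.sum_congr rfl fun u _ => ?_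
        ring
      simp only [h4]
      have h5 : ∀ w, f w * ∑ u, f u * T u w = c none * (z w * ∑ u, f u * T u w) := by
        intro w
        rw [hfx w]
        by_cases hw : w ∈ σ
        · rw [h3 w hw]
          ring
        · rw [dif_neg hw]
          ring
      simp only [h5]
      rw [← Finset.mul_sum]
      have h6 : ∑ w, z w * ∑ u, f u * T u w = ∑ u, f u * ∑ w, z w * T w u := by
        simp only [Finset.mul_sum]
        rw [Finset.sum_comm]
        refine Finset.sum_congr rfl fun u _ => Finset.sum_congr rfl fun w _ => ?_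
        rw [hs u w]
        ring
      rw [h6]
      simp only [hz, mul_zero, Finset.sum_const_zero]
    have := hneg f hf0 fun k => by rw [← hFk, hc]; rfl
    rw [hq] at this
    exact absurd this (lt_irrefl _)
  funext v
  by_cases hv : v ∈ σ
  · obtain ⟨w, hwv, hnadj, -, hadj⟩ := exists_other hG hσ hn hv
    have h2 := hz w
    rw [Finset.sum_eq_single v] at h2
    · exact (mul_eq_zero.1 h2).resolve_right (h1 v w (Ne.symm hwv) hnadj).ne
    · intro u _ huv
      by_cases hu : u ∈ σ
      · rw [h0 u w (Or.inr (hadj u hu huv)), mul_zero]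
      · rw [hsupp u hu, zero_mul]
    · exact fun h => absurd (mem_univ v) h
  · exact hsupp v hv

end Pool.Agent.H19.Cub
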