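import Pool.Agent.H19.Cub.Defs
import Pool.Agent.H19.Cub.Dot
import Pool.Agent.H19.Cub.Nondeg
import Pool.Agent.H85.Fold.MainA
import Pool.Agent.H85.Fold.SysFold

/-!
# Project MC: the local complexes are exact

`hv_sub`: transport of `HV` from the subtype of `U` to `V` (compare `Pool.Agent.H85.Fold2.Embed` and
`hvr_embed` in project FC): a chain `c` on `V` with supports in `Y ⊆ U` gives the chain
`c' τ = c (τ.map (Embedding.subtype _))` on the subtype; pull the solution back and extend by zero.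
The numbering of the subtype is `fun v => ν v.1`.

`loc_HV`: `H = G.comap Subtype.val` on `W = {v // v ∈ U}`, `T' u v = T u.1 v.1`. Restricting the functionals
of `hU.ndef` to `U` and extending functions on `W` by zero, `T'` satisfies the hypotheses of
`nondeg_of_sphere` and `exists_frame`: get `b`, `b'`, `p`, `a`. Put `γ i = ∑ w, b i w • e w.1`,
`η j = ∑ w, b' j w • e w.1`. By `he`: `γ i γ j + γ j γ i = 2 qf T' (b i) (b j)` etc., so `γ`, `η` satisfy the
hypotheses of `exists_dot`: get `dot` with `IsClMod dot γ η`. The last property of the frame gives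
`e w.1 = ev γ η p a w`, and `T' w w' = p w ⬝ᵥ p w' - a w ⬝ᵥ a w'` (evaluate the form on unit vectors), so
`IsFold H n p a` (the span of the `p w` has dimension `≤ n' ≤ n`; `zero`, `neg` from `hT.zero`, `hU.neg`). With
`hU.sphere.isSphere` get `o`, `exists_sys` gives a system, and `pk_all` gives `HV` for `H`: for all `Y' ⊆ univ`
if `n < 2 i`, for `univ` if `2 i ≠ n`. Transport by `hv_sub`.
-/

set_option autoImplicit false
set_option linter.unusedSectionVars false

open Finset

namespace Pool.Agent.H19.Cub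

open Pool.Agent.H85.Fold

variable {V : Type} [DecidableEq V] [Fintype V] {S : Type} [AddCommGroup S] [Module ℝ S]

section

variable {U : Finset V}

/-- the embedding of the subtype -/
private def emb0 (U : Finset V) : {v // v ∈ U} ↪ V := ⟨Subtype.val, Subtype.val_injective⟩

private theorem mem_emb0 {τ : Finset {v // v ∈ U}} {v : V} :
    v ∈ τ.map (emb0 U) ↔ ∃ h : v ∈ U, (⟨v, h⟩ : {v // v ∈ U}) ∈ τ := by
  rw [mem_map]
  constructor
  · rintro ⟨w, hw, rfl⟩
    exact ⟨w.2, hw⟩
  · rintro ⟨h, hτ⟩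
    exact ⟨⟨v, h⟩, hτ, rfl⟩

private theorem emb0_subset (τ : Finset {v // v ∈ U}) : τ.map (emb0 U) ⊆ U := by
  intro v hv
  obtain ⟨h, -⟩ := mem_emb0.1 hv
  exact h

/-- the preimage -/
private def pr0 (U : Finset V) (σ : Finset V) : Finset {v // v ∈ U} := univ.filter fun w => w.1 ∈ σ

private theorem mem_pr0 {σ : Finset V} {w : {v // v ∈ U}} : w ∈ pr0 U σ ↔ w.1 ∈ σ := by
  unfold pr0
  rw [mem_filter]
  exact ⟨fun h => h.2, fun h => ⟨mem_univ _, h⟩⟩

private theorem map_pr0 {σ : Finset V} (hσ : σ ⊆ U) : (pr0 U σ).map (emb0 U) = σ := by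
  ext v
  rw [mem_emb0]
  constructor
  · rintro ⟨h, h1⟩
    exact mem_pr0.1 h1
  · intro hv
    exact ⟨hσ hv, mem_pr0.2 hv⟩

private theorem pr0_map (τ : Finset {v // v ∈ U}) : pr0 U (τ.map (emb0 U)) = τ := by
  ext w
  rw [mem_pr0, mem_emb0]
  constructor
  · rintro ⟨h, h1⟩
    exact h1
  · intro h
    exact ⟨w.2, h⟩

private theorem sgn_emb0 (ν : V → ℕ) (w : {v // v ∈ U}) (τ : Finset {v // v ∈ U}) :
    sgn ν w.1 (τ.map (emb0 U)) = sgn (fun v : {v // v ∈ U} => ν v.1) w τ := by
  unfold sgn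
  rw [filter_map, card_map]
  rfl

private theorem bd_emb0 (ν : V → ℕ) (c : Finset V → S) (hc : ∀ σ, c σ ≠ 0 → σ ⊆ U)
    (τ : Finset {v // v ∈ U}) :
    bd ν c (τ.map (emb0 U)) =
      bd (fun v : {v // v ∈ U} => ν v.1) (fun τ => c (τ.map (emb0 U))) τ := by
  change ∑ v ∈ (τ.map (emb0 U))ᶜ, sgn ν v (τ.map (emb0 U)) • c (insert v (τ.map (emb0 U))) =
    ∑ w ∈ τᶜ, sgn (fun v : {v // v ∈ U} => ν v.1) w τ • c ((insert w τ).map (emb0 U))
  have h1 : τᶜ.map (emb0 U) ⊆ (τ.map (emb0 U))ᶜ := by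
    intro v hv
    obtain ⟨h, h2⟩ := mem_emb0.1 hv
    rw [mem_compl] at h2 ⊢
    intro h3
    obtain ⟨h4, h5⟩ := mem_emb0.1 h3
    exact h2 h5
  rw [← Finset.sum_subset h1, Finset.sum_map]
  · refine Finset.sum_congr rfl fun w _ => ?_
    rw [map_insert]
    exact congrArg₂ _ (sgn_emb0 ν w τ) rfl
  · intro v hv hv'
    by_contra hne
    have h2 : c (insert v (τ.map (emb0 U))) ≠ 0 := by
      intro h0
      exact hne (by rw [h0, smul_zero])
    have h3 : v ∈ U := hc _ h2 (mem_insert_self _ _)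
    apply hv'
    rw [mem_emb0]
    refine ⟨h3, ?_⟩
    rw [mem_compl]
    intro h4
    exact (mem_compl.1 hv) (mem_emb0.2 ⟨h3, h4⟩)

end

theorem hv_sub (ν : V → ℕ) (G : SimpleGraph V) (e : V → S →ₗ[ℝ] S) (U Y : Finset V)
    (hY : Y ⊆ U) (i : ℕ)
    (h : HV (fun v : {v // v ∈ U} => ν v.1) (G.comap (Subtype.val : {v // v ∈ U} → V))
      (fun v => e v.1) ⊤ (univ.filter fun v => v.1 ∈ Y) i) : HV ν G e ⊤ Y i := by
  classical
  intro c hc hbd
  have hcU : ∀ σ, c σ ≠ 0 → σ ⊆ U := fun σ hσ => (hc.supp σ hσ).1.trans hY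
  obtain ⟨y, hy, hyb⟩ := h (fun τ => c (τ.map (emb0 U)))
    (by
      refine ⟨fun _ => Submodule.mem_top, fun τ w hw => ?_, fun τ hτ => ?_⟩
      · exact hc.ker _ w.1 (mem_emb0.2 ⟨w.2, hw⟩)
      · obtain ⟨h1, h2, h3⟩ := hc.supp _ hτ
        rw [card_map] at h3
        refine ⟨fun w hw => ?_, fun w hw w' hw' hww => ?_, h3⟩
        · rw [mem_filter]
          exact ⟨mem_univ _, h1 (mem_emb0.2 ⟨w.2, hw⟩)⟩
        · exact h2 w.1 (mem_emb0.2 ⟨w.2, hw⟩) w'.1 (mem_emb0.2 ⟨w'.2, hw'⟩)
            (fun h4 => hww (Subtype.ext h4)))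
    (by
      funext τ
      rw [← bd_emb0 ν c hcU τ, hbd]
      rfl)
  set y' : Finset V → S := fun σ => if σ ⊆ U then y (pr0 U σ) else 0 with hy'
  have hy1 : ∀ σ, σ ⊆ U → y' σ = y (pr0 U σ) := fun σ hσ => if_pos hσ
  have hy2 : ∀ σ, ¬ σ ⊆ U → y' σ = 0 := fun σ hσ => if_neg hσ
  have hyU : ∀ σ, y' σ ≠ 0 → σ ⊆ U := by
    intro σ hσ
    by_contra h1
    exact hσ (hy2 σ h1)
  refine ⟨y', ⟨fun _ => Submodule.mem_top, fun σ v hv => ?_, fun σ hσ => ?_⟩, ?_⟩
  · by_cases h1 : σ ⊆ U
    · rw [hy1 σ h1]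
      exact hy.ker (pr0 U σ) ⟨v, h1 hv⟩ (mem_pr0.2 hv)
    · rw [hy2 σ h1, map_zero]
  · have h1 := hyU σ hσ
    rw [hy1 σ h1] at hσ
    obtain ⟨h2, h3, h4⟩ := hy.supp _ hσ
    refine ⟨fun v hv => ?_, fun u hu v hv huv => ?_, ?_⟩
    · exact (mem_filter.1 (h2 (mem_pr0.2 hv : (⟨v, h1 hv⟩ : {v // v ∈ U}) ∈ pr0 U σ))).2
    · exact h3 ⟨u, h1 hu⟩ (mem_pr0.2 hu) ⟨v, h1 hv⟩ (mem_pr0.2 hv)
        (fun h5 => huv (congrArg Subtype.val h5))
    · rw [← h4, ← card_map (emb0 U), map_pr0 h1]
  · funext σ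
    by_cases h1 : σ ⊆ U
    · have h2 := bd_emb0 ν y' hyU (pr0 U σ)
      rw [map_pr0 h1] at h2
      have h3 : (fun τ : Finset {v // v ∈ U} => y' (τ.map (emb0 U))) = y := by
        funext τ
        rw [hy1 _ (emb0_subset τ), pr0_map]
      rw [h2, h3, hyb]
      change c ((pr0 U σ).map (emb0 U)) = c σ
      rw [map_pr0 h1]
    · have h2 : c σ = 0 := by
        by_contra h3
        exact h1 (hcU σ h3)
      rw [h2]
      change ∑ v ∈ σᶜ, sgn ν v σ • y' (insert v σ) = 0
      refine Finset.sum_eq_zero fun v _ => ?_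
      rw [hy2 _ (fun h3 => h1 ((subset_insert v σ).trans h3)), smul_zero]

section

variable {W : Type} [Fintype W]

private theorem qf_add_left' (T : W → W → ℝ) (f f' g : W → ℝ) :
    qf T (f + f') g = qf T f g + qf T f' g := by
  unfold qf
  rw [← Finset.sum_add_distrib]
  refine Finset.sum_congr rfl fun u _ => ?_
  rw [← Finset.sum_add_distrib]
  refine Finset.sum_congr rfl fun v _ => ?_
  rw [Pi.add_apply]
  ring

private theorem qf_add_right' (T : W → W → ℝ) (f g g' : W → ℝ) :
    qf T f (g + g') = qf T f g + qf T f g' := by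
  unfold qf
  rw [← Finset.sum_add_distrib]
  refine Finset.sum_congr rfl fun u _ => ?_
  rw [← Finset.sum_add_distrib]
  refine Finset.sum_congr rfl fun v _ => ?_
  rw [Pi.add_apply]
  ring

private theorem qf_smul_left' (T : W → W → ℝ) (c : ℝ) (f g : W → ℝ) :
    qf T (c • f) g = c • qf T f g := by
  unfold qf
  rw [smul_eq_mul, Finset.mul_sum]
  refine Finset.sum_congr rfl fun u _ => ?_
  rw [Finset.mul_sum]
  refine Finset.sum_congr rfl fun v _ => ?_
  rw [Pi.smul_apply, smul_eq_mul]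
  ring

private theorem qf_smul_right' (T : W → W → ℝ) (c : ℝ) (f g : W → ℝ) :
    qf T f (c • g) = c • qf T f g := by
  unfold qf
  rw [smul_eq_mul, Finset.mul_sum]
  refine Finset.sum_congr rfl fun u _ => ?_
  rw [Finset.mul_sum]
  refine Finset.sum_congr rfl fun v _ => ?_
  rw [Pi.smul_apply, smul_eq_mul]
  ring

/-- the bilinear form -/
private noncomputable def bq (T : W → W → ℝ) : (W → ℝ) →ₗ[ℝ] (W → ℝ) →ₗ[ℝ] ℝ :=
  LinearMap.mk₂ ℝ (qf T) (qf_add_left' T) (qf_smul_left' T) (qf_add_right' T) (qf_smul_right' T)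

private theorem bq_apply (T : W → W → ℝ) (f g : W → ℝ) : bq T f g = qf T f g := rfl

end

section

variable {W : Type} [Fintype W]

/-- linear combinations of the operators -/
private noncomputable def lin (e : W → S →ₗ[ℝ] S) (f : W → ℝ) : S →ₗ[ℝ] S := ∑ w, f w • e w

private theorem lin_apply (e : W → S →ₗ[ℝ] S) (f : W → ℝ) (x : S) :
    lin e f x = ∑ w, f w • e w x := by
  unfold lin
  rw [LinearMap.sum_apply]
  rfl

private theorem lin_anti (e : W → S →ₗ[ℝ] S) (T : W → W → ℝ)
    (he : ∀ u v x, e u (e v x) + e v (e u x) = (2 * T u v) • x) (f g : W → ℝ) (x : S) :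
    lin e f (lin e g x) + lin e g (lin e f x) = (2 * qf T f g) • x := by
  have h1 : lin e f (lin e g x) = ∑ u, ∑ v, (f u * g v) • e u (e v x) := by
    rw [lin_apply]
    refine Finset.sum_congr rfl fun u _ => ?_
    rw [lin_apply, map_sum, Finset.smul_sum]
    refine Finset.sum_congr rfl fun v _ => ?_
    rw [map_smul, smul_smul]
  have h2 : lin e g (lin e f x) = ∑ u, ∑ v, (f u * g v) • e v (e u x) := by
    rw [lin_apply, Finset.sum_comm]
    refine Finset.sum_congr rfl fun v _ => ?_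
    rw [lin_apply, map_sum, Finset.smul_sum]
    refine Finset.sum_congr rfl fun u _ => ?_
    rw [map_smul, smul_smul, mul_comm]
  rw [h1, h2, ← Finset.sum_add_distrib]
  unfold qf
  rw [Finset.mul_sum, Finset.sum_smul]
  refine Finset.sum_congr rfl fun u _ => ?_
  rw [← Finset.sum_add_distrib, Finset.mul_sum, Finset.sum_smul]
  refine Finset.sum_congr rfl fun v _ => ?_
  rw [← smul_add, he, smul_smul]
  congr 1
  ring

end

/-- sums over the subtype -/
private theorem sum_ext_zero (U : Finset V) (g : V → ℝ) (f : {v // v ∈ U} → ℝ) :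
    ∑ v, g v * (if h : v ∈ U then f ⟨v, h⟩ else 0) = ∑ w : {v // v ∈ U}, g w.1 * f w := by
  rw [← Finset.sum_subset (Finset.subset_univ U)]
  · rw [← Finset.sum_coe_sort U]
    refine Finset.sum_congr rfl fun w _ => ?_
    rw [dif_pos w.2]
  · intro v _ hv
    rw [dif_neg hv, mul_zero]

/-- the local complexes on the subtype -/
private theorem loc_sub [FiniteDimensional ℝ S] {W : Type} [DecidableEq W] [Fintype W]
    (ν : W → ℕ) (hν : Function.Injective ν) (H : SimpleGraph W) (n : ℕ)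
    (hH : IsHomologySphere H n) (T : W → W → ℝ) (hs : ∀ u v, T u v = T v u)
    (h0 : ∀ u v, u = v ∨ H.Adj u v → T u v = 0) (h1 : ∀ u v, u ≠ v → ¬ H.Adj u v → T u v < 0)
    (φ : Fin n → W → ℝ)
    (hneg : ∀ f : W → ℝ, f ≠ 0 → (∀ k, ∑ w, φ k w * f w = 0) → qf T f f < 0)
    (e : W → S →ₗ[ℝ] S) (he : ∀ u v x, e u (e v x) + e v (e u x) = (2 * T u v) • x) :
    (∀ Y : Finset W, ∀ i, n < 2 * i → HV ν H e ⊤ Y i) ∧
      ∀ i, 2 * i ≠ n → HV ν H e ⊤ univ i := by
  have hnd := nondeg_of_sphere H n hH T hs h0 h1 φ hneg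
  obtain ⟨n', m, b, b', p, a, hn', hb, hb', hbb, hrep⟩ := exists_frame T hs hnd n φ hneg
  set γ : Fin n' → S →ₗ[ℝ] S := fun i => lin e (b i) with hγ
  set η : Fin m → S →ₗ[ℝ] S := fun j => lin e (b' j) with hη
  have hhalf : ∀ x y : S, x + x = (2 : ℝ) • y → x = y := by
    intro x y hxy
    rw [← two_smul ℝ x] at hxy
    exact smul_right_injective S (two_ne_zero : (2 : ℝ) ≠ 0) hxy
  obtain ⟨dot, hcl⟩ := exists_dot γ η
    (fun i x => by
      have h2 := lin_anti e T he (b i) (b i) x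
      rw [hb, if_pos rfl, mul_one] at h2
      exact hhalf _ _ h2)
    (fun i x => by
      have h2 := lin_anti e T he (b' i) (b' i) x
      rw [hb', if_pos rfl, mul_neg, mul_one, neg_smul, ← smul_neg] at h2
      exact hhalf _ _ h2)
    (fun i j hij x => by
      have h2 := lin_anti e T he (b i) (b j) x
      rw [hb, if_neg hij, mul_zero, zero_smul] at h2
      exact eq_neg_of_add_eq_zero_left h2)
    (fun i j hij x => by
      have h2 := lin_anti e T he (b' i) (b' j) x
      rw [hb', if_neg hij, mul_zero, zero_smul] at h2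
      exact eq_neg_of_add_eq_zero_left h2)
    (fun i j x => by
      have h2 := lin_anti e T he (b i) (b' j) x
      rw [hbb, mul_zero, zero_smul] at h2
      exact eq_neg_of_add_eq_zero_left h2)
  -- the operators are the operators of the folding vectors
  have hev : ∀ w, ev γ η p a w = e w := by
    intro w
    unfold ev lc
    simp only [hγ, hη]
    have h2 : ∑ i, p w i • lin e (b i) + ∑ j, a w j • lin e (b' j) =
        ∑ u, (∑ i, p w i * b i u + ∑ j, a w j * b' j u) • e u := by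
      unfold lin
      simp only [Finset.smul_sum, add_smul, Finset.sum_smul, Finset.sum_add_distrib, smul_smul]
      rw [Finset.sum_comm]
      congr 1
      rw [Finset.sum_comm]
    rw [h2, Finset.sum_eq_single w]
    · rw [← hrep, if_pos rfl, one_smul]
    · intro u _ hu
      rw [← hrep, if_neg hu, zero_smul]
    · exact fun h => absurd (mem_univ w) h
  -- the matrix
  have hT : ∀ u v, T u v = p u ⬝ᵥ p v - a u ⬝ᵥ a v := by
    intro u v
    have e1 : qf T (fun x => if x = u then 1 else 0) (fun x => if x = v then 1 else 0) =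
        T u v := by
      unfold qf
      simp
    have e2 : ∀ w, (fun x => if x = w then 1 else 0 : W → ℝ) =
        ∑ i, p w i • b i + ∑ j, a w j • b' j := by
      intro w
      funext x
      rw [hrep w x, Pi.add_apply, Finset.sum_apply, Finset.sum_apply]
      rfl
    have hbb2 : ∀ i j, qf T (b' i) (b j) = 0 := by
      intro i j
      have h2 : qf T (b' i) (b j) = qf T (b j) (b' i) := by
        unfold qf
        rw [Finset.sum_comm]
        refine Finset.sum_congr rfl fun x _ => Finset.sum_congr rfl fun y _ => ?_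
        rw [hs]
        ring
      rw [h2, hbb]
    rw [← e1, e2 u, e2 v, ← bq_apply]
    simp only [map_add, LinearMap.add_apply, map_sum, LinearMap.sum_apply, map_smul,
      LinearMap.smul_apply, smul_eq_mul, bq_apply, hb, hb', hbb, hbb2, mul_zero,
      Finset.sum_const_zero, add_zero, zero_add, dotProduct, mul_ite, mul_one, mul_neg,
      Finset.sum_ite_eq', mem_univ, if_true, sub_eq_add_neg]
    rw [← Finset.sum_neg_distrib]
    congr 1
    · refine Finset.sum_congr rfl fun i _ => mul_comm _ _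
    · refine Finset.sum_congr rfl fun i _ => ?_
      ring
  have hfold : IsFold H n p a := by
    refine ⟨?_, fun u v huv => ?_, fun u v huv hadj => ?_⟩
    · refine le_trans (Submodule.finrank_le _) ?_
      rw [Module.finrank_fin_fun]
      exact hn'
    · have h2 := h0 u v huv
      rw [hT] at h2
      linarith
    · have h2 := h1 u v huv hadj
      rw [hT] at h2
      linarith
  obtain ⟨o, ho⟩ := hH.isSphere ν hν
  obtain ⟨ep, β, ε, κ, hsys⟩ := exists_sys hν ho hfold hcl
  have hev' : ev γ η p a = e := funext hev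
  rw [hev'] at hsys
  obtain ⟨h2, h3, -⟩ := pk_all ν H e ep _ n univ ⊤ β ε κ o hsys
  exact ⟨fun Y i hi => h2 Y (subset_univ Y) i hi, h3⟩

/-- **The local complexes are exact.** -/
theorem loc_HV [FiniteDimensional ℝ S] (ν : V → ℕ) (hν : Function.Injective ν)
    (G : SimpleGraph V) (T : V → V → ℤ) (hT : IsT G T) (e : V → S →ₗ[ℝ] S)
    (he : ∀ u v x, e u (e v x) + e v (e u x) = (2 * (T u v : ℝ)) • x) (i : ℕ) (Y : Finset V)
    (hY : GoodAt G T i Y) : HV ν G e ⊤ Y i := by
  obtain ⟨n, U, hU, hcase⟩ := hY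
  obtain ⟨φ, hφ⟩ := hU.ndef
  obtain ⟨h1, h2⟩ := loc_sub (fun v : {v // v ∈ U} => ν v.1)
    (fun u v huv => Subtype.ext (hν huv)) (G.comap (Subtype.val : {v // v ∈ U} → V)) n hU.sphere
    (fun u v => (T u.1 v.1 : ℝ)) (fun u v => by rw [hT.symm])
    (fun u v huv => by
      rw [hT.zero u.1 v.1 (huv.imp (fun h => congrArg Subtype.val h) (fun h => h)), Int.cast_zero])
    (fun u v huv hadj => by
      exact_mod_cast hU.neg u.1 u.2 v.1 v.2 (fun h => huv (Subtype.ext h)) hadj)
    (fun k w => φ k w.1)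
    (by
      intro f hf hk
      have h3 := hφ (fun v => if h : v ∈ U then f ⟨v, h⟩ else 0)
        (fun v hv => by
          by_contra h3
          exact hv (dif_neg h3))
        (fun h3 => hf (by
          funext w
          have h4 := congrFun h3 w.1
          rw [dif_pos w.2] at h4
          exact h4))
        (fun k => by
          rw [sum_ext_zero U (φ k) f]
          exact hk k)
      have h4 : ∑ u, ∑ v, (if h : u ∈ U then f ⟨u, h⟩ else 0) *
          (if h : v ∈ U then f ⟨v, h⟩ else 0) * (T u v : ℝ) =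
          qf (fun u v : {v // v ∈ U} => (T u.1 v.1 : ℝ)) f f := by
        unfold qf
        have h5 : ∀ u, ∑ v, (if h : u ∈ U then f ⟨u, h⟩ else 0) *
            (if h : v ∈ U then f ⟨v, h⟩ else 0) * (T u v : ℝ) =
            (∑ w : {v // v ∈ U}, (T u w.1 : ℝ) * f w) *
              (if h : u ∈ U then f ⟨u, h⟩ else 0) := by
          intro u
          rw [← sum_ext_zero U (fun v => (T u v : ℝ)) f, Finset.sum_mul]
          refine Finset.sum_congr rfl fun v _ => ?_
          ring
        rw [Finset.sum_congr rfl fun u _ => h5 u,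
          sum_ext_zero U (fun u => ∑ w : {v // v ∈ U}, (T u w.1 : ℝ) * f w) f]
        refine Finset.sum_congr rfl fun u _ => ?_
        rw [Finset.sum_mul]
        refine Finset.sum_congr rfl fun v _ => ?_
        ring
      rw [← h4]
      exact h3)
    (fun v => e v.1) (fun u v x => he u.1 v.1 x)
  rcases hcase with ⟨hYU, hi⟩ | ⟨rfl, hi⟩
  · exact hv_sub ν G e U Y hYU i (h1 _ i hi)
  · refine hv_sub ν G e Y Y (Finset.Subset.refl Y) i ?_
    have h3 : (univ.filter fun v : {v // v ∈ Y} => v.1 ∈ Y) = univ := by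
      ext v
      simp
    rw [h3]
    exact h2 i hi

end Pool.Agent.H19.Cub
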