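import Pool.Agent.H19.Cub.BMat
import Pool.Agent.H19.Cub.RealS
import Pool.Agent.H19.Cub.LocHV

/-!
# Project MC: an integer representation with exact twisted complexes

`exists_fermi (V × Fin 3)` gives `D`, `w`, `a`. `S = D → ℝ`, `e v = opM (eM w a T v)`, `g`, `c` as in `isPert_M`. By
`loc_HV` (with `opM_anti`) `HV ν G e ⊤ Y i` for all `Y` with `GoodAt G T i Y`. `tw_exactS` gives `t₀`; let
`N ≥ t₀` be a natural number and `ρ.A = bM w a T N` (`bM_sq`, `bM_comm`). Translate `SZ ≤ SB` into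
`tw_exactS` for `t = N` by `at_bM`; `tdl ℝ ν f = bd ν f` (see the end of the proof of `bmat_exact` in
`Pool.Agent.H85.Fold2.RealFold`).
-/

set_option autoImplicit false

open Finset

namespace Pool.Agent.H19.Cub

open Pool.Agent.H85.Fold Pool.Agent.H85.Fold2

/-- **Integer representations with exact twisted complexes.** -/
theorem exists_imodS {V : Type} [DecidableEq V] [Fintype V] (G : SimpleGraph V) (T : V → V → ℤ)
    (hT : IsT G T) (ν : V → ℕ) (hν : Function.Injective ν) (i : ℕ) :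
    ∃ ρ : IMod G, Nonempty ρ.D ∧ ∀ (Ω : Type) [Fintype Ω] (Y : Ω → Finset V) (s : V → Ω → Ω),
      IsSpec G Y s → (∀ x, GoodAt G T i (Y x)) →
        SZ ℝ G Y (mc ℝ ρ.A) s ν i ≤ SB ℝ G Y (mc ℝ ρ.A) s ν i := by
  classical
  obtain ⟨D, hD1, hD2, hD3, w, a, hw⟩ := exists_fermi (V × Fin 3)
  have hpert := isPert_M (G := G) hw hT
  obtain ⟨t₀, ht₀⟩ := tw_exactS ν hν hpert i
  obtain ⟨N, hN⟩ := exists_nat_ge t₀
  refine ⟨⟨D, hD1, hD2, bM w a T N, bM_sq (G := G) hw hT N, bM_comm hw hT N⟩, hD3, ?_⟩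
  intro Ω _ Y s hs hgood f hfZ
  obtain ⟨hf1, hf2⟩ := Submodule.mem_inf.1 hfZ
  have hHV : ∀ x, HV ν G (fun v => opM (eM w a T v)) ⊤ (Y x) i := fun x =>
    loc_HV ν hν G T hT (fun v => opM (eM w a T v)) (fun u v x => opM_anti hw hT u v x) i (Y x)
      (hgood x)
  have hbd : ∀ f' : Finset V → Ω → D → ℝ, bd ν f' = tdl ℝ ν f' := by
    intro f'
    funext τ ω
    simp only [bd, tdl, LinearMap.coe_mk, AddHom.coe_mk, Finset.sum_apply, Pi.smul_apply]
    refine Finset.sum_congr rfl fun v _ => ?_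
    simp [sgn, Pool.Agent.H4.Singer.sg]
  have htw : IsTwS G Y (At (fun v => opM (eM w a T v)) (fun v => opM (gM w a v))
      (fun v => opM (cM w a v)) (N : ℝ)) s i f := by
    refine ⟨hf1.1, fun σ v hv ω => ?_⟩
    rw [hf1.2 σ v hv ω]
    congr 1
    exact (at_bM w a T N v (f σ ω)).symm
  obtain ⟨y, hy1, hy2⟩ := ht₀ N hN Ω Y s hs hHV f htw
    (by rw [hbd]; exact LinearMap.mem_ker.1 hf2)
  refine ⟨y, ⟨hy1.supp, fun σ v hv ω => ?_⟩, ?_⟩
  · rw [hy1.tw σ v hv ω]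
    congr 1
    exact at_bM w a T N v (y σ ω)
  · rw [← hbd]
    exact hy2

end Pool.Agent.H19.Cub
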