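import Pool.Agent.H19.Cub.Mod
import Pool.Agent.H19.Cub.ExT

/-!
# Project MC: the sets of consecutive points of an order are the diagonals of a polygon
-/

set_option autoImplicit false

open Finset

namespace Pool.Agent.H19.Cub

open ExTAux

namespace LocAux

variable {n : ℕ} {r : Fin n → Fin n → Prop}

open Classical in
/-- the position of a point in the order -/
noncomputable def ps (r : Fin n → Fin n → Prop) (a : Fin n) : ℕ :=
  (univ.filter fun b => r b a).card

theorem ps_lt (hr : IsOrd r) {a b : Fin n} (h : r a b) : ps r a < ps r b := by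
  classical
  unfold ps
  refine Finset.card_lt_card ⟨fun c hc => ?_, fun h1 => ?_⟩
  · rw [mem_filter] at hc ⊢
    exact ⟨mem_univ _, hr.trans _ _ _ hc.2 h⟩
  · have h2 := h1 (mem_filter.2 ⟨mem_univ a, h⟩)
    rw [mem_filter] at h2
    exact hr.irrefl a h2.2

theorem ps_lt_n (hr : IsOrd r) (a : Fin n) : ps r a < n := by
  classical
  unfold ps
  have h1 : (univ.filter fun b => r b a).card < (univ : Finset (Fin n)).card := by
    refine Finset.card_lt_card ⟨filter_subset _ _, fun h => ?_⟩
    have h2 := h (mem_univ a)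
    rw [mem_filter] at h2
    exact hr.irrefl a h2.2
  rwa [card_univ, Fintype.card_fin] at h1

theorem ps_lt_iff (hr : IsOrd r) {a b : Fin n} : ps r a < ps r b ↔ r a b := by
  constructor
  · intro h
    by_contra h1
    by_cases h2 : a = b
    · rw [h2] at h
      exact absurd h (lt_irrefl _)
    · have h3 := ps_lt hr ((hr.total a b h2).resolve_left h1)
      omega
  · exact ps_lt hr

theorem ps_inj (hr : IsOrd r) : Function.Injective (ps r) := by
  intro a b h
  by_contra h1
  rcases hr.total a b h1 with h2 | h2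
  · have := ps_lt hr h2
    omega
  · have := ps_lt hr h2
    omega

/-- the bijection between points and positions -/
noncomputable def pe (hr : IsOrd r) : Fin n ≃ Fin n :=
  Equiv.ofBijective (fun a => ⟨ps r a, ps_lt_n hr a⟩) (Finite.injective_iff_bijective.1
    fun a b h => ps_inj hr (by simpa using h))

theorem pe_val (hr : IsOrd r) (a : Fin n) : (pe hr a).val = ps r a := rfl

/-- the list of the marked points -/
noncomputable def ls (hr : IsOrd r) : List ℕ :=
  (List.finRange n).map (fun k => ((pe hr).symm k).val) ++ [n]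

theorem ls_nodup (hr : IsOrd r) : (ls hr).Nodup := by
  unfold ls
  rw [List.nodup_append]
  refine ⟨?_, List.nodup_singleton n, ?_⟩
  · refine List.Nodup.map (fun a b h => ?_) (List.nodup_finRange n)
    exact (pe hr).symm.injective (Fin.ext h)
  · intro a ha b hb
    rw [List.mem_map] at ha
    obtain ⟨k, -, rfl⟩ := ha
    rw [List.mem_singleton] at hb
    rw [hb]
    exact (Fin.is_lt _).ne

theorem ls_toFinset (hr : IsOrd r) : (ls hr).toFinset = range (n + 1) := by
  ext x
  unfold ls
  rw [List.mem_toFinset, List.mem_append, List.mem_map, List.mem_singleton, mem_range]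
  constructor
  · rintro (⟨k, -, rfl⟩ | rfl)
    · have := ((pe hr).symm k).is_lt
      omega
    · omega
  · intro hx
    by_cases h : x = n
    · exact Or.inr h
    · left
      refine ⟨pe hr ⟨x, by omega⟩, List.mem_finRange _, ?_⟩
      rw [Equiv.symm_apply_apply]

theorem pos_ls (hr : IsOrd r) (k : Fin n) : pos (ls hr) k.val = ((pe hr).symm k).val := by
  have hlen : (ls hr).length = n + 1 := length_eq (ls_nodup hr) (ls_toFinset hr)
  rw [pos_eq (by omega)]
  unfold ls
  rw [List.getElem_append_left (by simp), List.getElem_map, List.getElem_finRange]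
  rfl

theorem pos_last (hr : IsOrd r) : pos (ls hr) n = n := by
  have hlen : (ls hr).length = n + 1 := length_eq (ls_nodup hr) (ls_toFinset hr)
  rw [pos_eq (by omega)]
  unfold ls
  rw [List.getElem_append_right (by simp)]
  simp

/-- the set of a diagonal -/
noncomputable def st (r : Fin n → Fin n → Prop) (p : ℕ × ℕ) : Finset (Fin n) :=
  univ.filter fun a => p.1 ≤ ps r a ∧ ps r a < p.2

theorem mem_st {p : ℕ × ℕ} {a : Fin n} : a ∈ st r p ↔ p.1 ≤ ps r a ∧ ps r a < p.2 := by
  unfold st
  rw [mem_filter]
  exact ⟨fun h => h.2, fun h => ⟨mem_univ _, h⟩⟩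

theorem image_st (hr : IsOrd r) {p : ℕ × ℕ} (hp : p ∈ dg (n + 1)) :
    (st r p).image Fin.val = seg (ls hr) p := by
  have hp' := mem_dg.1 hp
  have hN := ls_toFinset hr
  have ho := isOrd_pos (ls_nodup hr) hN
  refine ho.ext ?_ (seg_subset hN p) fun k hk => ?_
  · intro x hx
    obtain ⟨a, -, rfl⟩ := mem_image.1 hx
    rw [mem_range]
    have := a.is_lt
    omega
  · rw [show p = (p.1, p.2) from rfl, mem_seg (ls_nodup hr) hN hk, mem_image]
    by_cases hkn : k = n
    · subst hkn
      rw [pos_last]
      constructor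
      · rintro ⟨a, -, ha⟩
        exact absurd ha (Fin.is_lt a).ne
      · intro h
        omega
    · have hk' : k < n := by omega
      rw [pos_ls hr ⟨k, hk'⟩]
      have hps : ps r ((pe hr).symm ⟨k, hk'⟩) = k := by
        rw [← pe_val hr, Equiv.apply_symm_apply]
      constructor
      · rintro ⟨a, ha, hak⟩
        have : a = (pe hr).symm ⟨k, hk'⟩ := Fin.ext hak
        rw [this, mem_st, hps] at ha
        exact ha
      · intro h
        refine ⟨(pe hr).symm ⟨k, hk'⟩, ?_, rfl⟩
        rw [mem_st, hps]
        exact h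

theorem card_st (hr : IsOrd r) {p : ℕ × ℕ} (hp : p ∈ dg (n + 1)) : (st r p).card = p.2 - p.1 := by
  have hp' := mem_dg.1 hp
  have h1 := card_seg (ls_nodup hr) (ls_toFinset hr) (i := p.1) (j := p.2) (by omega)
  rw [← image_st hr hp, card_image_of_injective _ Fin.val_injective] at h1
  exact h1

theorem arc_st (hr : IsOrd r) (p : ℕ × ℕ) : Arc (st r p) r := by
  intro a ha b hb c hc
  rw [mem_st] at ha hb hc
  rw [← ps_lt_iff hr, ← ps_lt_iff hr]
  omega

/-- every set of consecutive points is the set of a diagonal -/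
theorem exists_st (hr : IsOrd r) {S : Finset (Fin n)} (hS : 2 ≤ S.card) (hSn : S.card < n)
    (h : Arc S r) : ∃ p ∈ dg (n + 1), st r p = S := by
  have hne : S.Nonempty := card_pos.1 (by omega)
  obtain ⟨a, ha, hamin⟩ := S.exists_min_image (ps r) hne
  obtain ⟨b, hb, hbmax⟩ := S.exists_max_image (ps r) hne
  have hst : st r (ps r a, ps r b + 1) = S := by
    ext c
    rw [mem_st]
    simp only
    constructor
    · rintro ⟨h1, h2⟩
      by_contra hc
      have hac : a ≠ c := fun h3 => hc (h3 ▸ ha)
      have hbc : b ≠ c := fun h3 => hc (h3 ▸ hb)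
      have h3 : ps r a ≠ ps r c := fun h4 => hac (ps_inj hr h4)
      have h4 : ps r b ≠ ps r c := fun h4 => hbc (ps_inj hr h4)
      have h5 : r a c := (ps_lt_iff hr).1 (by omega)
      have h6 : r c b := (ps_lt_iff hr).1 (by omega)
      have h7 := (h a ha b hb c hc).1 h5
      exact hr.irrefl b (hr.trans _ _ _ h7 h6)
    · intro hc
      have h1 := hamin c hc
      have h2 := hbmax c hc
      exact ⟨h1, by omega⟩
  refine ⟨(ps r a, ps r b + 1), ?_, hst⟩
  have hcard : S.card ≤ ps r b + 1 - ps r a := by
    have h1 : (S.image (ps r)).card = S.card := card_image_of_injective _ (ps_inj hr)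
    rw [← h1]
    have h2 : S.image (ps r) ⊆ Ico (ps r a) (ps r b + 1) := by
      intro x hx
      obtain ⟨c, hc, rfl⟩ := mem_image.1 hx
      rw [mem_Ico]
      have h3 := hamin c hc
      have h4 := hbmax c hc
      omega
    have h3 := card_le_card h2
    rwa [Nat.card_Ico] at h3
  have hbn := ps_lt_n hr b
  rw [mem_dg]
  simp only
  refine ⟨by omega, by omega, ?_⟩
  rintro ⟨h1, h2⟩
  have h3 : S = univ := by
    rw [← hst]
    ext c
    rw [mem_st]
    simp only [mem_univ, iff_true]
    have := ps_lt_n hr c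
    omega
  rw [h3, card_univ, Fintype.card_fin] at hSn
  exact absurd hSn (lt_irrefl _)

end LocAux

open LocAux

theorem exists_loc {n : ℕ} (r : Ord n) : ∃ l : List ℕ, l.Nodup ∧ l.toFinset = range (n + 1) ∧
    ∃ ψ : {S : Div n // Arc S.1 r.1} ≃ {p // p ∈ dg (n + 1)},
      (∀ S, S.1.1.image Fin.val = seg l (ψ S).1) ∧
      ∀ S S' : {S : Div n // Arc S.1 r.1}, S ≠ S' →
        (Compat S.1.1 S'.1.1 ↔ Ncr (ψ S).1 (ψ S').1) := by
  obtain ⟨r, hr⟩ := r
  have hdiv : ∀ p : {p // p ∈ dg (n + 1)}, 2 ≤ (st r p.1).card ∧ (st r p.1).card < n := by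
    rintro ⟨p, hp⟩
    have h1 := card_st hr hp
    have h2 := mem_dg.1 hp
    rw [h1]
    constructor <;> omega
  set g : {p // p ∈ dg (n + 1)} → {S : Div n // Arc S.1 r} := fun p =>
    ⟨⟨st r p.1, hdiv p⟩, arc_st hr p.1⟩ with hg
  have hg1 : ∀ p, (g p).1.1 = st r p.1 := fun _ => rfl
  have hbij : Function.Bijective g := by
    constructor
    · intro p q hpq
      have h1 : st r p.1 = st r q.1 := by
        rw [← hg1, ← hg1, hpq]
      apply Subtype.ext
      refine seg_inj (ls_nodup hr) (ls_toFinset hr) p.2 q.2 ?_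
      rw [← image_st hr p.2, ← image_st hr q.2, h1]
    · rintro ⟨⟨S, hS⟩, hA⟩
      obtain ⟨p, hp, hpS⟩ := exists_st hr hS.1 hS.2 hA
      exact ⟨⟨p, hp⟩, Subtype.ext (Subtype.ext hpS)⟩
  set e := Equiv.ofBijective g hbij with he
  have hee : ∀ S, st r (e.symm S).1 = S.1.1 := by
    intro S
    rw [← hg1]
    have : g (e.symm S) = S := e.apply_symm_apply S
    rw [this]
  refine ⟨ls hr, ls_nodup hr, ls_toFinset hr, e.symm, fun S => ?_, fun S S' _ => ?_⟩
  · rw [← image_st hr (e.symm S).2, hee]
  · have key : ∀ p q : ℕ × ℕ, p ∈ dg (n + 1) → q ∈ dg (n + 1) →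
        (Compat (st r p) (st r q) ↔ Ncr p q) := by
      intro p q hp hq
      have hp' := mem_dg.1 hp
      have hq' := mem_dg.1 hq
      -- the point with a given position
      have hpt : ∀ k, k < n → ∃ a : Fin n, ps r a = k := by
        intro k hk
        refine ⟨(pe hr).symm ⟨k, hk⟩, ?_⟩
        rw [← pe_val hr, Equiv.apply_symm_apply]
      have hsub : ∀ p q : ℕ × ℕ, p.1 < p.2 → p.2 ≤ n → (st r p ⊆ st r q ↔
          q.1 ≤ p.1 ∧ p.2 ≤ q.2) := by
        intro p q h1 h2
        constructor
        · intro h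
          obtain ⟨a, ha⟩ := hpt p.1 (by omega)
          obtain ⟨b, hb⟩ := hpt (p.2 - 1) (by omega)
          have h3 := h (mem_st.2 (by omega) : a ∈ st r p)
          have h4 := h (mem_st.2 (by omega) : b ∈ st r p)
          rw [mem_st] at h3 h4
          omega
        · intro h a ha
          rw [mem_st] at ha ⊢
          omega
      have hdis : Disjoint (st r p) (st r q) ↔ p.2 ≤ q.1 ∨ q.2 ≤ p.1 := by
        rw [Finset.disjoint_left]
        constructor
        · intro h
          by_contra h1
          obtain ⟨a, ha⟩ := hpt (max p.1 q.1) (by omega)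
          exact h (mem_st.2 (by omega) : a ∈ st r p) (mem_st.2 (by omega))
        · intro h a ha hb
          rw [mem_st] at ha hb
          omega
      unfold Compat Ncr
      rw [hsub p q (by omega) (by omega), hsub q p (by omega) (by omega), hdis]
      omega
    rw [← hee, ← hee]
    exact key _ _ (e.symm S).2 (e.symm S').2

end Pool.Agent.H19.Cub
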