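import Pool.Agent.H19.Cub.Transf
import Pool.Agent.H19.Cub.ExT
import Pool.Agent.H19.Cub.DgSph
import Pool.Agent.H19.Cub.Loc

/-!
# Project MC: the real moduli spaces

`Dih n` is finite. Let `T₀` be the matrix of `exists_T (n + 1)` and `T S S' = T₀ (S.1.image Fin.val) (S'.1.image Fin.val)`.

`isT_mod`: if `S = S'` or `Compat S.1 S'.1` then one of the cells `S ∩ S'`, `S \ S'`, `S' \ S` is empty.

`fold_mod`: for `x = Quot.mk _ r` the labels are the `S` with `Arc S.1 r.1` (`mem_labD`). With `l`, `ψ` of `exists_loc`: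
the graph of the labels is isomorphic to the graph of the diagonals (`dg_sphere`, `sphere_iso`;
`n + 1 - 3 = n - 2`). If `S ≠ S'` are not compatible then the four cells are nonempty (the cell outside
contains `n`), so `T S S' < 0`. The functionals: `φ' k S = φ k (ψ S)` for the labels `S` at `x` and `0` otherwise,
`φ` from `NegOn (n + 1) T₀ l`; transport the function `f` with `ψ`.
-/

set_option autoImplicit false

open Finset

namespace Pool.Agent.H19.Cub

noncomputable instance (n : ℕ) : Fintype (Dih n) := by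
  classical
  exact Fintype.ofSurjective (Quot.mk _ : Ord n → Dih n) Quot.mk_surjective

/-- the matrix -/
def tM (n : ℕ) (T₀ : Finset ℕ → Finset ℕ → ℤ) (S S' : Div n) : ℤ :=
  T₀ (S.1.image Fin.val) (S'.1.image Fin.val)

theorem isT_mod (n : ℕ) (T₀ : Finset ℕ → Finset ℕ → ℤ) (h1 : ∀ S S', T₀ S S' = T₀ S' S)
    (h2 : ∀ S S', ((S ∩ S') ∩ range (n + 1) = ∅ ∨ (S \ S') ∩ range (n + 1) = ∅ ∨
      (S' \ S) ∩ range (n + 1) = ∅ ∨ range (n + 1) \ (S ∪ S') = ∅) → T₀ S S' = 0) :
    IsT (moduli n).graph (tM n T₀) := by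
  have hinj : Function.Injective (Fin.val : Fin n → ℕ) := Fin.val_injective
  refine ⟨fun u v => h1 _ _, ?_⟩
  intro u v huv
  apply h2
  have hC : Compat u.1 v.1 := by
    rcases huv with rfl | huv
    · exact Or.inl (Finset.Subset.refl _)
    · exact huv.2
  rcases hC with h | h | h
  · right; left
    rw [← Finset.image_sdiff _ _ hinj, Finset.sdiff_eq_empty_iff_subset.2 h, Finset.image_empty,
      Finset.empty_inter]
  · right; right; left
    rw [← Finset.image_sdiff _ _ hinj, Finset.sdiff_eq_empty_iff_subset.2 h, Finset.image_empty,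
      Finset.empty_inter]
  · left
    rw [← Finset.image_inter _ _ hinj, Finset.disjoint_iff_inter_eq_empty.1 h, Finset.image_empty,
      Finset.empty_inter]

theorem fold_mod (n : ℕ) (hn : 2 ≤ n) (T₀ : Finset ℕ → Finset ℕ → ℤ)
    (h3 : ∀ S S', ((S ∩ S') ∩ range (n + 1)).Nonempty → ((S \ S') ∩ range (n + 1)).Nonempty →
      ((S' \ S) ∩ range (n + 1)).Nonempty → (range (n + 1) \ (S ∪ S')).Nonempty → T₀ S S' < 0)
    (h4 : ∀ l : List ℕ, l.Nodup → l.toFinset = range (n + 1) → NegOn (n + 1) T₀ l) (x : Dih n) :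
    IsFoldOn (moduli n).graph (tM n T₀) (n - 2) ((moduli n).lab x) := by
  classical
  have hinj : Function.Injective (Fin.val : Fin n → ℕ) := Fin.val_injective
  induction x using Quot.ind with
  | mk r =>
    obtain ⟨l, hl1, hl2, ψ, hψ, hψ2⟩ := exists_loc r
    obtain ⟨L, hL⟩ : ∃ L : Finset (Div n), L = (moduli n).lab (Quot.mk _ r) := ⟨_, rfl⟩
    rw [← hL]
    have hlab : ∀ S : Div n, S ∈ L ↔ Arc S.1 r.1 := fun S => by
      rw [hL]
      exact mem_labD
    -- the labels at the vertex are the diagonals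
    let θ : {v // v ∈ L} ≃ {p // p ∈ dg (n + 1)} :=
      (Equiv.subtypeEquivRight hlab).trans ψ
    refine ⟨?_, ?_, ?_⟩
    · have h5 : n + 1 - 3 = n - 2 := by omega
      rw [← h5]
      refine sphere_iso (H := dgG.comap (Subtype.val : {p // p ∈ dg (n + 1)} → ℕ × ℕ))
        ⟨θ, ?_⟩ (dg_sphere (n + 1) (by omega))
      intro a b
      show (θ a).1 ≠ (θ b).1 ∧ Ncr (θ a).1 (θ b).1 ↔ a.1 ≠ b.1 ∧ Compat a.1.1 b.1.1
      by_cases hab : a = b
      · subst hab
        simp
      · have h6 : θ a ≠ θ b := fun h => hab (θ.injective h)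
        have h7 : (θ a).1 ≠ (θ b).1 := fun h => h6 (Subtype.ext h)
        have h8 : a.1 ≠ b.1 := fun h => hab (Subtype.ext h)
        have h9 := hψ2 ⟨a.1, (hlab a.1).1 a.2⟩ ⟨b.1, (hlab b.1).1 b.2⟩
          (fun h => h8 (congrArg (fun z => z.1) h))
        have h10 : Compat a.1.1 b.1.1 ↔ Ncr (θ a).1 (θ b).1 := h9
        rw [h10]
        exact ⟨fun h => ⟨h8, h.2⟩, fun h => ⟨h7, h.2⟩⟩
    · intro u hu v hv huv hnadj
      have hnc : ¬ Compat u.1 v.1 := fun h => hnadj ⟨huv, h⟩
      unfold Compat at hnc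
      push Not at hnc
      obtain ⟨c1, c2, c3⟩ := hnc
      apply h3
      · rw [Finset.not_disjoint_iff] at c3
        obtain ⟨a, ha, hb⟩ := c3
        refine ⟨a.1, Finset.mem_inter.2 ⟨Finset.mem_inter.2 ⟨Finset.mem_image_of_mem _ ha,
          Finset.mem_image_of_mem _ hb⟩, ?_⟩⟩
        have := a.2
        rw [Finset.mem_range]
        omega
      · obtain ⟨a, ha, hb⟩ := Finset.not_subset.1 c1
        refine ⟨a.1, Finset.mem_inter.2 ⟨Finset.mem_sdiff.2 ⟨Finset.mem_image_of_mem _ ha,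
          fun h => ?_⟩, ?_⟩⟩
        · obtain ⟨b, hb1, hb2⟩ := Finset.mem_image.1 h
          exact hb (hinj hb2 ▸ hb1)
        · have := a.2
          rw [Finset.mem_range]
          omega
      · obtain ⟨a, ha, hb⟩ := Finset.not_subset.1 c2
        refine ⟨a.1, Finset.mem_inter.2 ⟨Finset.mem_sdiff.2 ⟨Finset.mem_image_of_mem _ ha,
          fun h => ?_⟩, ?_⟩⟩
        · obtain ⟨b, hb1, hb2⟩ := Finset.mem_image.1 h
          exact hb (hinj hb2 ▸ hb1)
        · have := a.2
          rw [Finset.mem_range]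
          omega
      · refine ⟨n, Finset.mem_sdiff.2 ⟨Finset.mem_range.2 (by omega), fun h => ?_⟩⟩
        rw [Finset.mem_union, Finset.mem_image, Finset.mem_image] at h
        rcases h with ⟨b, -, hb⟩ | ⟨b, -, hb⟩ <;>
        · have := b.2
          omega
    · obtain ⟨φ, hφ⟩ := h4 l hl1 hl2
      have h5 : n + 1 - 3 = n - 2 := by omega
      -- functions on the labels and on the diagonals
      let pf : (Div n → ℝ) → (ℕ × ℕ → ℝ) := fun f p =>
        if h : p ∈ dg (n + 1) then f (θ.symm ⟨p, h⟩).1 else 0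
      have hpf : ∀ f p (h : p ∈ dg (n + 1)), pf f p = f (θ.symm ⟨p, h⟩).1 := fun f p h => dif_pos h
      have hsum : ∀ (F : ℕ × ℕ → ℝ) (f : Div n → ℝ), (∀ v, f v ≠ 0 → v ∈ L) →
          (∀ p (h : p ∈ dg (n + 1)), F p = f (θ.symm ⟨p, h⟩).1) →
          ∑ p ∈ dg (n + 1), F p = ∑ v, f v := by
        intro F f hf hFf
        have e1 : ∑ v, f v = ∑ v ∈ L, f v :=
          (Finset.sum_subset (Finset.subset_univ L) fun v _ hv => by
            by_contra hne
            exact hv (hf v hne)).symm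
        rw [e1, ← Finset.sum_coe_sort (dg (n + 1)) F, ← Finset.sum_coe_sort L f]
        refine Fintype.sum_equiv θ.symm _ _ fun p => ?_
        exact hFf p.1 p.2
      refine ⟨fun k v => if h : v ∈ L then
        φ (Fin.cast h5.symm k) (θ ⟨v, h⟩).1 else 0, ?_⟩
      intro f hf hf0 hfk
      have hθs : ∀ p (h : p ∈ dg (n + 1)), (θ.symm ⟨p, h⟩).1 ∈ L :=
        fun p h => (θ.symm ⟨p, h⟩).2
      have key := hφ (pf f) ?_ ?_ ?_
      · refine lt_of_eq_of_lt ?_ key
        symm
        apply hsum _ (fun u => ∑ v, f u * f v * (tM n T₀ u v : ℝ))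
        · intro u hu
          apply hf
          intro h0
          apply hu
          exact Finset.sum_eq_zero fun v _ => by rw [h0]; ring
        · intro p hp
          apply hsum _ (fun v => f (θ.symm ⟨p, hp⟩).1 * f v * (tM n T₀ (θ.symm ⟨p, hp⟩).1 v : ℝ))
          · intro v hv
            apply hf
            intro h0
            apply hv
            rw [h0]
            ring
          · intro q hq
            rw [hpf f p hp, hpf f q hq]
            have e2 : ∀ q (h : q ∈ dg (n + 1)), (θ.symm ⟨q, h⟩).1.1.image Fin.val = seg l q := by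
              intro q h
              have e3 := hψ ⟨(θ.symm ⟨q, h⟩).1, (hlab _).1 (θ.symm ⟨q, h⟩).2⟩
              have e4 : ψ ⟨(θ.symm ⟨q, h⟩).1, (hlab _).1 (θ.symm ⟨q, h⟩).2⟩ = θ (θ.symm ⟨q, h⟩) := rfl
              rw [e4, Equiv.apply_symm_apply] at e3
              exact e3
            unfold tM
            rw [e2 p hp, e2 q hq]
      · intro p hp
        by_contra hcon
        exact hp (dif_neg hcon)
      · intro h0
        apply hf0
        funext v
        by_cases hv : v ∈ L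
        · have e1 := congrFun h0 (θ ⟨v, hv⟩).1
          rw [hpf f _ (θ ⟨v, hv⟩).2] at e1
          have e2 : θ.symm ⟨(θ ⟨v, hv⟩).1, (θ ⟨v, hv⟩).2⟩ = ⟨v, hv⟩ := θ.symm_apply_apply _
          rw [e2] at e1
          exact e1
        · by_contra hne
          exact hv (hf v hne)
      · intro k
        rw [← hfk (Fin.cast h5 k)]
        apply hsum
        · intro v hv
          apply hf
          exact right_ne_zero_of_mul hv
        · intro p hp
          rw [hpf f p hp]
          have e2 : θ ⟨(θ.symm ⟨p, hp⟩).1, hθs p hp⟩ = ⟨p, hp⟩ := θ.apply_symm_apply _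
          have e3 : (if h : (θ.symm ⟨p, hp⟩).1 ∈ L then
              φ (Fin.cast h5.symm (Fin.cast h5 k)) (θ ⟨(θ.symm ⟨p, hp⟩).1, h⟩).1 else 0) = φ k p := by
            rw [dif_pos (hθs p hp), e2]
            rfl
          show φ k p * _ = (if h : (θ.symm ⟨p, hp⟩).1 ∈ L then
              φ (Fin.cast h5.symm (Fin.cast h5 k)) (θ ⟨(θ.symm ⟨p, hp⟩).1, h⟩).1 else 0) * _
          rw [e3]

/-- **Singer's conjecture for the real moduli spaces.** -/
theorem moduli_singer (n : ℕ) (hn : 2 ≤ n) (x : Dih n) (i : ℕ) (hi : 2 * i ≠ n - 2) :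
    L2HomologyZero ((moduli n).cover x) i := by
  obtain ⟨T₀, h1, h2, h3, h4⟩ := exists_T (n + 1)
  exact CubeComplex.general (moduli n) (tM n T₀) (isT_mod n T₀ h1 h2) i
    (fun y => ⟨n - 2, _, fold_mod n hn T₀ h3 h4 y, Or.inr ⟨rfl, hi⟩⟩) x

/-- The same for the finite cube complexes over the moduli space. -/
theorem moduli_over (n : ℕ) (hn : 2 ≤ n) {X : Type} [Fintype X] (C : CubeComplex (Div n) X)
    (hG : C.graph = (moduli n).graph) (r : X → Dih n) (hr : ∀ x, C.lab x ⊆ (moduli n).lab (r x))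
    (i : ℕ) (hi : n - 2 < 2 * i ∨ (∀ x, C.lab x = (moduli n).lab (r x)) ∧ 2 * i ≠ n - 2)
    (x : X) : L2HomologyZero (C.cover x) i := by
  obtain ⟨T₀, h1, h2, h3, h4⟩ := exists_T (n + 1)
  refine CubeComplex.general C (tM n T₀) (hG ▸ isT_mod n T₀ h1 h2) i (fun y => ?_) x
  rw [hG]
  rcases hi with hi | ⟨hi, hi'⟩
  · exact ⟨n - 2, _, fold_mod n hn T₀ h3 h4 (r y), Or.inl ⟨hr y, hi⟩⟩
  · exact ⟨n - 2, _, fold_mod n hn T₀ h3 h4 (r y), Or.inr ⟨hi y, hi'⟩⟩

end Pool.Agent.H19.Cub
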