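import Pool.Agent.H19.Cub.Stmt

/-!
# Project MC: the cube complex of the real moduli space of `n + 1` points on the projective line
-/

set_option autoImplicit false

open Finset

namespace Pool.Agent.H19.Cub

/-- strict linear orders -/
structure IsOrd {n : ℕ} (r : Fin n → Fin n → Prop) : Prop where
  irrefl : ∀ a, ¬ r a a
  trans : ∀ a b c, r a b → r b c → r a c
  total : ∀ a b, a ≠ b → r a b ∨ r b a

/-- the points of `S` are consecutive in the order `r` -/
def Arc {n : ℕ} (S : Finset (Fin n)) (r : Fin n → Fin n → Prop) : Prop :=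
  ∀ a ∈ S, ∀ b ∈ S, ∀ c, c ∉ S → (r a c ↔ r b c)

/-- the order of the points in `S` is reversed -/
def flip {n : ℕ} (S : Finset (Fin n)) (r : Fin n → Fin n → Prop) (a b : Fin n) : Prop :=
  (a ∈ S ∧ b ∈ S ∧ r b a) ∨ (¬ (a ∈ S ∧ b ∈ S) ∧ r a b)

section

variable {n : ℕ} {S S' : Finset (Fin n)} {r : Fin n → Fin n → Prop} {a b c : Fin n}

theorem flip_in (ha : a ∈ S) (hb : b ∈ S) : flip S r a b ↔ r b a := by simp [flip, ha, hb]

theorem flip_out (h : ¬ (a ∈ S ∧ b ∈ S)) : flip S r a b ↔ r a b := by
  unfold flip
  constructor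
  · rintro (⟨h1, h2, -⟩ | ⟨-, h3⟩)
    · exact absurd ⟨h1, h2⟩ h
    · exact h3
  · intro h3
    exact Or.inr ⟨h, h3⟩

theorem IsOrd.iff_not (hr : IsOrd r) (h : a ≠ b) : r a b ↔ ¬ r b a := by
  constructor
  · intro h1 h2
    exact hr.irrefl _ (hr.trans _ _ _ h1 h2)
  · intro h1
    exact (hr.total a b h).resolve_right h1

theorem Arc.symm (hr : IsOrd r) (h : Arc S r) (ha : a ∈ S) (hb : b ∈ S) (hc : c ∉ S) :
    r c a ↔ r c b := by
  have hac : c ≠ a := fun h' => hc (h' ▸ ha)
  have hbc : c ≠ b := fun h' => hc (h' ▸ hb)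
  rw [hr.iff_not hac, hr.iff_not hbc, h a ha b hb c hc]

theorem flip_flip (S : Finset (Fin n)) (r : Fin n → Fin n → Prop) : flip S (flip S r) = r := by
  funext a b
  apply propext
  by_cases h : a ∈ S ∧ b ∈ S
  · rw [flip_in h.1 h.2, flip_in h.2 h.1]
  · rw [flip_out h, flip_out h]

theorem flip_comm (S S' : Finset (Fin n)) (r : Fin n → Fin n → Prop) :
    flip S (flip S' r) = flip S' (flip S r) := by
  funext a b
  apply propext
  by_cases h : a ∈ S ∧ b ∈ S
  · by_cases h' : a ∈ S' ∧ b ∈ S'
    · rw [flip_in h.1 h.2, flip_in h'.2 h'.1, flip_in h'.1 h'.2, flip_in h.2 h.1]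
    · rw [flip_in h.1 h.2, flip_out (fun h1 => h' h1.symm), flip_out h', flip_in h.1 h.2]
  · by_cases h' : a ∈ S' ∧ b ∈ S'
    · rw [flip_out h, flip_in h'.1 h'.2, flip_in h'.1 h'.2, flip_out (fun h1 => h h1.symm)]
    · rw [flip_out h, flip_out h', flip_out h', flip_out h]

theorem IsOrd.flip (hr : IsOrd r) (h : Arc S r) : IsOrd (flip S r) := by
  refine ⟨fun a h1 => ?_, fun a b c h1 h2 => ?_, fun a b hab => ?_⟩
  · by_cases h2 : a ∈ S ∧ a ∈ S
    · rw [flip_in h2.1 h2.2] at h1
      exact hr.irrefl a h1
    · rw [flip_out h2] at h1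
      exact hr.irrefl a h1
  · by_cases ha : a ∈ S
    · by_cases hb : b ∈ S
      · rw [flip_in ha hb] at h1
        by_cases hc : c ∈ S
        · rw [flip_in hb hc] at h2
          rw [flip_in ha hc]
          exact hr.trans _ _ _ h2 h1
        · rw [flip_out (fun h' => hc h'.2)] at h2
          rw [flip_out (fun h' => hc h'.2)]
          exact (h a ha b hb c hc).2 h2
      · rw [flip_out (fun h' => hb h'.2)] at h1
        rw [flip_out (fun h' => hb h'.1)] at h2
        by_cases hc : c ∈ S
        · exact absurd (hr.trans _ _ _ ((h a ha c hc b hb).1 h1) h2) (hr.irrefl c)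
        · rw [flip_out (fun h' => hc h'.2)]
          exact hr.trans _ _ _ h1 h2
    · rw [flip_out (fun h' => ha h'.1)] at h1
      rw [flip_out (fun h' => ha h'.1)]
      by_cases hb : b ∈ S
      · by_cases hc : c ∈ S
        · exact (h.symm hr hb hc ha).1 h1
        · rw [flip_out (fun h' => hc h'.2)] at h2
          exact hr.trans _ _ _ h1 h2
      · rw [flip_out (fun h' => hb h'.1)] at h2
        exact hr.trans _ _ _ h1 h2
  · by_cases h1 : a ∈ S ∧ b ∈ S
    · rw [flip_in h1.1 h1.2, flip_in h1.2 h1.1]
      exact (hr.total a b hab).symm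
    · rw [flip_out h1, flip_out (fun h2 => h1 h2.symm)]
      exact hr.total a b hab

theorem Arc.flip_self (h : Arc S r) : Arc S (flip S r) := by
  intro a ha b hb c hc
  rw [flip_out (fun h' => hc h'.2), flip_out (fun h' => hc h'.2)]
  exact h a ha b hb c hc

/-- nested or disjoint -/
def Compat (S S' : Finset (Fin n)) : Prop := S ⊆ S' ∨ S' ⊆ S ∨ Disjoint S S'

theorem Compat.symm (h : Compat S S') : Compat S' S := by
  rcases h with h | h | h
  · exact Or.inr (Or.inl h)
  · exact Or.inl h
  · exact Or.inr (Or.inr h.symm)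

theorem Arc.flip (hr : IsOrd r) (h : Arc S r) (hc : Compat S S') :
    Arc S (flip S' r) := by
  intro a ha b hb c hcS
  rcases hc with h1 | h1 | h1
  · -- `S ⊆ S'`
    by_cases hc' : c ∈ S'
    · rw [flip_in (h1 ha) hc', flip_in (h1 hb) hc']
      exact h.symm hr ha hb hcS
    · rw [flip_out (fun h2 => hc' h2.2), flip_out (fun h2 => hc' h2.2)]
      exact h a ha b hb c hcS
  · -- `S' ⊆ S`
    have hc' : c ∉ S' := fun h2 => hcS (h1 h2)
    rw [flip_out (fun h2 => hc' h2.2), flip_out (fun h2 => hc' h2.2)]
    exact h a ha b hb c hcS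
  · have ha' : a ∉ S' := Finset.disjoint_left.1 h1 ha
    have hb' : b ∉ S' := Finset.disjoint_left.1 h1 hb
    rw [flip_out (fun h2 => ha' h2.1), flip_out (fun h2 => hb' h2.1)]
    exact h a ha b hb c hcS

theorem IsOrd.rev (hr : IsOrd r) : IsOrd fun a b => r b a :=
  ⟨fun a => hr.irrefl a, fun _ _ _ h1 h2 => hr.trans _ _ _ h2 h1, fun a b h => hr.total b a h.symm⟩

theorem arc_rev (hr : IsOrd r) : Arc S (fun a b => r b a) ↔ Arc S r := by
  constructor
  · intro h a ha b hb c hc
    exact h.symm hr.rev ha hb hc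
  · intro h a ha b hb c hc
    exact h.symm hr ha hb hc

end

/-- the orders of the points `0, …, n - 1` on the real line (the last marked point is at infinity) -/
abbrev Ord (n : ℕ) : Type := {r : Fin n → Fin n → Prop // IsOrd r}

/-- The orders up to reversal, that is, the cyclic orders of the `n + 1` marked points up to
reversal.  They correspond to the cells (associahedra) of the moduli space. -/
def Dih (n : ℕ) : Type := Quot fun r r' : Ord n => r'.1 = fun a b => r.1 b a

/-- the labels: sets `S` of `2 ≤ |S| ≤ n - 1` of the points; the label `S` stands for the divisor of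
the moduli space on which the points of `S` collide -/
abbrev Div (n : ℕ) : Type := {S : Finset (Fin n) // 2 ≤ S.card ∧ S.card < n}

open Classical in
/-- the order of the points in `S` is reversed (if they are consecutive) -/
noncomputable def nbO {n : ℕ} (S : Div n) (r : Ord n) : Ord n :=
  if h : Arc S.1 r.1 then ⟨flip S.1 r.1, r.2.flip h⟩ else r

theorem nbO_val {n : ℕ} {S : Div n} {r : Ord n} (h : Arc S.1 r.1) :
    (nbO S r).1 = flip S.1 r.1 := by
  unfold nbO
  rw [dif_pos h]

/-- the neighbour -/
noncomputable def nbD {n : ℕ} (S : Div n) : Dih n → Dih n :=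
  Quot.map (nbO S) fun r r' h => by
    have h1 : Arc S.1 r'.1 ↔ Arc S.1 r.1 := by
      rw [h]
      exact arc_rev r.2
    by_cases h2 : Arc S.1 r.1
    · rw [nbO_val h2, nbO_val (h1.2 h2), h]
      funext a b
      apply propext
      by_cases h3 : a ∈ S.1 ∧ b ∈ S.1
      · rw [flip_in h3.1 h3.2, flip_in h3.2 h3.1]
      · rw [flip_out h3, flip_out (fun h4 => h3 h4.symm)]
    · unfold nbO
      rw [dif_neg h2, dif_neg (fun h3 => h2 (h1.1 h3))]
      exact h

open Classical in
/-- the labels at a vertex: the sets of consecutive points -/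
noncomputable def labD {n : ℕ} : Dih n → Finset (Div n) :=
  Quot.lift (fun r => univ.filter fun S => Arc S.1 r.1) fun r r' h => by
    have h1 : ∀ S : Div n, Arc S.1 r'.1 ↔ Arc S.1 r.1 := by
      intro S
      rw [h]
      exact arc_rev r.2
    ext S
    simp only [Finset.mem_filter, Finset.mem_univ, true_and]
    exact (h1 S).symm

open Classical in
theorem mem_labD {n : ℕ} {S : Div n} {r : Ord n} : S ∈ labD (Quot.mk _ r) ↔ Arc S.1 r.1 := by
  show S ∈ (univ.filter fun S : Div n => Arc S.1 r.1) ↔ _
  simp

/-- The cube complex dual to the tiling of the moduli space `\bar M_{0,n+1}(ℝ)` by associahedra: the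
vertices are the cyclic orders of the `n + 1` marked points up to reversal (the orders of `n` points on
the line up to reversal), the edges at a vertex are labelled by the sets `S` of consecutive points,
and the edge with the label `S` leads to the vertex where the order of the points of `S` is reversed;
labels span a cube if they are pairwise nested or disjoint. -/
noncomputable def moduli (n : ℕ) : CubeComplex (Div n) (Dih n) where
  graph :=
    { Adj := fun S S' => S ≠ S' ∧ Compat S.1 S'.1
      symm := ⟨fun _ _ h => ⟨h.1.symm, h.2.symm⟩⟩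
      loopless := ⟨fun _ h => h.1 rfl⟩ }
  lab := labD
  nb := nbD
  lab_nb S x h := by
    induction x using Quot.ind with
    | mk r =>
      rw [mem_labD] at h
      show S ∈ labD (Quot.mk _ (nbO S r))
      rw [mem_labD, nbO_val h]
      exact h.flip_self
  nb_nb S x h := by
    induction x using Quot.ind with
    | mk r =>
      rw [mem_labD] at h
      show Quot.mk _ (nbO S (nbO S r)) = Quot.mk _ r
      congr 1
      apply Subtype.ext
      rw [nbO_val (by rw [nbO_val h]; exact h.flip_self), nbO_val h, flip_flip]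
  lab_adj S S' x hSS hS hS' := by
    induction x using Quot.ind with
    | mk r =>
      rw [mem_labD] at hS hS'
      show S ∈ labD (Quot.mk _ (nbO S' r))
      rw [mem_labD, nbO_val hS']
      exact hS.flip r.2 hSS.2
  nb_comm S S' x hSS hS hS' := by
    induction x using Quot.ind with
    | mk r =>
      rw [mem_labD] at hS hS'
      show Quot.mk _ (nbO S (nbO S' r)) = Quot.mk _ (nbO S' (nbO S r))
      congr 1
      apply Subtype.ext
      rw [nbO_val (by rw [nbO_val hS']; exact hS.flip r.2 hSS.2), nbO_val hS',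
        nbO_val (by rw [nbO_val hS]; exact hS'.flip r.2 hSS.2.symm), nbO_val hS, flip_comm]

end Pool.Agent.H19.Cub
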