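import Pool.Agent.H85.Fold.Sphere

/-!
# Project MC: diagonals of polygons, definitions

The polygon has the vertices `0, …, N - 1` (the gaps of a cyclic list `l` of the `N` marked points,
the vertex `i` is in front of the entry `i` of `l`, the vertex `0` is also behind the last entry).
-/

set_option autoImplicit false

open Finset

namespace Pool.Agent.H19.Cub

/-- the diagonals of the polygon with the vertices `0, …, N - 1` -/
def dg (N : ℕ) : Finset (ℕ × ℕ) :=
  (range N ×ˢ range N).filter fun p => p.1 + 2 ≤ p.2 ∧ ¬ (p.1 = 0 ∧ p.2 + 1 = N)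

/-- the points of the list `l` on one side of a diagonal -/
def seg (l : List ℕ) (p : ℕ × ℕ) : Finset ℕ := ((l.take p.2).drop p.1).toFinset

/-- the diagonals `p` and `q` do not cross -/
def Ncr (p q : ℕ × ℕ) : Prop :=
  ¬ (p.1 < q.1 ∧ q.1 < p.2 ∧ p.2 < q.2) ∧ ¬ (q.1 < p.1 ∧ p.1 < q.2 ∧ q.2 < p.2)

/-- the graph of noncrossing diagonals -/
def dgG : SimpleGraph (ℕ × ℕ) where
  Adj p q := p ≠ q ∧ Ncr p q
  symm := ⟨fun _ _ h => ⟨h.1.symm, h.2.2, h.2.1⟩⟩
  loopless := ⟨fun _ h => h.1 rfl⟩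

/-- the product of the sizes of the four cells of two splits of `{0, …, N - 1}` -/
def cellP (N : ℕ) (S S' : Finset ℕ) : ℤ :=
  ((S ∩ S') ∩ range N).card * ((S \ S') ∩ range N).card * ((S' \ S) ∩ range N).card *
    (range N \ (S ∪ S')).card

/-- on the diagonals of the cyclic list `l` the matrix `T` is negative definite on the common kernel
of `N - 3` functionals -/
def NegOn (N : ℕ) (T : Finset ℕ → Finset ℕ → ℤ) (l : List ℕ) : Prop :=
  ∃ φ : Fin (N - 3) → ℕ × ℕ → ℝ, ∀ f : ℕ × ℕ → ℝ, (∀ p, f p ≠ 0 → p ∈ dg N) → f ≠ 0 →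
    (∀ k, ∑ p ∈ dg N, φ k p * f p = 0) →
      ∑ p ∈ dg N, ∑ q ∈ dg N, f p * f q * (T (seg l p) (seg l q) : ℝ) < 0

end Pool.Agent.H19.Cub
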