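import Pool.Agent.H19.Cub.CovEmb
import Pool.Agent.H19.Cub.Hodge
import Pool.Agent.H19.Cub.HarmW

/-!
# Project MC: the general theorem

`harm_ext`: let `j = C.emb x`, `D = C.cover x`. Extend the harmonic chain `f` on the cover by zero:
`F σ y = f σ c` if `y = j c` and `0` otherwise (`emb_injective`). Then `F` is a harmonic chain on `X × W`:
supports by `emb_fst`; antisymmetry and coboundary: for `y = j c`, `v ∈ σ ⊆ lab` by `emb_cs`; if `y` is not in the range
of `j` and `v ∈ C.lab y.1` then `prS C.cs gen v y` is not in the range (apply `emb_cs` to its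
preimage; the involutions are involutions); for `σ ⊄ lab` both sides vanish. Summability: the sum over the range of
`j`. Boundary: all terms have the same point `y`.

`general`: `hodgeS` for `D` with `D.isSpec`, `isL2_iff`; a harmonic chain on `D` vanishes by `harm_ext` and
`harm_W` (with `Y = C.lab`, `s = C.cs`, `C.isSpec`). `D.graph = C.graph` by definition.
-/

set_option autoImplicit false

open Finset

namespace Pool.Agent.H19.Cub

open Pool.Agent.H4.Singer

namespace CubeComplex

variable {V X : Type} [DecidableEq V] [Fintype V]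

theorem harm_ext (C : CubeComplex V X) (x : X) (ν : V → ℕ) (i : ℕ)
    (h0 : ∀ F : Finset V → X × RGrp C.graph → ℂ,
      IsHarmS C.graph (prY C.lab (RGrp C.graph)) (prS C.cs (gen C.graph)) ν i F → F = 0)
    (f : Finset V → C.Cover x → ℂ)
    (hf : IsHarmS C.graph (C.cover x).lab (C.cover x).cs ν i f) : f = 0 := by
  classical
  have hinj := C.emb_injective x
  have hs := (C.cover x).isSpec
  have hsW : IsSpec C.graph (prY C.lab (RGrp C.graph)) (prS C.cs (gen C.graph)) :=
    isSpec_pr C.isSpec (gen C.graph) (l2h_gen_sq C.graph) (l2h_gen_comm C.graph)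
  -- extension by zero
  obtain ⟨F, hF⟩ : ∃ F : Finset V → X × RGrp C.graph → ℂ,
      F = fun σ => Function.extend (C.emb x) (f σ) 0 := ⟨_, rfl⟩
  have hF1 : ∀ σ c, F σ (C.emb x c) = f σ c := by
    intro σ c
    rw [hF]
    exact hinj.extend_apply _ _ _
  have hF2 : ∀ σ y, (¬ ∃ c, C.emb x c = y) → F σ y = 0 := by
    intro σ y hy
    rw [hF]
    exact Function.extend_apply' _ _ _ hy
  have hlab : ∀ c, prY C.lab (RGrp C.graph) (C.emb x c) = (C.cover x).lab c := by
    intro c
    show C.lab (C.emb x c).1 = C.lab (C.proj x c)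
    rw [C.emb_fst]
  -- the range is invariant
  have hrange : ∀ v y, v ∈ prY C.lab (RGrp C.graph) y →
      (¬ ∃ c, C.emb x c = y) → ¬ ∃ c, C.emb x c = prS C.cs (gen C.graph) v y := by
    rintro v y hv hy ⟨c, hc⟩
    apply hy
    have h1 : v ∈ prY C.lab (RGrp C.graph) (C.emb x c) := by
      rw [hc]
      exact hsW.mem v y hv
    rw [hlab] at h1
    refine ⟨(C.cover x).cs v c, ?_⟩
    rw [C.emb_cs x v c h1, hc, hsW.inv]
  have hFharm : IsHarmS C.graph (prY C.lab (RGrp C.graph)) (prS C.cs (gen C.graph)) ν i F := by
    refine ⟨⟨?_, ?_, ?_⟩, ?_, ?_⟩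
    · intro σ y hne
      by_cases hy : ∃ c, C.emb x c = y
      · obtain ⟨c, rfl⟩ := hy
        rw [hF1] at hne
        rw [hlab]
        exact hf.chain.supp σ c hne
      · exact absurd (hF2 σ y hy) hne
    · intro σ v hv y
      by_cases hσ : C.graph.IsClique (σ : Set V) ∧ σ.card = i
      · have hcl : Pool.Agent.H85.Fold.Cl C.graph σ := fun a ha b hb hab =>
          hσ.1 (Finset.mem_coe.2 ha) (Finset.mem_coe.2 hb) hab
        by_cases hy : σ ⊆ prY C.lab (RGrp C.graph) y
        · by_cases hy' : ∃ c, C.emb x c = y
          · obtain ⟨c, rfl⟩ := hy'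
            have h1 : v ∈ (C.cover x).lab c := by
              rw [← hlab]
              exact hy hv
            rw [← C.emb_cs x v c h1, hF1, hF1]
            exact hf.chain.anti σ v hv c
          · rw [hF2 σ y hy', hF2 σ _ (hrange v y (hy hv) hy'), neg_zero]
        · have h1 : F σ y = 0 := by
            by_contra hne
            by_cases hy' : ∃ c, C.emb x c = y
            · obtain ⟨c, rfl⟩ := hy'
              rw [hF1] at hne
              rw [hlab] at hy
              exact hy (hf.chain.supp σ c hne).1
            · exact hne (hF2 σ y hy')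
          have h2 : F σ (prS C.cs (gen C.graph) v y) = 0 := by
            by_contra hne
            by_cases hy' : ∃ c, C.emb x c = prS C.cs (gen C.graph) v y
            · obtain ⟨c, hc⟩ := hy'
              rw [← hc, hF1] at hne
              have h3 := (hf.chain.supp σ c hne).1
              rw [← hlab, hc, hsW.sub_iff hcl hv] at h3
              exact hy h3
            · exact hne (hF2 σ _ hy')
          rw [h1, h2, neg_zero]
      · have h1 : ∀ y, F σ y = 0 := by
          intro y
          by_contra hne
          by_cases hy' : ∃ c, C.emb x c = y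
          · obtain ⟨c, rfl⟩ := hy'
            rw [hF1] at hne
            exact hσ (hf.chain.supp σ c hne).2
          · exact hne (hF2 σ y hy')
        rw [h1, h1, neg_zero]
    · intro σ
      have h1 := hf.chain.l2 σ
      have h2 : (fun y => ‖F σ y‖ ^ 2) = Function.extend (C.emb x) (fun c => ‖f σ c‖ ^ 2) 0 := by
        funext y
        by_cases hy : ∃ c, C.emb x c = y
        · obtain ⟨c, rfl⟩ := hy
          rw [hF1, hinj.extend_apply]
        · rw [hF2 σ y hy, Function.extend_apply' _ _ _ hy]
          simp
      rw [h2]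
      exact (summable_extend_zero hinj).2 h1
    · funext τ y
      by_cases hy : ∃ c, C.emb x c = y
      · obtain ⟨c, rfl⟩ := hy
        have h1 := congrFun (congrFun hf.cyc τ) c
        have h2 : bdry ν F τ (C.emb x c) = bdry ν f τ c := by
          unfold bdry
          exact Finset.sum_congr rfl fun v _ => by rw [hF1]
        rw [h2, h1]
        rfl
      · unfold bdry
        refine Finset.sum_eq_zero fun v _ => ?_
        rw [hF2 _ y hy, mul_zero]
    · intro ρ y hρy hρ hρi
      by_cases hy : ∃ c, C.emb x c = y
      · obtain ⟨c, rfl⟩ := hy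
        rw [hlab] at hρy
        have h1 := hf.cocyc ρ c hρy hρ hρi
        rw [← h1]
        refine Finset.sum_congr rfl fun v hv => ?_
        rw [← C.emb_cs x v c (hρy hv), hF1, hF1]
      · refine Finset.sum_eq_zero fun v hv => ?_
        rw [hF2 _ y hy, hF2 _ _ (hrange v y (hρy hv) hy), sub_zero, mul_zero]
  have hF0 := h0 F hFharm
  funext σ c
  rw [← hF1, hF0]
  rfl

/-- **The general theorem.** -/
theorem general [Fintype X] (C : CubeComplex V X) (T : V → V → ℤ) (hT : IsT C.graph T) (i : ℕ)
    (hgood : ∀ x, GoodAt C.graph T i (C.lab x)) (x : X) : L2HomologyZero (C.cover x) i := by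
  intro ν hν z hz hdz ε hε
  have h1 : ∀ f : Finset V → C.Cover x → ℂ,
      IsHarmS C.graph (C.cover x).lab (C.cover x).cs ν i f → f = 0 := fun f hf =>
    C.harm_ext x ν i (harm_W C.graph T hT C.lab C.cs C.isSpec i hgood ν hν) f hf
  obtain ⟨y, hy, hye⟩ := hodgeS C.graph (C.cover x).lab (C.cover x).cs (C.cover x).isSpec ν hν i
    h1 z (((C.cover x).isL2_iff i z).1 hz) hdz ε hε
  exact ⟨y, ((C.cover x).isL2_iff (i + 1) y).2 hy, hye⟩

end CubeComplex

end Pool.Agent.H19.Cub
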